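import Pool.Agent.Work.MP_a98e4e_ag.U.Base

/-!
# Block (U): abstract interface to the `x`-graded table of `e_8`

`B` = index set of the basis (248 elements), `c` = structure constants, `deg` = `x`-degree,
`h` = Euler element, `q` = quadratic form on degree 2, `cl` = the adjoint Clifford action.
-/

namespace Pool.Agent.Licci.U

open Module

universe u

/-- `x` is supported in degree `k`. -/
def Sup {B : Type} (deg : B → ℤ) (k : ℤ) {A : Type u} [Zero A] (x : B → A) : Prop :=
  ∀ b, deg b ≠ k → x b = 0

/-- `x` is supported in degrees `≥ k`. -/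
def Ge {B : Type} (deg : B → ℤ) (k : ℤ) {A : Type u} [Zero A] (x : B → A) : Prop :=
  ∀ b, deg b < k → x b = 0

/-- the bilinear map with integer structure constants `c` over any commutative ring. -/
def bil {B : Type} [Fintype B] (c : B → B → B → ℤ) (A : Type u) [CommRing A] :
    (B → A) →ₗ[A] (B → A) →ₗ[A] (B → A) :=
  LinearMap.mk₂ A (fun x y k => ∑ i, ∑ j, (c i j k : A) * (x i * y j))
    (by intro x x' y; funext k; simp only [Pi.add_apply, ← Finset.sum_add_distrib]
        refine Finset.sum_congr rfl fun i _ => Finset.sum_congr rfl fun j _ => ?_; ring)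
    (by intro a x y; funext k
        simp only [Pi.smul_apply, smul_eq_mul, Finset.mul_sum]
        refine Finset.sum_congr rfl fun i _ => Finset.sum_congr rfl fun j _ => ?_; ring)
    (by intro x y y'; funext k; simp only [Pi.add_apply, ← Finset.sum_add_distrib]
        refine Finset.sum_congr rfl fun i _ => Finset.sum_congr rfl fun j _ => ?_; ring)
    (by intro a x y; funext k
        simp only [Pi.smul_apply, smul_eq_mul, Finset.mul_sum]
        refine Finset.sum_congr rfl fun i _ => Finset.sum_congr rfl fun j _ => ?_; ring)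

theorem bil_apply {B : Type} [Fintype B] (c : B → B → B → ℤ) (A : Type u) [CommRing A]
    (x y : B → A) (k : B) : bil c A x y k = ∑ i, ∑ j, (c i j k : A) * (x i * y j) := rfl

theorem bil_map {B : Type} [Fintype B] (c : B → B → B → ℤ) {A A' : Type u} [CommRing A]
    [CommRing A'] (φ : A →+* A') (x y : B → A) :
    φ ∘ bil c A x y = bil c A' (φ ∘ x) (φ ∘ y) := by
  funext k
  simp [bil_apply]

/-- the bilinear form with integer coefficients `q`. -/
def qf {B : Type} [Fintype B] (q : B → B → ℤ) {A : Type u} [CommRing A] (x y : B → A) : A :=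
  ∑ i, ∑ j, (q i j : A) * (x i * y j)

/-- the table -/
structure XTab (B : Type) where
  /-- structure constants: `[b_i, b_j] = ∑ c i j k b_k` -/
  c : B → B → B → ℤ
  /-- `x`-degree -/
  deg : B → ℤ
  /-- Euler element -/
  h : B → ℤ
  /-- quadratic form (on degree 2) -/
  q : B → B → ℤ
  /-- `cl e v = [e^♭, v]` for `e` of degree `2` -/
  cl : B → B → B → ℤ

namespace XTab

variable {B : Type} [Fintype B] [DecidableEq B]

/-- the bracket -/
abbrev br (X : XTab B) (A : Type u) [CommRing A] := bil X.c A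

/-- the facts on the table which block (U) uses. -/
structure Good (X : XTab B) : Prop where
  deg_ge : ∀ b, -2 ≤ X.deg b
  deg_le : ∀ b, X.deg b ≤ 2
  skew : ∀ (A : Type u) [CommRing A] (x y : B → A), X.br A x y = - X.br A y x
  jac : ∀ (A : Type u) [CommRing A] (x y z : B → A),
    X.br A x (X.br A y z) = X.br A (X.br A x y) z + X.br A y (X.br A x z)
  br_sup : ∀ (A : Type u) [CommRing A] (k l : ℤ) (x y : B → A),
    Sup X.deg k x → Sup X.deg l y → Sup X.deg (k + l) (X.br A x y)
  br_h : ∀ (A : Type u) [CommRing A] (x : B → A),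
    X.br A (fun b => (X.h b : A)) x = fun b => (X.deg b : A) * x b
  inj : ∀ (A : Type u) [CommRing A] [Algebra ℚ A] (k : ℤ) (v : B → A), k ≤ 0 → Sup X.deg k v →
    (∀ e : B → A, Sup X.deg 2 e → X.br A v e = 0) → v = 0
  cl_sup : ∀ (A : Type u) [CommRing A] (e v : B → A), Sup X.deg 2 e → Sup X.deg 1 v →
    Sup X.deg (-1) (bil X.cl A e v)
  cliff1 : ∀ (A : Type u) [CommRing A] (e e' v : B → A), Sup X.deg 2 e → Sup X.deg 2 e' →
    Sup X.deg 1 v →
    X.br A e (bil X.cl A e' v) + X.br A e' (bil X.cl A e v) = (2 * qf X.q e e') • v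
  cliff2 : ∀ (A : Type u) [CommRing A] (e e' v : B → A), Sup X.deg 2 e → Sup X.deg 2 e' →
    Sup X.deg (-1) v →
    bil X.cl A e (X.br A e' v) + bil X.cl A e' (X.br A e v) = (2 * qf X.q e e') • v
  card1 : Fintype.card {b // X.deg b = 1} = 64
  card2 : Fintype.card {b // X.deg b = 2} = 14

end XTab

/-- the frames `G i ∈ Aut (e_8 (T))` with entries in `R_i`, and the 14 global vectors `γ`. -/
structure UData {B : Type} [Fintype B] [DecidableEq B] (X : XTab B)
    {R : Type u} [CommRing R] {T : Type u} [CommRing T] [Algebra R T] (C : Cov R T) where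
  G : Fin 3 → Matrix B B T
  G' : Fin 3 → Matrix B B T
  GG' : ∀ i, G i * G' i = 1
  G'G : ∀ i, G' i * G i = 1
  hG : ∀ i a b, G i a b ∈ C.R1 i
  hG' : ∀ i a b, G' i a b ∈ C.R1 i
  hom : ∀ i x y, (G i).mulVec (X.br T x y) = X.br T ((G i).mulVec x) ((G i).mulVec y)
  γ : Fin 14 → B → R
  hγ : ∀ i l, Sup X.deg 2 ((G i).mulVec (algebraMap R T ∘ γ l))
  M : Matrix (Fin 14) (Fin 14) R
  hMs : M.transpose = M
  hMu : IsUnit M.det
  hM : ∀ i k l, algebraMap R T (M k l) =
    qf X.q ((G i).mulVec (algebraMap R T ∘ γ k)) ((G i).mulVec (algebraMap R T ∘ γ l))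

end Pool.Agent.Licci.U
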