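import Pool.Agent.Work.MP_a98e4e_ag.U.Base
import Pool.Agent.Work.MP_a98e4e_ag.Cech

/-!
# Block (U), module U1: the chart rings and the Cech lemma
-/

namespace Pool.Agent.Licci.U

open Module RingTheory.Sequence IsLocalRing LicciCodimFour

theorem Rl_eq_chart {R : Type*} [CommRing R] {T : Type*} [CommRing T] [Algebra R T] (a : R) :
    Rl R T a = chart T a := by
  ext x
  exact Iff.rfl

namespace Cov

variable {R : Type*} [CommRing R] {T : Type*} [CommRing T] [Algebra R T] (C : Cov R T)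

/-- U1a -/
theorem inter [IsLocalRing R] [IsNoetherianRing R]
    (hm : ∀ i, C.f i ∈ maximalIdeal R) (hreg : IsWeaklyRegular R [C.f 0, C.f 1, C.f 2])
    {x : T} {i j : Fin 3} (hij : i ≠ j) (hi : x ∈ C.R1 i) (hj : x ∈ C.R1 j) :
    ∃ r : R, algebraMap R T r = x := by
  have hperm : ∀ i j k : Fin 3, List.Perm [(0 : Fin 3), 1, 2] [i, j, k] →
      Reg3 (C.f i) (C.f j) (C.f k) := by
    intro i j k h
    apply Reg3.of_isWeaklyRegular
    apply IsLocalRing.isWeaklyRegular_of_perm_of_subset_maximalIdeal hreg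
    · exact h.map C.f
    · intro r hr
      simp only [List.mem_cons, List.not_mem_nil, or_false] at hr
      rcases hr with rfl | rfl | rfl <;> exact hm _
  have hex : ∀ i j : Fin 3, i ≠ j → ∃ k, List.Perm [(0 : Fin 3), 1, 2] [i, j, k] := by decide
  obtain ⟨k, hk⟩ := hex i j hij
  obtain ⟨r, hr⟩ := exists_eq_algebraMap_of_inter C.inj (hperm i j k hk) (C.unit i) hi hj
  exact ⟨r, hr.symm⟩

set_option linter.unusedVariables false in
/-- U1b: Cech `H^1 = 0`, vector valued -/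
theorem cech [IsLocalRing R] [IsNoetherianRing R]
    (hm : ∀ i, C.f i ∈ maximalIdeal R) (hreg : IsWeaklyRegular R [C.f 0, C.f 1, C.f 2])
    {ι : Type*} (a : Fin 3 → Fin 3 → ι → T)
    (ha : ∀ i j s, a i j s ∈ C.R2 i j) (hc : ∀ i j k s, a i j s + a j k s = a i k s)
    [Finite ι] :
    ∃ b : Fin 3 → ι → T, (∀ i s, b i s ∈ C.R1 i) ∧ ∀ i j s, a i j s = b j s - b i s := by
  obtain ⟨b, hb, h⟩ := cech_cover_pi C.inj C.f C.unit (Reg3.of_isWeaklyRegular hreg)
    (Ideal.subset_span ⟨0, rfl⟩) (Ideal.subset_span ⟨1, rfl⟩) (Ideal.subset_span ⟨2, rfl⟩)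
    (C.unit 0) (C.unit 1) (C.unit 2) a ha (fun i j k => funext fun s => hc i j k s)
  exact ⟨b, hb, fun i j s => congrFun (h i j) s⟩

/-- U1c: `R_ij` is `R_i` with `f_j` inverted -/
theorem mem_R2_iff (i j : Fin 3) (x : T) :
    x ∈ C.R2 i j ↔ ∃ N : ℕ, algebraMap R T (C.f j) ^ N * x ∈ C.R1 i := by
  constructor
  · intro h
    have h' : x ∈ chart T (C.f j * C.f i) := by
      rw [mul_comm]
      exact h
    exact exists_pow_mul_mem_chart h'
  · rintro ⟨N, hN⟩
    have : x ∈ chart T (C.f j * C.f i) := mem_chart_of_pow_mul hN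
    rw [mul_comm] at this
    exact this

/-- U1d -/
theorem R1_le_R2 (i j : Fin 3) : C.R1 i ≤ C.R2 i j := fun _ hx =>
  mem_chart_mul_right (C.f j) hx

theorem R1_le_R2' (i j : Fin 3) : C.R1 j ≤ C.R2 i j := fun _ hx =>
  mem_chart_mul_left (C.f i) hx

theorem R2_comm (i j : Fin 3) : C.R2 i j = C.R2 j i := by
  unfold R2
  rw [mul_comm]

end Cov

end Pool.Agent.Licci.U
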