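import Pool.Agent.Work.MP_a98e4e_ag.U.UMap
import Pool.Agent.Work.MP_a98e4e_ag.Slice

/-!
# Block (U), U8: unimodularity over any regular local ring from the case of dimension three
-/

namespace Pool.Agent.Licci.U

open Module RingTheory.Sequence IsLocalRing

universe u

/-- The statement `split` (U7). -/
def SplitStatement {B : Type} [Fintype B] [DecidableEq B] (X : XTab B) : Prop :=
  ∀ {R : Type u} [CommRing R] [IsLocalRing R] [IsNoetherianRing R] [Algebra ℚ R]
    {T : Type u} [CommRing T] [Algebra R T] (C : Cov R T)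
    (_hm : ∀ i, C.f i ∈ maximalIdeal R) (_hreg : IsWeaklyRegular R [C.f 0, C.f 1, C.f 2])
    (_hT : ∀ x : T, ∃ N : ℕ, ∃ r : R,
      algebraMap R T (C.f 0 * C.f 1 * C.f 2) ^ N * x = algebraMap R T r)
    (y1 y2 : R) (_hy : IsWeaklyRegular R [y1, y2]) (_hy1 : y1 ∈ maximalIdeal R)
    (_hy2 : y2 ∈ maximalIdeal R)
    (_hfree : ∀ (M : Type u) [AddCommGroup M] [Module R M] [Module.Finite R M],
      IsWeaklyRegular M [y1, y2] → ∀ (b : ℕ) (π : (Fin b → R) →ₗ[R] M), Function.Surjective π →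
        Module.Free R (LinearMap.ker π))
    (D : UData X C) (c : Fin 14 → R)
    (_hc : ∀ b, ∑ l, c l * D.γ l b ∈ maximalIdeal R) (l : Fin 14),
    c l ∈ maximalIdeal R

/-- A weakly regular sequence of length three in the maximal ideal forces dimension at least three. -/
theorem exists_dim_eq {R : Type u} [CommRing R] [IsRegularLocalRing R] (fs : List R)
    (hlen : fs.length = 3) (hm : ∀ f ∈ fs, f ∈ maximalIdeal R) (hreg : IsWeaklyRegular R fs) :
    ∃ n : ℕ, ringKrullDim R = (n + 3 : ℕ) := by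
  have hr : IsRegular R fs := by
    refine ⟨hreg, ?_⟩
    have h1 : Ideal.ofList fs ≤ maximalIdeal R := Ideal.span_le.2 hm
    intro h
    rw [smul_eq_mul, Ideal.mul_top] at h
    rw [← h] at h1
    exact (Ideal.IsPrime.ne_top (inferInstance : (maximalIdeal R).IsPrime)) (top_le_iff.1 h1)
  have h2 := ringKrullDim_add_length_eq_ringKrullDim_of_isRegular fs hr
  have hne : Ideal.ofList fs ≠ ⊤ := by
    have h1 : Ideal.ofList fs ≤ maximalIdeal R := Ideal.span_le.2 hm
    intro h
    rw [h] at h1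
    exact (Ideal.IsPrime.ne_top (inferInstance : (maximalIdeal R).IsPrime)) (top_le_iff.1 h1)
  have : Nontrivial (R ⧸ Ideal.ofList fs) := Ideal.Quotient.nontrivial_iff.2 hne
  have : IsLocalRing (R ⧸ Ideal.ofList fs) :=
    IsLocalRing.of_surjective' (Ideal.Quotient.mk _) Ideal.Quotient.mk_surjective
  obtain ⟨k, hk⟩ := LicciCodimFour.exists_ringKrullDim_eq (R ⧸ Ideal.ofList fs)
  refine ⟨k, ?_⟩
  rw [← h2, hk, hlen]
  rfl

theorem isSMulRegular_of_isWeaklyRegular_three {R : Type u} [CommRing R] [IsLocalRing R]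
    [IsNoetherianRing R] {a b c : R} (ha : a ∈ maximalIdeal R) (hb : b ∈ maximalIdeal R)
    (hc : c ∈ maximalIdeal R) (h : IsWeaklyRegular R [a, b, c]) : a ≠ 0 ∧ b ≠ 0 ∧ c ≠ 0 := by
  have key : ∀ a b c : R, a ∈ maximalIdeal R → b ∈ maximalIdeal R → c ∈ maximalIdeal R →
      IsWeaklyRegular R [a, b, c] → a ≠ 0 := by
    intro a b c ha hb hc h h0
    have h1 := ((isWeaklyRegular_cons_iff R a [b, c]).1 h).1
    subst h0
    exact one_ne_zero (h1 (by simp : (0 : R) • (1 : R) = (0 : R) • 0))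
  have hall : ∀ z ∈ [a, b, c], z ∈ maximalIdeal R := by
    intro z hz
    simp only [List.mem_cons, List.not_mem_nil, or_false] at hz
    rcases hz with rfl | rfl | rfl <;> assumption
  refine ⟨key a b c ha hb hc h, key b a c hb ha hc ?_, key c a b hc ha hb ?_⟩
  · exact IsLocalRing.isWeaklyRegular_of_perm_of_subset_maximalIdeal h
      (List.Perm.swap b a [c]) hall
  · refine IsLocalRing.isWeaklyRegular_of_perm_of_subset_maximalIdeal h ?_ hall
    exact (List.perm_append_singleton c [a, b])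

variable {B : Type} [Fintype B] [DecidableEq B]

/-- U8 from U7. -/
theorem unimod_of_split (X : XTab B) (hsplit : SplitStatement.{u} X)
    {R : Type u} [CommRing R] [IsRegularLocalRing R] [Algebra ℚ R]
    {T : Type u} [CommRing T] [Algebra R T] (C : Cov R T)
    (hm : ∀ i, C.f i ∈ maximalIdeal R) (hreg : IsWeaklyRegular R [C.f 0, C.f 1, C.f 2])
    (hT : ∀ x : T, ∃ N : ℕ, ∃ r : R,
      algebraMap R T (C.f 0 * C.f 1 * C.f 2) ^ N * x = algebraMap R T r)
    (D : UData X C) (c : Fin 14 → R)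
    (hc : ∀ b, ∑ l, c l * D.γ l b ∈ maximalIdeal R) (l : Fin 14) :
    c l ∈ maximalIdeal R := by
  have hmem : ∀ f ∈ [C.f 0, C.f 1, C.f 2], f ∈ maximalIdeal R := by
    intro f hf
    simp only [List.mem_cons, List.not_mem_nil, or_false] at hf
    rcases hf with rfl | rfl | rfl <;> exact hm _
  obtain ⟨n, hn⟩ := exists_dim_eq [C.f 0, C.f 1, C.f 2] rfl hmem hreg
  obtain ⟨R', i1, i2, φ, hφ, hdim, hreg'⟩ := LicciCodimFour.exists_slice_dim_three n R
    [C.f 0, C.f 1, C.f 2] hn rfl hmem hreg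
  let : Algebra ℚ R' := (φ.comp (algebraMap ℚ R)).toAlgebra
  have hloc : IsLocalHom φ := hφ.isLocalHom
  have : IsDomain R' := LicciCodimFour.isDomain_of_isRegularLocalRing R'
  have hm' : ∀ i, φ (C.f i) ∈ maximalIdeal R' := fun i => map_nonunit φ _ (hm i)
  have hreg'' : IsWeaklyRegular R' [φ (C.f 0), φ (C.f 1), φ (C.f 2)] := hreg'
  obtain ⟨h0, h1, h2⟩ := isSMulRegular_of_isWeaklyRegular_three (hm' 0) (hm' 1) (hm' 2) hreg''
  set a : R := C.f 0 * C.f 1 * C.f 2 with ha
  have ha' : φ a ≠ 0 := by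
    rw [ha, map_mul, map_mul]
    exact mul_ne_zero (mul_ne_zero h0 h1) h2
  let T' : Type u := Localization.Away (φ a)
  have hpow : Submonoid.powers (φ a) ≤ nonZeroDivisors R' :=
    powers_le_nonZeroDivisors_of_noZeroDivisors ha'
  have hinj : Function.Injective (algebraMap R' T') :=
    IsLocalization.injective T' hpow
  have hunita : IsUnit (algebraMap R' T' (φ a)) := IsLocalization.Away.algebraMap_isUnit (φ a)
  have hunit : ∀ i, IsUnit (algebraMap R' T' (φ (C.f i))) := by
    intro i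
    refine isUnit_of_dvd_unit ?_ hunita
    apply map_dvd
    apply map_dvd
    rw [ha]
    fin_cases i
    · exact ⟨C.f 1 * C.f 2, by simp [mul_assoc]⟩
    · exact ⟨C.f 0 * C.f 2, by simp; ring⟩
    · exact ⟨C.f 0 * C.f 1, by simp; ring⟩
  -- `T` is a localization
  have hTloc : IsLocalization.Away a T := by
    refine ⟨?_, ?_, ?_⟩
    · rintro ⟨_, N, rfl⟩
      rw [map_pow]
      refine IsUnit.pow N ?_
      rw [ha, map_mul, map_mul]
      exact ((C.unit 0).mul (C.unit 1)).mul (C.unit 2)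
    · intro z
      obtain ⟨N, r, h⟩ := hT z
      refine ⟨⟨r, ⟨a ^ N, N, rfl⟩⟩, ?_⟩
      simp only [map_pow]
      rw [mul_comm, ← h]
    · intro x y hxy
      exact ⟨1, by rw [C.inj hxy]⟩
  let ψ : T →+* T' := IsLocalization.Away.lift a (g := (algebraMap R' T').comp φ) hunita
  have hψ : ∀ r, ψ (algebraMap R T r) = algebraMap R' T' (φ r) := fun r =>
    IsLocalization.Away.lift_eq a hunita r
  obtain ⟨y1, y2, hy1, hy2, hy, hfree⟩ := LicciCodimFour.hfree_dim_three R' hdim
  have hT' : ∀ x : T', ∃ N : ℕ, ∃ r : R',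
      algebraMap R' T' ((C.map φ hinj hunit).f 0 * (C.map φ hinj hunit).f 1 *
        (C.map φ hinj hunit).f 2) ^ N * x = algebraMap R' T' r := by
    intro x
    obtain ⟨N, r, h⟩ := IsLocalization.Away.surj (φ a) x
    refine ⟨N, r, ?_⟩
    rw [← h, mul_comm x]
    congr 2
    change algebraMap R' T' (φ (C.f 0) * φ (C.f 1) * φ (C.f 2)) = _
    rw [← map_mul φ, ← map_mul φ]
  have key := hsplit (C.map φ hinj hunit) hm' hreg'' hT' y1 y2 hy hy1 hy2 hfree
    (D.map φ ψ hψ hinj hunit) (fun l => φ (c l)) (by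
      intro b
      have h := map_nonunit φ _ (hc b)
      rw [map_sum] at h
      refine (Eq.subst ?_ h)
      exact Finset.sum_congr rfl fun l _ => map_mul φ _ _) l
  rw [mem_maximalIdeal, mem_nonunits_iff] at key ⊢
  exact fun h => key (h.map φ)

end Pool.Agent.Licci.U
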