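import Pool.Agent.Work.MP_a98e4e_ag.U.Split
import Pool.Agent.Work.MP_a98e4e_ag.U.UnimodOf

/-!
# Block (U), module U8: unimodularity over any regular local ring containing the rationals
-/

namespace Pool.Agent.Licci.U

open Module RingTheory.Sequence IsLocalRing

universe u

variable {B : Type} [Fintype B] [DecidableEq B]

/-- U8: the 14 global vectors are linearly independent modulo the maximal ideal. -/
theorem unimod {R : Type u} [CommRing R] [IsRegularLocalRing R] [Algebra ℚ R]
    {T : Type u} [CommRing T] [Algebra R T] (C : Cov R T)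
    (hm : ∀ i, C.f i ∈ maximalIdeal R) (hreg : IsWeaklyRegular R [C.f 0, C.f 1, C.f 2])
    (hT : ∀ x : T, ∃ N : ℕ, ∃ r : R,
      algebraMap R T (C.f 0 * C.f 1 * C.f 2) ^ N * x = algebraMap R T r)
    (X : XTab B) (hX : XTab.Good.{u} X) (D : UData X C) (c : Fin 14 → R)
    (hc : ∀ b, ∑ l, c l * D.γ l b ∈ maximalIdeal R) (l : Fin 14) :
    c l ∈ maximalIdeal R :=
  unimod_of_split X (fun C hm hreg hT y1 y2 hy hy1 hy2 hfree D c hc l =>
    split C hm hreg hT y1 y2 hy hy1 hy2 hfree X hX D c hc l) C hm hreg hT D c hc l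

end Pool.Agent.Licci.U
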