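import Pool.Agent.Work.MP_a98e4e_ag.L.XT
import Pool.Agent.Work.MP_a98e4e_ag.L.ChkDef

/-!
# Block (U6b): degree `≤ 0` acts faithfully on degree `2` (field `inj` of `XTab.Good`)
-/

namespace Pool.Agent.Licci

open U

universe u

namespace T6b

/-- witness: an index `e` in `1..14` such that `b + e` is a root -/
def wit (b : ℕ) : ℕ :=
  ((List.range 15).find? (fun e => bif Nat.beq e 0 then false else
    Nat.blt (fnd (Nat.add (cd b) (cd e))) 240)).getD 0

/-- the coefficient of `b + e` in `[v, e]` is `± v_b` -/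
def wck (b : ℕ) : Bool :=
  let e := wit b
  let m := fnd (Nat.add (cd b) (cd e))
  Nat.ble 1 e && (Nat.ble e 14 && (Nat.blt m 240 && (List.range 248).all (fun j =>
    bif Nat.beq j b then Nat.beq (cf (sp j e) m).natAbs 1 else isz (cf (sp j e) m))))

/-- the integer is `≤ 0` -/
def lez (n : ℤ) : Bool := match n with
  | Int.ofNat m => Nat.beq m 0
  | Int.negSucc _ => true

theorem lez_of {n : ℤ} (h : n ≤ 0) : lez n = true := by
  cases n with
  | ofNat m => simp at h; simp [lez, h]
  | negSucc m => rfl

set_option maxRecDepth 100000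

theorem wck_all : (List.range 240).all (fun b => bif lez (xdN b) then wck b else true) = true := by
  decide +kernel

theorem deg2 : (List.range 15).all (fun e => bif Nat.beq e 0 then true else
    isz (xdN e - 2)) = true := by decide +kernel

/-- the coefficient of `e` in `[v, e]` sees the Cartan part only -/
theorem cart : (List.range 15).all (fun e => bif Nat.beq e 0 then true else
    (List.range 240).all (fun j => isz (cf (sp j e) e))) = true := by decide +kernel

theorem deg_e {e : ℕ} (h1 : 1 ≤ e) (h2 : e ≤ 14) : xdN e = 2 := by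
  have h := all_range deg2 (i := e) (by omega)
  have h4 : Nat.beq e 0 = false := by
    rw [Bool.eq_false_iff]
    intro h
    rw [Nat.beq_eq] at h
    omega
  rw [h4, cond_false, isz_iff] at h
  omega

theorem br_single_right (A : Type u) [CommRing A] (v : E8 A) (e m : Fin 248) :
    xtab.br A v (Pi.single e 1) m = ∑ i : Fin 248, (scN i e m : A) * v i := by
  rw [bil_apply]
  refine Finset.sum_congr rfl fun i _ => ?_
  rw [Finset.sum_eq_single e]
  · rw [Pi.single_eq_same, mul_one]
    rfl
  · intro j _ hj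
    rw [Pi.single_eq_of_ne hj, mul_zero, mul_zero]
  · intro h
    exact absurd (Finset.mem_univ e) h

theorem sup_single (A : Type u) [CommRing A] (e : Fin 248) (h1 : 1 ≤ (e : ℕ))
    (h2 : (e : ℕ) ≤ 14) : Sup xtab.deg 2 (Pi.single e 1 : E8 A) := by
  intro b hb
  rw [Pi.single_eq_of_ne]
  rintro rfl
  exact hb (deg_e h1 h2)

theorem cart_eq (A : Type u) [CommRing A] (v : E8 A) (e : Fin 248) (h1 : 1 ≤ (e : ℕ))
    (h2 : (e : ℕ) ≤ 14) (h : xtab.br A v (Pi.single e 1) = 0) :
    ∑ q : Fin 8, ((prN e q : ℤ) : A) * v ⟨240 + q, by omega⟩ = 0 := by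
  have h3 := congrFun h e
  rw [br_single_right, Pi.zero_apply] at h3
  have h5 : Nat.beq (e : ℕ) 0 = false := by
    rw [Bool.eq_false_iff]
    intro h
    rw [Nat.beq_eq] at h
    omega
  have h4 := all_range cart (i := (e : ℕ)) (by omega)
  rw [h5, cond_false] at h4
  have h6 : ∀ i : Fin (240 + 8), ((scN i e e : ℤ) : A) * v i =
      Fin.addCases (motive := fun _ => A) (fun _ => 0)
        (fun q : Fin 8 => ((prN e q : ℤ) : A) * v ⟨240 + q, by omega⟩) i := by
    intro i
    refine Fin.addCases (fun j => ?_) (fun q => ?_) i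
    · rw [Fin.addCases_left]
      have h7 := all_range h4 (i := (j : ℕ)) j.2
      rw [isz_iff] at h7
      have h8 : scN ((Fin.castAdd 8 j : Fin (240 + 8)) : ℕ) e e = 0 := h7
      rw [h8, Int.cast_zero, zero_mul]
    · rw [Fin.addCases_right]
      have h8 : scN ((Fin.natAdd 240 q : Fin (240 + 8)) : ℕ) e e = prN e q := by
        rw [Fin.val_natAdd]
        unfold scN sp
        have h9 : Nat.blt (240 + (q : ℕ)) 240 = false := by
          rw [Bool.eq_false_iff]
          intro h
          rw [Nat.blt_eq] at h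
          omega
        have h10 : Nat.blt (e : ℕ) 240 = true := by
          rw [Nat.blt_eq]
          omega
        rw [h9, h10, cond_false, cond_true, cf_cons, cf_nil, if_pos rfl, add_zero,
          Nat.add_sub_cancel_left]
      rw [h8]
      rfl
  have h7 : ∑ i : Fin (240 + 8), ((scN i e e : ℤ) : A) * v i = 0 := h3
  rw [Finset.sum_congr rfl fun i _ => h6 i, Fin.sum_univ_add] at h7
  simpa using h7

/-- the values `prN e q`, `e = 1..8` -/
def tb : List (List ℤ) :=
  [[], [-1, 1, 0, 0, 0, 0, 0, 0], [0, -1, 1, 0, 0, 0, 0, 0], [0, 0, -1, 1, 0, 0, 0, 0],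
    [0, 0, 0, -1, 1, 0, 0, 0], [0, 0, 0, 0, -1, 1, 0, 1], [0, 0, 0, 0, 0, -1, 1, 1],
    [0, 0, 0, 0, 0, 0, -1, 1], [0, -1, 0, 0, 0, 0, 0, 1]]

theorem tb_chk : (List.range 9).all (fun e => bif Nat.beq e 0 then true else
    (List.range 8).all (fun q => isz (prN e q - (tb.getD e []).getD q 0))) = true := by
  decide +kernel

theorem cart_zero (A : Type u) [CommRing A] [Algebra ℚ A] (w : Fin 8 → A)
    (h : ∀ e : Fin 248, 1 ≤ (e : ℕ) → (e : ℕ) ≤ 8 → ∑ q : Fin 8, ((prN e q : ℤ) : A) * w q = 0) :
    ∀ q, w q = 0 := by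
  have h' : ∀ e : ℕ, 1 ≤ e → e ≤ 8 →
      ∑ q : Fin 8, (((tb.getD e []).getD q 0 : ℤ) : A) * w q = 0 := by
    intro e h1 h2
    rw [← h ⟨e, by omega⟩ h1 h2]
    refine Finset.sum_congr rfl fun q _ => ?_
    have h3 := all_range tb_chk (i := e) (by omega)
    have h4 : Nat.beq e 0 = false := by
      rw [Bool.eq_false_iff]
      intro h
      rw [Nat.beq_eq] at h
      omega
    rw [h4, cond_false] at h3
    have h5 := all_range h3 (i := (q : ℕ)) q.2
    rw [isz_iff, sub_eq_zero] at h5
    rw [← h5]
  have e1 := h' 1 (by omega) (by omega)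
  have e2 := h' 2 (by omega) (by omega)
  have e3 := h' 3 (by omega) (by omega)
  have e4 := h' 4 (by omega) (by omega)
  have e5 := h' 5 (by omega) (by omega)
  have e6 := h' 6 (by omega) (by omega)
  have e7 := h' 7 (by omega) (by omega)
  have e8 := h' 8 (by omega) (by omega)
  simp only [Fin.sum_univ_eight, tb] at e1 e2 e3 e4 e5 e6 e7 e8
  norm_num at e1 e2 e3 e4 e5 e6 e7 e8
  have h2 : (2 : A) * w 7 = 0 := by
    linear_combination e5 + e4 + e3 + e2 + e6 + e7 - e8
  have h3 : algebraMap ℚ A (1 / 2) * 2 = 1 := by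
    rw [← map_ofNat (algebraMap ℚ A) 2, ← map_mul]
    norm_num
  have w7 : w 7 = 0 := by
    linear_combination (algebraMap ℚ A (1 / 2)) * h2 - h3 * w 7
  have w6 : w 6 = 0 := by linear_combination w7 - e7
  have w5 : w 5 = 0 := by linear_combination w6 + w7 - e6
  have w4 : w 4 = 0 := by linear_combination w5 + w7 - e5
  have w3 : w 3 = 0 := by linear_combination w4 - e4
  have w2 : w 2 = 0 := by linear_combination w3 - e3
  have w1 : w 1 = 0 := by linear_combination w2 - e2
  have w0 : w 0 = 0 := by linear_combination w1 - e1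
  intro q
  fin_cases q
  · exact w0
  · exact w1
  · exact w2
  · exact w3
  · exact w4
  · exact w5
  · exact w6
  · exact w7

end T6b

open T6b in
theorem xtab_inj (A : Type u) [CommRing A] [Algebra ℚ A] (k : ℤ) (v : Fin 248 → A) (hk : k ≤ 0)
    (hv : Sup xtab.deg k v) (h : ∀ e : Fin 248 → A, Sup xtab.deg 2 e → xtab.br A v e = 0) :
    v = 0 := by
  have hE : ∀ e : Fin 248, 1 ≤ (e : ℕ) → (e : ℕ) ≤ 14 →
      ∑ q : Fin 8, ((prN e q : ℤ) : A) * v ⟨240 + q, by omega⟩ = 0 :=
    fun e h1 h2 => cart_eq A v e h1 h2 (h _ (sup_single A e h1 h2))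
  have hC : ∀ q : Fin 8, v ⟨240 + q, by omega⟩ = 0 :=
    cart_zero A (fun q => v ⟨240 + q, by omega⟩) fun e h1 h2 => hE e h1 (by omega)
  funext b
  rw [Pi.zero_apply]
  by_cases hb : xtab.deg b = k
  · by_cases hb' : (b : ℕ) < 240
    · have h1 := all_range wck_all hb'
      have h2 : lez (xdN b) = true := lez_of (by rw [← hb] at hk; exact hk)
      rw [h2, cond_true] at h1
      unfold wck at h1
      simp only [Bool.and_eq_true, Nat.ble_eq, Nat.blt_eq] at h1
      obtain ⟨h3, h4, h5, h6⟩ := h1
      generalize wit b = e at h3 h4 h5 h6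
      generalize fnd (Nat.add (cd b) (cd e)) = m at h5 h6
      have h7 := congrFun (h _ (sup_single A ⟨e, by omega⟩ h3 h4)) ⟨m, by omega⟩
      rw [br_single_right, Pi.zero_apply, Finset.sum_eq_single b] at h7
      · have h8 := all_range h6 (i := (b : ℕ)) (by omega)
        rw [show Nat.beq (b : ℕ) b = true from by simp, cond_true, Nat.beq_eq] at h8
        have h9 : scN b e m = 1 ∨ scN b e m = -1 := by
          unfold scN
          omega
        rcases h9 with h9 | h9
        · simpa [h9] using h7
        · simpa [h9] using h7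
      · intro j _ hj
        have h8 := all_range h6 (i := (j : ℕ)) (by omega)
        have h10 : Nat.beq (j : ℕ) b = false := by
          rw [Bool.eq_false_iff]
          intro h
          rw [Nat.beq_eq] at h
          exact hj (Fin.ext h)
        rw [h10, cond_false, isz_iff] at h8
        have h11 : scN j e m = 0 := h8
        simp [h11]
      · intro h
        exact absurd (Finset.mem_univ b) h
    · have := hC ⟨b - 240, by omega⟩
      convert this using 2
      ext
      simp
      omega
  · exact hv b hb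

end Pool.Agent.Licci
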