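import Pool.Agent.Work.MP_a98e4e_ag.U.Tab6cK

/-!
# Block (U6c): the Clifford relations of the table
-/

namespace Pool.Agent.Licci

open U

universe u

namespace T6c

theorem cf_map_mul (c : ℤ) (L : List (ℕ × ℤ)) (m : ℕ) :
    cf (L.map (fun q => (q.1, c * q.2))) m = c * cf L m := by
  induction L with
  | nil => simp [cf_nil]
  | cons p L ih =>
    rw [List.map_cons, cf_cons, cf_cons, ih]
    split_ifs <;> ring

theorem cf_lm (g : ℕ) (L : List (ℕ × ℤ)) (hL : ∀ p ∈ L, p.1 < 248) (m : ℕ) :
    cf (lm g L) m = ∑ l : Fin 248, cf L l * scN g l m := by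
  induction L with
  | nil => simp [lm, cf_nil]
  | cons p L ih =>
    have h1 : lm g (p :: L) = (sp g p.1).map (fun q => (q.1, p.2 * q.2)) ++ lm g L := rfl
    rw [h1, cf_append, cf_map_mul, ih (fun q hq => hL q (List.mem_cons_of_mem _ hq))]
    have hp := hL p List.mem_cons_self
    have h2 : ∀ l : Fin 248, cf (p :: L) l * scN g l m =
        (if (⟨p.1, hp⟩ : Fin 248) = l then p.2 * scN g l m else 0) + cf L l * scN g l m := by
      intro l
      rw [cf_cons, add_mul]
      congr 1
      by_cases h : p.1 = (l : ℕ)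
      · rw [if_pos h, if_pos (Fin.ext h)]
      · rw [if_neg h, if_neg (fun h' => h (congrArg Fin.val h')), zero_mul]
    rw [Finset.sum_congr rfl fun l _ => h2 l, Finset.sum_add_distrib, Finset.sum_ite_eq,
      if_pos (Finset.mem_univ _)]
    rfl

theorem cf_lm_sp (A : Type u) [CommRing A] (g : ℕ) {i j : ℕ} (hi : i < 248) (hj : j < 248)
    (m : ℕ) : ((cf (lm g (sp i j)) m : ℤ) : A) =
      ∑ l : Fin 248, (scN g l m : A) * (scN i j l : A) := by
  rw [cf_lm g _ (fun p hp => sp_rng hi hj hp)]
  push_cast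
  refine Finset.sum_congr rfl fun l _ => ?_
  rw [mul_comm]
  rfl

/-- `bil` on a basis vector -/
theorem bil_single (c : Fin 248 → Fin 248 → Fin 248 → ℤ) (A : Type u) [CommRing A] (i : Fin 248)
    (y : Fin 248 → A) (m : Fin 248) :
    bil c A (Pi.single i 1) y m = ∑ l, (c i l m : A) * y l := by
  rw [bil_apply, Finset.sum_eq_single i]
  · simp
  · intro b _ hb
    simp [hb]
  · simp

theorem bil_single_single (c : Fin 248 → Fin 248 → Fin 248 → ℤ) (A : Type u) [CommRing A]
    (i j : Fin 248) (m : Fin 248) :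
    bil c A (Pi.single i 1) (Pi.single j 1) m = (c i j m : A) := by
  rw [bil_single, Finset.sum_eq_single j]
  · simp
  · intro b _ hb
    simp [hb]
  · simp

theorem qf_single (q : Fin 248 → Fin 248 → ℤ) (A : Type u) [CommRing A] (i j : Fin 248) :
    qf q (Pi.single i 1 : Fin 248 → A) (Pi.single j 1) = (q i j : A) := by
  unfold qf
  rw [Finset.sum_eq_single i, Finset.sum_eq_single j]
  · simp
  · intro b _ hb
    simp [hb]
  · simp
  · intro b _ hb
    simp [hb]
  · simp

/-- the form as a bilinear map -/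
def qL (q : Fin 248 → Fin 248 → ℤ) (A : Type u) [CommRing A] :
    (Fin 248 → A) →ₗ[A] (Fin 248 → A) →ₗ[A] A :=
  LinearMap.mk₂ A (fun x y => qf q x y)
    (by intro x x' y; simp only [qf, Pi.add_apply, ← Finset.sum_add_distrib]
        refine Finset.sum_congr rfl fun i _ => Finset.sum_congr rfl fun j _ => ?_; ring)
    (by intro a x y; simp only [qf, Pi.smul_apply, smul_eq_mul, Finset.mul_sum]
        refine Finset.sum_congr rfl fun i _ => Finset.sum_congr rfl fun j _ => ?_; ring)
    (by intro x y y'; simp only [qf, Pi.add_apply, ← Finset.sum_add_distrib]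
        refine Finset.sum_congr rfl fun i _ => Finset.sum_congr rfl fun j _ => ?_; ring)
    (by intro a x y; simp only [qf, Pi.smul_apply, smul_eq_mul, Finset.mul_sum]
        refine Finset.sum_congr rfl fun i _ => Finset.sum_congr rfl fun j _ => ?_; ring)

theorem qL_apply (q : Fin 248 → Fin 248 → ℤ) (A : Type u) [CommRing A] (x y : Fin 248 → A) :
    qL q A x y = qf q x y := rfl

/-- a linear map which kills the basis vectors of degree `k` kills degree `k` -/
theorem lin_zero {deg : Fin 248 → ℤ} {k : ℤ} {A : Type u} [CommRing A] {M : Type*}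
    [AddCommGroup M] [Module A M] (f : (Fin 248 → A) →ₗ[A] M)
    (h : ∀ b, deg b = k → f (Pi.single b 1) = 0) {x : Fin 248 → A} (hx : Sup deg k x) :
    f x = 0 := by
  have hdec : x = ∑ b : Fin 248, x b • (Pi.single b 1 : Fin 248 → A) := by
    funext b'
    simp [Finset.sum_apply, Pi.single_apply]
  rw [hdec, map_sum]
  refine Finset.sum_eq_zero fun b _ => ?_
  rw [map_smul]
  by_cases hb : deg b = k
  · rw [h b hb, smul_zero]
  · rw [hx b hb, zero_smul]

theorem tri_zero {deg : Fin 248 → ℤ} {k1 k2 k3 : ℤ} {A : Type u} [CommRing A] {M : Type*}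
    [AddCommGroup M] [Module A M]
    (f : (Fin 248 → A) →ₗ[A] (Fin 248 → A) →ₗ[A] (Fin 248 → A) →ₗ[A] M)
    (h : ∀ a b c, deg a = k1 → deg b = k2 → deg c = k3 →
      f (Pi.single a 1) (Pi.single b 1) (Pi.single c 1) = 0)
    {x y z : Fin 248 → A} (hx : Sup deg k1 x) (hy : Sup deg k2 y) (hz : Sup deg k3 z) :
    f x y z = 0 := by
  have h1 : ∀ a b, deg a = k1 → deg b = k2 → f (Pi.single a 1) (Pi.single b 1) z = 0 :=
    fun a b ha hb => lin_zero (f (Pi.single a 1) (Pi.single b 1)) (fun c hc => h a b c ha hb hc) hz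
  have h2 : ∀ a, deg a = k1 → f (Pi.single a 1) y z = 0 := fun a ha =>
    lin_zero ((LinearMap.applyₗ z) ∘ₗ f (Pi.single a 1)) (fun b hb => h1 a b ha hb) hy
  exact lin_zero ((LinearMap.applyₗ z) ∘ₗ (LinearMap.applyₗ y) ∘ₗ f) (fun a ha => h2 a ha) hx

/-- composition of two bilinear maps, symmetrised, minus the form -/
noncomputable def F (c c' : Fin 248 → Fin 248 → Fin 248 → ℤ) (q : Fin 248 → Fin 248 → ℤ)
    (A : Type u) [CommRing A] :
    (Fin 248 → A) →ₗ[A] (Fin 248 → A) →ₗ[A] (Fin 248 → A) →ₗ[A] (Fin 248 → A) :=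
  LinearMap.mk₂ A (fun x y => bil c A x ∘ₗ bil c' A y + bil c A y ∘ₗ bil c' A x -
      (2 * qL q A x y) • LinearMap.id)
    (by intro x x' y; refine LinearMap.ext fun z => ?_
        simp only [map_add, LinearMap.add_apply, LinearMap.sub_apply,
          LinearMap.comp_apply, LinearMap.smul_apply, LinearMap.id_apply, mul_add, add_smul]; abel)
    (by intro a x y; refine LinearMap.ext fun z => ?_
        simp only [map_smul, LinearMap.smul_apply, LinearMap.sub_apply, LinearMap.add_apply,
          LinearMap.comp_apply, LinearMap.id_apply, smul_eq_mul, smul_sub, smul_add, smul_smul]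
        congr 2
        ring)
    (by intro x y y'; refine LinearMap.ext fun z => ?_
        simp only [map_add, LinearMap.add_apply, LinearMap.sub_apply,
          LinearMap.comp_apply, LinearMap.smul_apply, LinearMap.id_apply, mul_add, add_smul]; abel)
    (by intro a x y; refine LinearMap.ext fun z => ?_
        simp only [map_smul, LinearMap.smul_apply, LinearMap.sub_apply, LinearMap.add_apply,
          LinearMap.comp_apply, LinearMap.id_apply, smul_eq_mul, smul_sub, smul_add, smul_smul]
        congr 2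
        ring)

theorem F_apply (c c' : Fin 248 → Fin 248 → Fin 248 → ℤ) (q : Fin 248 → Fin 248 → ℤ)
    (A : Type u) [CommRing A] (x y z : Fin 248 → A) :
    F c c' q A x y z = bil c A x (bil c' A y z) + bil c A y (bil c' A x z) -
      (2 * qf q x y) • z := by
  rw [F, LinearMap.mk₂_apply, LinearMap.sub_apply, LinearMap.add_apply, LinearMap.comp_apply,
    LinearMap.comp_apply, LinearMap.smul_apply, LinearMap.id_apply, qL_apply]

theorem F_swap (c c' : Fin 248 → Fin 248 → Fin 248 → ℤ) (q : Fin 248 → Fin 248 → ℤ)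
    (hq : ∀ i j, q i j = q j i) (A : Type u) [CommRing A] (i j : Fin 248) (z : Fin 248 → A) :
    F c c' q A (Pi.single i 1) (Pi.single j 1) z = F c c' q A (Pi.single j 1) (Pi.single i 1) z := by
  rw [F_apply, F_apply, qf_single, qf_single, hq i j, add_comm (bil c A (Pi.single i 1) _)]

theorem F_single (c c' : Fin 248 → Fin 248 → Fin 248 → ℤ) (q : Fin 248 → Fin 248 → ℤ)
    (A : Type u) [CommRing A] (i j k m : Fin 248) :
    F c c' q A (Pi.single i 1) (Pi.single j 1) (Pi.single k 1) m =
      ∑ l, (c i l m : A) * (c' j k l : A) + ∑ l, (c j l m : A) * (c' i k l : A) -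
        2 * (q i j : A) * (if m = k then 1 else 0) := by
  rw [F_apply, Pi.sub_apply, Pi.add_apply, bil_single, bil_single, qf_single, Pi.smul_apply,
    smul_eq_mul, Pi.single_apply]
  simp only [bil_single_single]

theorem cf_co (i j k m : ℕ) : cf (co i j k) m = if j = i + 7 ∧ m = k then 1 else 0 := by
  unfold co
  by_cases h : j = i + 7
  · have h1 : Nat.beq j (Nat.add i 7) = true := by
      rw [Nat.beq_eq]
      exact h
    rw [h1, cond_true, cf_cons, cf_nil, add_zero]
    by_cases h2 : k = m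
    · subst h2
      simp [h]
    · rw [if_neg h2, if_neg (fun h3 => h2 h3.2.symm)]
  · have h1 : Nat.beq j (Nat.add i 7) = false := by
      rw [Bool.eq_false_iff]
      intro h2
      rw [Nat.beq_eq] at h2
      exact h h2
    rw [h1, cond_false, cf_nil, if_neg (fun h3 => h h3.1)]

theorem flN_lt {i : ℕ} (h : i ≤ 14) : flN i < 248 := by
  unfold flN
  split_ifs <;> omega

theorem q_symm (i j : Fin 248) : xtab.q i j = xtab.q j i := by
  simp only [xtab]
  congr 1
  rw [or_comm]

theorem q_val {i j : Fin 248} (hi : 1 ≤ (i : ℕ)) (hij : i ≤ j) (hj : (j : ℕ) ≤ 14) :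
    xtab.q i j = if (j : ℕ) = i + 7 then -1 else 0 := by
  have hij' : (i : ℕ) ≤ j := hij
  simp only [xtab]
  by_cases h : (j : ℕ) = i + 7
  · rw [if_pos h, if_pos]
    left
    omega
  · rw [if_neg h, if_neg]
    rintro (h1 | h1) <;> omega

theorem cl_val {i : Fin 248} (hi : 1 ≤ (i : ℕ)) (hi' : (i : ℕ) ≤ 14) (j k : Fin 248) :
    xtab.cl i j k = 2 * scN (flN i) j k := by
  simp only [xtab]
  rw [if_pos ⟨hi, hi'⟩]

theorem F1_basis (A : Type u) [CommRing A] {i j k : Fin 248} (hi : xtab.deg i = 2)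
    (hj : xtab.deg j = 2) (hk : xtab.deg k = 1) (hij : i ≤ j) :
    F xtab.c xtab.cl xtab.q A (Pi.single i 1) (Pi.single j 1) (Pi.single k 1) = 0 := by
  obtain ⟨i1, i2⟩ := deg_two i.2 hi
  obtain ⟨j1, j2⟩ := deg_two j.2 hj
  funext m
  rw [F_single, q_val i1 hij j2, Pi.zero_apply]
  have h1 := zr_spec (cl1 i1 hij j2 k.2 hk) m
  rw [cf_append, cf_append, cf_co] at h1
  have h2 := congrArg (Int.cast (R := A)) h1
  rw [Int.cast_add, Int.cast_add, cf_lm_sp A _ (flN_lt j2) k.2, cf_lm_sp A _ (flN_lt i2) k.2,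
    Int.cast_zero] at h2
  have h3 : ∑ l, (xtab.c i l m : A) * (xtab.cl j k l : A) =
      2 * ∑ l : Fin 248, (scN i l m : A) * (scN (flN j) k l : A) := by
    rw [Finset.mul_sum]
    refine Finset.sum_congr rfl fun l _ => ?_
    rw [cl_val j1 j2]
    push_cast
    change (scN i l m : A) * _ = _
    ring
  have h4 : ∑ l, (xtab.c j l m : A) * (xtab.cl i k l : A) =
      2 * ∑ l : Fin 248, (scN j l m : A) * (scN (flN i) k l : A) := by
    rw [Finset.mul_sum]
    refine Finset.sum_congr rfl fun l _ => ?_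
    rw [cl_val i1 i2]
    push_cast
    change (scN j l m : A) * _ = _
    ring
  rw [h3, h4]
  by_cases h5 : (j : ℕ) = i + 7
  · by_cases h6 : m = k
    · rw [if_pos ⟨h5, congrArg Fin.val h6⟩] at h2
      rw [if_pos h5, if_pos h6]
      push_cast at h2 ⊢
      linear_combination 2 * h2
    · rw [if_neg (fun h7 => h6 (Fin.ext h7.2))] at h2
      rw [if_neg h6]
      push_cast at h2 ⊢
      linear_combination 2 * h2
  · rw [if_neg (fun h7 => h5 h7.1)] at h2
    rw [if_neg h5]
    push_cast at h2 ⊢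
    linear_combination 2 * h2

theorem F2_basis (A : Type u) [CommRing A] {i j k : Fin 248} (hi : xtab.deg i = 2)
    (hj : xtab.deg j = 2) (hk : xtab.deg k = -1) (hij : i ≤ j) :
    F xtab.cl xtab.c xtab.q A (Pi.single i 1) (Pi.single j 1) (Pi.single k 1) = 0 := by
  obtain ⟨i1, i2⟩ := deg_two i.2 hi
  obtain ⟨j1, j2⟩ := deg_two j.2 hj
  funext m
  rw [F_single, q_val i1 hij j2, Pi.zero_apply]
  have h1 := zr_spec (cl2 i1 hij j2 k.2 hk) m
  rw [cf_append, cf_append, cf_co] at h1
  have h2 := congrArg (Int.cast (R := A)) h1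
  rw [Int.cast_add, Int.cast_add, cf_lm_sp A _ j.2 k.2, cf_lm_sp A _ i.2 k.2,
    Int.cast_zero] at h2
  have h3 : ∑ l, (xtab.cl i l m : A) * (xtab.c j k l : A) =
      2 * ∑ l : Fin 248, (scN (flN i) l m : A) * (scN j k l : A) := by
    rw [Finset.mul_sum]
    refine Finset.sum_congr rfl fun l _ => ?_
    rw [cl_val i1 i2]
    push_cast
    change _ * (scN j k l : A) = _
    ring
  have h4 : ∑ l, (xtab.cl j l m : A) * (xtab.c i k l : A) =
      2 * ∑ l : Fin 248, (scN (flN j) l m : A) * (scN i k l : A) := by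
    rw [Finset.mul_sum]
    refine Finset.sum_congr rfl fun l _ => ?_
    rw [cl_val j1 j2]
    push_cast
    change _ * (scN i k l : A) = _
    ring
  rw [h3, h4]
  by_cases h5 : (j : ℕ) = i + 7
  · by_cases h6 : m = k
    · rw [if_pos ⟨h5, congrArg Fin.val h6⟩] at h2
      rw [if_pos h5, if_pos h6]
      push_cast at h2 ⊢
      linear_combination 2 * h2
    · rw [if_neg (fun h7 => h6 (Fin.ext h7.2))] at h2
      rw [if_neg h6]
      push_cast at h2 ⊢
      linear_combination 2 * h2
  · rw [if_neg (fun h7 => h5 h7.1)] at h2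
    rw [if_neg h5]
    push_cast at h2 ⊢
    linear_combination 2 * h2

end T6c

open T6c

theorem xtab_cl_sup (A : Type u) [CommRing A] (e v : Fin 248 → A) (he : Sup xtab.deg 2 e)
    (hv : Sup xtab.deg 1 v) : Sup xtab.deg (-1) (bil xtab.cl A e v) := by
  intro m hm
  rw [bil_apply]
  refine Finset.sum_eq_zero fun i _ => Finset.sum_eq_zero fun j _ => ?_
  by_cases hi : xtab.deg i = 2
  · by_cases hj : xtab.deg j = 1
    · obtain ⟨i1, i2⟩ := deg_two i.2 hi
      rw [cl_val i1 i2]
      by_cases h : scN (flN i) j m = 0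
      · rw [h]
        simp
      · exact absurd (deg_neg_one i1 i2 j.2 hj h) hm
    · rw [hv j hj, mul_zero, mul_zero]
  · rw [he i hi, zero_mul, mul_zero]

theorem xtab_cliff1 (A : Type u) [CommRing A] (e e' v : Fin 248 → A) (he : Sup xtab.deg 2 e)
    (he' : Sup xtab.deg 2 e') (hv : Sup xtab.deg 1 v) :
    xtab.br A e (bil xtab.cl A e' v) + xtab.br A e' (bil xtab.cl A e v) =
      (2 * qf xtab.q e e') • v := by
  have h := tri_zero (F xtab.c xtab.cl xtab.q A) (fun i j k hi hj hk => by
    rcases le_total i j with hij | hij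
    · exact F1_basis A hi hj hk hij
    · rw [F_swap _ _ _ q_symm]
      exact F1_basis A hj hi hk hij) he he' hv
  rw [F_apply, sub_eq_zero] at h
  exact h

theorem xtab_cliff2 (A : Type u) [CommRing A] (e e' v : Fin 248 → A) (he : Sup xtab.deg 2 e)
    (he' : Sup xtab.deg 2 e') (hv : Sup xtab.deg (-1) v) :
    bil xtab.cl A e (xtab.br A e' v) + bil xtab.cl A e' (xtab.br A e v) =
      (2 * qf xtab.q e e') • v := by
  have h := tri_zero (F xtab.cl xtab.c xtab.q A) (fun i j k hi hj hk => by
    rcases le_total i j with hij | hij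
    · exact F2_basis A hi hj hk hij
    · rw [F_swap _ _ _ q_symm]
      exact F2_basis A hj hi hk hij) he he' hv
  rw [F_apply, sub_eq_zero] at h
  exact h

end Pool.Agent.Licci
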