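import Pool.Agent.Work.MP_a98e4e_ag.U.Tab6a
import Pool.Agent.Work.MP_a98e4e_ag.U.Tab6b
import Pool.Agent.Work.MP_a98e4e_ag.U.Tab6c
import Pool.Agent.Work.MP_a98e4e_ag.L.Gen

/-!
# Block (U6): the table of `e_8` satisfies all the hypotheses of block (U)
-/

namespace Pool.Agent.Licci

universe u

theorem xtab_good : U.XTab.Good.{u} xtab where
  deg_ge := xtab_deg_ge
  deg_le := xtab_deg_le
  skew := fun _ _ x y => br_skew x y
  jac := fun _ _ x y z => jacobi x y z
  br_sup := xtab_br_sup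
  br_h := xtab_br_h
  inj := xtab_inj
  cl_sup := xtab_cl_sup
  cliff1 := xtab_cliff1
  cliff2 := xtab_cliff2
  card1 := xtab_card1
  card2 := xtab_card2

end Pool.Agent.Licci
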