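import Pool.Agent.Work.MP_a98e4e_ag.L.XT
import Pool.Agent.Work.MP_a98e4e_ag.L.ChkDef

/-!
# Block (U6a): degrees of the table `xtab`, gradedness, Euler element, cardinalities
-/

namespace Pool.Agent.Licci

open Module

universe u

/-- base 16 -/
def ev (a0 a1 a2 a3 a4 a5 a6 a7 : ℕ) : ℕ := a0 + 16 * (a1 + 16 * (a2 + 16 * (a3 + 16 * (a4 + 16 * (a5 + 16 * (a6 + 16 * a7))))))
theorem digits_add (a0 a1 a2 a3 a4 a5 a6 a7 b0 b1 b2 b3 b4 b5 b6 b7 c0 c1 c2 c3 c4 c5 c6 c7 : ℕ)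
   (ha : a0 ≤ 7 ∧ a1 ≤ 7 ∧ a2 ≤ 7 ∧ a3 ≤ 7 ∧ a4 ≤ 7 ∧ a5 ≤ 7 ∧ a6 ≤ 7 ∧ a7 ≤ 7)
   (hb : b0 ≤ 7 ∧ b1 ≤ 7 ∧ b2 ≤ 7 ∧ b3 ≤ 7 ∧ b4 ≤ 7 ∧ b5 ≤ 7 ∧ b6 ≤ 7 ∧ b7 ≤ 7)
   (hc : c0 ≤ 7 ∧ c1 ≤ 7 ∧ c2 ≤ 7 ∧ c3 ≤ 7 ∧ c4 ≤ 7 ∧ c5 ≤ 7 ∧ c6 ≤ 7 ∧ c7 ≤ 7)
   (h : ev a0 a1 a2 a3 a4 a5 a6 a7 + ev b0 b1 b2 b3 b4 b5 b6 b7 = ev c0 c1 c2 c3 c4 c5 c6 c7 + ev 2 2 2 2 2 2 2 2) :
   a0 + b0 = c0 + 2 ∧ a1 + b1 = c1 + 2 ∧ a2 + b2 = c2 + 2 ∧ a3 + b3 = c3 + 2 ∧ a4 + b4 = c4 + 2 ∧ a5 + b5 = c5 + 2 ∧ a6 + b6 = c6 + 2 ∧ a7 + b7 = c7 + 2 := by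
  obtain ⟨x0, x1, x2, x3, x4, x5, x6, x7⟩ := ha
  obtain ⟨y0, y1, y2, y3, y4, y5, y6, y7⟩ := hb
  obtain ⟨z0, z1, z2, z3, z4, z5, z6, z7⟩ := hc
  unfold ev at h
  have e0 : a0 + b0 = c0 + 2 := by omega
  have h1 : (a1 + 16 * (a2 + 16 * (a3 + 16 * (a4 + 16 * (a5 + 16 * (a6 + 16 * a7)))))) +
     (b1 + 16 * (b2 + 16 * (b3 + 16 * (b4 + 16 * (b5 + 16 * (b6 + 16 * b7)))))) =
     (c1 + 16 * (c2 + 16 * (c3 + 16 * (c4 + 16 * (c5 + 16 * (c6 + 16 * c7)))))) +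
     (2 + 16 * (2 + 16 * (2 + 16 * (2 + 16 * (2 + 16 * (2 + 16 * 2)))))) := by omega
  clear h
  have e1 : a1 + b1 = c1 + 2 := by omega
  have h2 : (a2 + 16 * (a3 + 16 * (a4 + 16 * (a5 + 16 * (a6 + 16 * a7))))) +
     (b2 + 16 * (b3 + 16 * (b4 + 16 * (b5 + 16 * (b6 + 16 * b7))))) =
     (c2 + 16 * (c3 + 16 * (c4 + 16 * (c5 + 16 * (c6 + 16 * c7))))) +
     (2 + 16 * (2 + 16 * (2 + 16 * (2 + 16 * (2 + 16 * 2))))) := by omega
  clear h1
  have e2 : a2 + b2 = c2 + 2 := by omega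
  have h3 : (a3 + 16 * (a4 + 16 * (a5 + 16 * (a6 + 16 * a7)))) +
     (b3 + 16 * (b4 + 16 * (b5 + 16 * (b6 + 16 * b7)))) =
     (c3 + 16 * (c4 + 16 * (c5 + 16 * (c6 + 16 * c7)))) +
     (2 + 16 * (2 + 16 * (2 + 16 * (2 + 16 * 2)))) := by omega
  clear h2
  have e3 : a3 + b3 = c3 + 2 := by omega
  have h4 : (a4 + 16 * (a5 + 16 * (a6 + 16 * a7))) + (b4 + 16 * (b5 + 16 * (b6 + 16 * b7))) =
     (c4 + 16 * (c5 + 16 * (c6 + 16 * c7))) + (2 + 16 * (2 + 16 * (2 + 16 * 2))) := by omega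
  clear h3
  have e4 : a4 + b4 = c4 + 2 := by omega
  have h5 : (a5 + 16 * (a6 + 16 * a7)) + (b5 + 16 * (b6 + 16 * b7)) =
     (c5 + 16 * (c6 + 16 * c7)) + (2 + 16 * (2 + 16 * 2)) := by omega
  clear h4
  have e5 : a5 + b5 = c5 + 2 := by omega
  have h6 : (a6 + 16 * a7) + (b6 + 16 * b7) = (c6 + 16 * c7) + (2 + 16 * 2) := by omega
  clear h5
  have e6 : a6 + b6 = c6 + 2 := by omega
  have e7 : a7 + b7 = c7 + 2 := by omega
  exact ⟨e0, e1, e2, e3, e4, e5, e6, e7⟩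

/-- bounds for degree and digits, digit expansion, `z`-degree exact -/
def xdC (i : ℕ) : Bool :=
  decide (-2 ≤ xdN i) && decide (xdN i ≤ 2) &&
  Nat.ble (dg i 0) 7 && Nat.ble (dg i 1) 7 && Nat.ble (dg i 2) 7 && Nat.ble (dg i 3) 7 &&
  Nat.ble (dg i 4) 7 && Nat.ble (dg i 5) 7 && Nat.ble (dg i 6) 7 && Nat.ble (dg i 7) 7 &&
  Nat.beq (cd i) (ev (dg i 0) (dg i 1) (dg i 2) (dg i 3) (dg i 4) (dg i 5) (dg i 6) (dg i 7)) &&
  decide (3 * zdN i = (((dg i 0 + dg i 1 + dg i 2 + dg i 3 + dg i 4 + dg i 5 + dg i 6 +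
    dg i 7 : ℕ) : ℤ) - 16))

set_option maxRecDepth 100000 in
theorem xdC_chk : (List.range 248).all xdC = true := by decide +kernel

/-- the properties of one index, with the digits as variables -/
structure Dig (x z w0 : ℤ) (c d0 d1 d2 d3 d4 d5 d6 d7 : ℕ) : Prop where
  ge : -2 ≤ x
  le : x ≤ 2
  hx : x = z - w0
  hw : w0 = (d0 : ℤ) - 2
  hc : c = ev d0 d1 d2 d3 d4 d5 d6 d7
  hz : 3 * z = ((d0 + d1 + d2 + d3 + d4 + d5 + d6 + d7 : ℕ) : ℤ) - 16
  bd : d0 ≤ 7 ∧ d1 ≤ 7 ∧ d2 ≤ 7 ∧ d3 ≤ 7 ∧ d4 ≤ 7 ∧ d5 ≤ 7 ∧ d6 ≤ 7 ∧ d7 ≤ 7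

theorem xdC_spec {i : ℕ} (hi : i < 248) :
    Dig (xdN i) (zdN i) (wtN i 0) (cd i) (dg i 0) (dg i 1) (dg i 2) (dg i 3) (dg i 4) (dg i 5)
      (dg i 6) (dg i 7) := by
  have h := all_range xdC_chk hi
  unfold xdC at h
  rw [Bool.and_eq_true, Bool.and_eq_true, Bool.and_eq_true, Bool.and_eq_true, Bool.and_eq_true,
    Bool.and_eq_true, Bool.and_eq_true, Bool.and_eq_true, Bool.and_eq_true, Bool.and_eq_true,
    Bool.and_eq_true] at h
  obtain ⟨⟨⟨⟨⟨⟨⟨⟨⟨⟨⟨h1, h2⟩, a0⟩, a1⟩, a2⟩, a3⟩, a4⟩, a5⟩, a6⟩, a7⟩, h3⟩, h4⟩ := h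
  exact ⟨of_decide_eq_true h1, of_decide_eq_true h2, rfl, rfl, Nat.eq_of_beq_eq_true h3,
    of_decide_eq_true h4, Nat.le_of_ble_eq_true a0, Nat.le_of_ble_eq_true a1,
    Nat.le_of_ble_eq_true a2, Nat.le_of_ble_eq_true a3, Nat.le_of_ble_eq_true a4,
    Nat.le_of_ble_eq_true a5, Nat.le_of_ble_eq_true a6, Nat.le_of_ble_eq_true a7⟩

theorem Dig.add {x z w0 : ℤ} {c d0 d1 d2 d3 d4 d5 d6 d7 : ℕ}
    {x' z' w0' : ℤ} {c' d0' d1' d2' d3' d4' d5' d6' d7' : ℕ}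
    {x'' z'' w0'' : ℤ} {c'' d0'' d1'' d2'' d3'' d4'' d5'' d6'' d7'' : ℕ}
    (h : Dig x z w0 c d0 d1 d2 d3 d4 d5 d6 d7)
    (h' : Dig x' z' w0' c' d0' d1' d2' d3' d4' d5' d6' d7')
    (h'' : Dig x'' z'' w0'' c'' d0'' d1'' d2'' d3'' d4'' d5'' d6'' d7'')
    (hc : c + c' = c'' + ev 2 2 2 2 2 2 2 2) : x + x' = x'' := by
  have e := digits_add _ _ _ _ _ _ _ _ _ _ _ _ _ _ _ _ _ _ _ _ _ _ _ _ h.bd h'.bd h''.bd
    (by rw [← h.hc, ← h'.hc, ← h''.hc]; exact hc)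
  obtain ⟨e0, e1, e2, e3, e4, e5, e6, e7⟩ := e
  have a1 := h.hx
  have a2 := h.hw
  have a3 := h.hz
  have b1 := h'.hx
  have b2 := h'.hw
  have b3 := h'.hz
  have c1 := h''.hx
  have c2 := h''.hw
  have c3 := h''.hz
  clear h h' h'' hc
  push_cast at a3 b3 c3
  omega

theorem xdN_add {i j l : ℕ} (hi : i < 248) (hj : j < 248) (hl : l < 248)
    (h : cd i + cd j = cd l + off) : xdN i + xdN j = xdN l :=
  (xdC_spec hi).add (xdC_spec hj) (xdC_spec hl) h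

theorem xtab_deg_ge (b : Fin 248) : -2 ≤ xtab.deg b := (xdC_spec b.2).ge

theorem xtab_deg_le (b : Fin 248) : xtab.deg b ≤ 2 := (xdC_spec b.2).le

theorem sc_deg {i j l : Fin 248} (h : sc i j l ≠ 0) :
    xtab.deg i + xtab.deg j = xtab.deg l :=
  xdN_add i.2 j.2 l.2 (scN_wt i.2 j.2 h)

theorem xtab_br_sup (A : Type u) [CommRing A] (k l : ℤ) (x y : Fin 248 → A)
    (hx : U.Sup xtab.deg k x) (hy : U.Sup xtab.deg l y) :
    U.Sup xtab.deg (k + l) (xtab.br A x y) := by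
  intro b hb
  change ∑ i, ∑ j, (sc i j b : A) * (x i * y j) = 0
  refine Finset.sum_eq_zero fun i _ => Finset.sum_eq_zero fun j _ => ?_
  by_cases hi : xtab.deg i = k
  · by_cases hj : xtab.deg j = l
    · by_cases hs : sc i j b = 0
      · rw [hs, Int.cast_zero, zero_mul]
      · exact absurd (by rw [← sc_deg hs, hi, hj]) hb
    · rw [hy j hj, mul_zero, mul_zero]
  · rw [hx i hi, zero_mul, mul_zero]

theorem card_range (n : ℕ) (p : ℕ → Bool) :
    Fintype.card {b : Fin n // p b = true} = ((List.range n).filter p).length := by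
  rw [Fintype.card_subtype]
  have h1 : (Finset.univ.filter (fun b : Fin n => p b = true)).card =
      ((Finset.range n).filter (fun i => p i = true)).card := by
    refine Finset.card_bij (fun b _ => (b : ℕ)) ?_ ?_ ?_
    · intro b hb
      rw [Finset.mem_filter] at hb ⊢
      exact ⟨Finset.mem_range.2 b.2, hb.2⟩
    · intro a _ b _ h
      exact Fin.ext h
    · intro i hi
      rw [Finset.mem_filter, Finset.mem_range] at hi
      exact ⟨⟨i, hi.1⟩, by rw [Finset.mem_filter]; exact ⟨Finset.mem_univ _, hi.2⟩, rfl⟩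
  have hnd : (List.filter p (List.range n)).Nodup := List.Nodup.filter _ List.nodup_range
  rw [h1, ← List.toFinset_card_of_nodup hnd]
  congr 1
  ext i
  simp

/-- integer equality as a Boolean -/
def ieq (a b : ℤ) : Bool := decide (a = b)

set_option maxRecDepth 100000 in
theorem card1_chk : ((List.range 248).filter (fun i => ieq (xdN i) 1)).length = 64 := by
  decide +kernel

set_option maxRecDepth 100000 in
theorem card2_chk : ((List.range 248).filter (fun i => ieq (xdN i) 2)).length = 14 := by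
  decide +kernel

theorem xtab_card1 : Fintype.card {b // xtab.deg b = 1} = 64 := by
  rw [← card1_chk, ← card_range]
  refine Fintype.card_congr (Equiv.subtypeEquivRight fun b => ?_)
  exact (decide_eq_true_iff (p := xdN b = 1)).symm

theorem xtab_card2 : Fintype.card {b // xtab.deg b = 2} = 14 := by
  rw [← card2_chk, ← card_range]
  refine Fintype.card_congr (Equiv.subtypeEquivRight fun b => ?_)
  exact (decide_eq_true_iff (p := xdN b = 2)).symm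

/-- the Euler element acts on the `j`-th basis vector by its degree -/
def euC (j : ℕ) : Bool :=
  bif Nat.blt j 240 then
    ieq (prN j 0 + 3 * prN j 1 + 5 * prN j 2 + 7 * prN j 3 + 9 * prN j 4 + 6 * prN j 5 +
      3 * prN j 6 + 5 * prN j 7) (xdN j)
  else ieq (xdN j) 0

set_option maxRecDepth 100000 in
theorem euC_chk : (List.range 248).all euC = true := by decide +kernel

theorem xeN_lt {i : ℕ} (h : i < 240) : xeN i = 0 := by
  rw [xeN, if_neg (by omega)]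

set_option maxRecDepth 100000 in
theorem scN_cartan (q j k : ℕ) :
    scN (240 + q) j k = if j < 240 ∧ j = k then prN j q else 0 := by
  have b1 : Nat.blt (240 + q) 240 = false := by
    rw [Bool.eq_false_iff]
    intro h
    rw [Nat.blt_eq] at h
    omega
  rw [scN, sp, b1, cond_false]
  rcases lt_or_ge j 240 with h | h
  · have b2 : Nat.blt j 240 = true := by simpa [Nat.blt_eq] using h
    rw [b2, cond_true, cf_cons, cf_nil, add_zero]
    have e : 240 + q - 240 = q := by omega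
    simp only [e, h, true_and]
  · have b2 : Nat.blt j 240 = false := by
      rw [Bool.eq_false_iff]
      intro h'
      rw [Nat.blt_eq] at h'
      omega
    rw [b2, cond_false, cf_nil, if_neg (by omega)]

theorem euler_coef (j k : Fin 248) :
    ∑ i : Fin 248, xeN i * sc i j k = if j = k then xdN j else 0 := by
  have h0 : ∑ i : Fin 248, xeN i * sc i j k =
      ∑ q : Fin 8, xeN (240 + q) * scN (240 + q) j k := by
    have := Fin.sum_univ_add (a := 240) (b := 8) (fun i : Fin (240 + 8) =>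
      xeN i * scN i j k)
    change ∑ i : Fin (240 + 8), xeN i * scN i j k = _
    rw [this]
    have hz : ∑ i : Fin 240, xeN (Fin.castAdd 8 i) * scN (Fin.castAdd 8 i) j k = 0 := by
      refine Finset.sum_eq_zero fun i _ => ?_
      rw [xeN_lt (by simp), zero_mul]
    rw [hz, zero_add]
    refine Finset.sum_congr rfl fun q _ => ?_
    simp
  rw [h0]
  simp only [scN_cartan, Fin.val_inj]
  have hc := all_range euC_chk j.2
  by_cases hjk : j = k
  · rcases lt_or_ge (j : ℕ) 240 with h | h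
    · have b2 : Nat.blt j 240 = true := by simpa [Nat.blt_eq] using h
      rw [euC, b2, cond_true] at hc
      have hc' := of_decide_eq_true hc
      subst hjk
      rw [if_pos rfl, ← hc']
      simp only [h, and_self, if_true]
      rw [Fin.sum_univ_eight]
      have v0 : xeN (240 + ((0 : Fin 8) : ℕ)) = 1 := by decide
      have v1 : xeN (240 + ((1 : Fin 8) : ℕ)) = 3 := by decide
      have v2 : xeN (240 + ((2 : Fin 8) : ℕ)) = 5 := by decide
      have v3 : xeN (240 + ((3 : Fin 8) : ℕ)) = 7 := by decide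
      have v4 : xeN (240 + ((4 : Fin 8) : ℕ)) = 9 := by decide
      have v5 : xeN (240 + ((5 : Fin 8) : ℕ)) = 6 := by decide
      have v6 : xeN (240 + ((6 : Fin 8) : ℕ)) = 3 := by decide
      have v7 : xeN (240 + ((7 : Fin 8) : ℕ)) = 5 := by decide
      rw [v0, v1, v2, v3, v4, v5, v6, v7]
      change 1 * prN j 0 + 3 * prN j 1 + 5 * prN j 2 + 7 * prN j 3 + 9 * prN j 4 +
        6 * prN j 5 + 3 * prN j 6 + 5 * prN j 7 = _
      rw [one_mul]
    · have b2 : Nat.blt j 240 = false := by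
        rw [Bool.eq_false_iff]
        intro h'
        rw [Nat.blt_eq] at h'
        omega
      rw [euC, b2, cond_false] at hc
      have hc' := of_decide_eq_true hc
      rw [if_pos hjk, hc']
      refine Finset.sum_eq_zero fun q _ => ?_
      rw [if_neg (by omega), mul_zero]
  · rw [if_neg hjk]
    refine Finset.sum_eq_zero fun q _ => ?_
    rw [if_neg (fun h => hjk h.2), mul_zero]

theorem xtab_br_h (A : Type u) [CommRing A] (x : Fin 248 → A) :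
    xtab.br A (fun b => (xtab.h b : A)) x = fun b => (xtab.deg b : A) * x b := by
  funext k
  change ∑ i, ∑ j, (sc i j k : A) * ((xeN i : A) * x j) = (xdN k : A) * x k
  rw [Finset.sum_comm]
  have h1 : ∀ j : Fin 248, ∑ i, (sc i j k : A) * ((xeN i : A) * x j) =
      ((if j = k then xdN j else 0 : ℤ) : A) * x j := by
    intro j
    rw [← euler_coef j k, Int.cast_sum, Finset.sum_mul]
    refine Finset.sum_congr rfl fun i _ => ?_
    rw [Int.cast_mul]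
    ring
  rw [Finset.sum_congr rfl fun j _ => h1 j, Finset.sum_eq_single k]
  · rw [if_pos rfl]
  · intro j _ hj
    rw [if_neg hj, Int.cast_zero, zero_mul]
  · intro h
    exact absurd (Finset.mem_univ k) h

end Pool.Agent.Licci
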