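import Pool.Agent.Work.MP_a98e4e_ag.U.AG4
import Pool.Agent.Work.MP_a98e4e_ag.U.Loc

/-!
# Block (U3): a bundle on three charts of a regular local ring of dimension 3 whose
endomorphism bundle has a global trace-orthogonal basis has vanishing `H^1`

The hypothesis `hfree` holds for regular local rings of dimension 3.
-/

namespace Pool.Agent.Licci.U

open Module RingTheory.Sequence IsLocalRing

universe u v w x

/-- U3 -/
theorem ag {R : Type u} [CommRing R] [IsLocalRing R] [IsNoetherianRing R]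
    {T : Type v} [CommRing T] [Algebra R T] (C : Cov R T)
    (hm : ∀ i, C.f i ∈ maximalIdeal R) (hreg : IsWeaklyRegular R [C.f 0, C.f 1, C.f 2])
    (hT : ∀ x : T, ∃ N : ℕ, ∃ r : R,
      algebraMap R T (C.f 0 * C.f 1 * C.f 2) ^ N * x = algebraMap R T r)
    (y1 y2 : R) (hy : IsWeaklyRegular R [y1, y2]) (_hy1 : y1 ∈ maximalIdeal R)
    (_hy2 : y2 ∈ maximalIdeal R)
    (hfree : ∀ (M : Type w) [AddCommGroup M] [Module R M] [Module.Finite R M],
      IsWeaklyRegular M [y1, y2] → ∀ (b : ℕ) (π : (Fin b → R) →ₗ[R] M), Function.Surjective π →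
        Module.Free R (LinearMap.ker π))
    {S : Type w} [AddCommGroup S] [Module T S] {r : ℕ} (ε : Fin 3 → Basis (Fin r) T S)
    (hε : ∀ i j a b, (ε i).repr (ε j a) b ∈ C.R2 i j)
    {ι : Type x} [Fintype ι] [DecidableEq ι] (hcard : Fintype.card ι = r ^ 2)
    (_hr : IsUnit (algebraMap R T (r : R))) (hr' : IsUnit (r : R))
    (Γ Γ' : ι → (S →ₗ[T] S)) (_hΓ : ∀ s, Γ s ∘ₗ Γ' s = LinearMap.id)
    (_hΓ' : ∀ s, Γ' s ∘ₗ Γ s = LinearMap.id)
    (hE : ∀ i s a b, (ε i).repr (Γ s (ε i a)) b ∈ C.R1 i)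
    (hE' : ∀ i s a b, (ε i).repr (Γ' s (ε i a)) b ∈ C.R1 i)
    (htr : ∀ s t, LinearMap.trace T S (Γ s ∘ₗ Γ' t) = if s = t then (r : T) else 0) :
    ∀ x : Fin 3 → Fin 3 → S, (∀ i j, C.E2 ε i j (x i j)) → (∀ i j k, x i j + x j k = x i k) →
      ∃ y : Fin 3 → S, (∀ i, C.E1 ε i (y i)) ∧ ∀ i j, x i j = y j - y i := by
  let _ : Module R S := Module.compHom S (algebraMap R T)
  have : IsScalarTower R T S := ⟨fun a b c => by
    rw [Algebra.smul_def, mul_smul]; rfl⟩
  have : Nontrivial T := C.inj.nontrivial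
  have htrans : ∀ a b i j, (ε b).repr (ε a i) j ∈ C.R2 a b := by
    intro a b i j
    have := hε b a i j
    rw [Cov.R2, mul_comm] at this
    exact this
  have hT' : ∀ t : T, t ∈ Rl R T (C.f 0 * C.f 1 * C.f 2) := fun t => hT t
  have hcap : ∀ x : T, x ∈ C.R1 0 → x ∈ C.R1 1 → ∃ y : R, algebraMap R T y = x :=
    fun x h0 h1 => C.inter hm hreg (by decide : (0 : Fin 3) ≠ 1) h0 h1
  have hfg := C.glob_fg ε htrans hcap
  have : Module.Finite R (C.Glob (R := R) ε) := Module.Finite.iff_fg.2 hfg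
  have hcore : Module.Free R (C.Glob (R := R) ε) := by
    refine ag_core C ε (C.Glob (R := R) ε) hfg hT' (C.basis_mem_EL ε htrans)
      (fun a x hx i => hx a i) (C.glob_cap ε hcap) ?_ ?_
    · intro φ hφ hc
      refine C.h1_end ε htrans hcard ?_ hr' Γ Γ' (fun a s j i => hE a s j i)
        (fun a s j i => hE' a s j i) htr φ hφ hc
      intro x hx hxc
      exact C.cech hm hreg x hx hxc
    · intro b p hp
      exact hfree _ (C.glob_regular' ε hT' y1 y2 hy) b p hp
  intro x hx hc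
  refine C.h1_of_free ε hT' htrans hfg hcore ?_ x hx hc
  intro n x hx hxc
  exact C.cech hm hreg x hx hxc

end Pool.Agent.Licci.U
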