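import Pool.Agent.Work.MP_a98e4e_ag.U.Base

/-!
# Block (U3), part 1: localised submodules and elementary facts
-/

namespace Pool.Agent.Licci.U

open Module IsLocalRing

section EL

variable {R : Type*} [CommRing R] {S : Type*} [AddCommGroup S] [Module R S]

/-- elements `x` of `S` with `g ^ N • x ∈ M` for some `N`. -/
def EL (M : Submodule R S) (g : R) : Submodule R S where
  carrier := {x | ∃ N : ℕ, g ^ N • x ∈ M}
  add_mem' := by
    rintro x y ⟨N, h⟩ ⟨K, h'⟩
    refine ⟨N + K, ?_⟩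
    have e1 : g ^ (N + K) • (x + y) = g ^ K • (g ^ N • x) + g ^ N • (g ^ K • y) := by
      rw [smul_add, smul_smul, smul_smul, ← pow_add, ← pow_add, add_comm K N]
    rw [e1]
    exact M.add_mem (M.smul_mem _ h) (M.smul_mem _ h')
  zero_mem' := ⟨0, by simp⟩
  smul_mem' := by
    rintro c x ⟨N, h⟩
    exact ⟨N, by rw [smul_comm]; exact M.smul_mem _ h⟩

theorem mem_EL {M : Submodule R S} {g : R} {x : S} : x ∈ EL M g ↔ ∃ N : ℕ, g ^ N • x ∈ M :=
  Iff.rfl

theorem le_EL (M : Submodule R S) (g : R) : M ≤ EL M g := fun x hx => ⟨0, by simpa using hx⟩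

theorem pow_smul_mono {M : Submodule R S} {g : R} {x : S} {N K : ℕ} (h : g ^ N • x ∈ M)
    (hK : N ≤ K) : g ^ K • x ∈ M := by
  obtain ⟨k, rfl⟩ := Nat.exists_eq_add_of_le hK
  have : g ^ (N + k) • x = g ^ k • (g ^ N • x) := by
    rw [smul_smul, ← pow_add, add_comm k N]
  rw [this]
  exact M.smul_mem _ h

theorem EL_of_pow {M : Submodule R S} {g : R} {x : S} {k : ℕ} (h : g ^ k • x ∈ EL M g) :
    x ∈ EL M g := by
  obtain ⟨N, h⟩ := h
  exact ⟨N + k, by rw [pow_add, mul_smul]; exact h⟩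

theorem EL_mul_of_left {M : Submodule R S} {g : R} (h : R) {x : S} (hx : x ∈ EL M g) :
    x ∈ EL M (g * h) := by
  obtain ⟨N, hx⟩ := hx
  refine ⟨N, ?_⟩
  rw [mul_pow, mul_comm, mul_smul]
  exact M.smul_mem _ hx

theorem EL_mul_of_right {M : Submodule R S} {g : R} (h : R) {x : S} (hx : x ∈ EL M g) :
    x ∈ EL M (h * g) := by
  rw [mul_comm]; exact EL_mul_of_left h hx

theorem EL_mul {M : Submodule R S} {g h : R} {x : S} {k : ℕ} (hx : g ^ k • x ∈ EL M h) :
    x ∈ EL M (g * h) := by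
  obtain ⟨N, hx⟩ := hx
  have h1 : h ^ (N + k) • (g ^ (N + k) • x) ∈ M := by
    have : h ^ (N + k) • (g ^ (N + k) • x) = (h ^ k * g ^ N) • (h ^ N • (g ^ k • x)) := by
      rw [smul_smul, smul_smul, smul_smul]; congr 1; ring
    rw [this]; exact M.smul_mem _ hx
  refine ⟨N + k, ?_⟩
  rw [mul_pow, mul_comm, mul_smul]; exact h1

/-- a common exponent for finitely many elements -/
theorem EL_fin {ι : Type*} [Finite ι] {M : Submodule R S} {g : R} {x : ι → S}
    (h : ∀ i, x i ∈ EL M g) : ∃ N : ℕ, ∀ i, g ^ N • x i ∈ M := by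
  cases nonempty_fintype ι
  choose N hN using h
  exact ⟨∑ i, N i, fun i => pow_smul_mono (hN i)
    (Finset.single_le_sum (f := N) (fun _ _ => Nat.zero_le _) (Finset.mem_univ i))⟩

end EL

section Rl

variable {R : Type*} [CommRing R] {T : Type*} [CommRing T] [Algebra R T]

theorem Rl_mul_of_left {a : R} (b : R) {x : T} (hx : x ∈ Rl R T a) : x ∈ Rl R T (a * b) := by
  obtain ⟨N, r, h⟩ := hx
  refine ⟨N, b ^ N * r, ?_⟩
  rw [map_mul, mul_pow, map_mul, map_pow, ← h]; ring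

theorem Rl_mul_of_right {a : R} (b : R) {x : T} (hx : x ∈ Rl R T a) : x ∈ Rl R T (b * a) := by
  rw [mul_comm]; exact Rl_mul_of_left b hx

theorem Rl_of_pow {a : R} {x : T} {k : ℕ} (h : algebraMap R T a ^ k * x ∈ Rl R T a) :
    x ∈ Rl R T a := by
  obtain ⟨N, r, h⟩ := h
  exact ⟨N + k, r, by rw [pow_add, mul_assoc]; exact h⟩

theorem Rl_mul {a b : R} {x : T} {k : ℕ} (hx : algebraMap R T a ^ k * x ∈ Rl R T b) :
    x ∈ Rl R T (a * b) := by
  obtain ⟨N, r, h⟩ := hx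
  refine ⟨N + k, b ^ k * a ^ N * r, ?_⟩
  rw [map_mul, map_mul, map_mul, map_pow, map_pow, ← h]; ring

/-- `x ∈ R_{ab}` gives a power of `a` moving `x` into `R_b`. -/
theorem Rl_split {a b : R} {x : T} (hx : x ∈ Rl R T (a * b)) :
    ∃ k : ℕ, algebraMap R T a ^ k * x ∈ Rl R T b := by
  obtain ⟨N, r, h⟩ := hx
  refine ⟨N, N, r, ?_⟩
  rw [← h, map_mul]; ring

theorem Rl_mono_pow {a : R} {x : T} {N K : ℕ} (hN : N ≤ K)
    (h : ∃ r : R, algebraMap R T a ^ N * x = algebraMap R T r) :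
    ∃ r : R, algebraMap R T a ^ K * x = algebraMap R T r := by
  obtain ⟨r, h⟩ := h
  obtain ⟨k, rfl⟩ := Nat.exists_eq_add_of_le hN
  refine ⟨a ^ k * r, ?_⟩
  rw [map_mul, map_pow, ← h]; ring

theorem Rl_fin {ι : Type*} [Finite ι] {a : R} {x : ι → T} (h : ∀ i, x i ∈ Rl R T a) :
    ∃ N : ℕ, ∀ i, ∃ r : R, algebraMap R T a ^ N * x i = algebraMap R T r := by
  cases nonempty_fintype ι
  choose N r hN using h
  exact ⟨∑ i, N i, fun i => Rl_mono_pow
    (Finset.single_le_sum (f := N) (fun _ _ => Nat.zero_le _) (Finset.mem_univ i)) ⟨r i, hN i⟩⟩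

/-- the analogue with values in another `R_b` -/
theorem Rl_split_fin {ι : Type*} [Finite ι] {a b : R} {x : ι → T}
    (h : ∀ i, x i ∈ Rl R T (a * b)) :
    ∃ k : ℕ, ∀ i, algebraMap R T a ^ k * x i ∈ Rl R T b := by
  cases nonempty_fintype ι
  choose k hk using fun i => Rl_split (h i)
  refine ⟨∑ i, k i, fun i => ?_⟩
  obtain ⟨l, hl⟩ := Nat.exists_eq_add_of_le
    (Finset.single_le_sum (f := k) (fun _ _ => Nat.zero_le _) (Finset.mem_univ i))
  rw [hl]
  have : algebraMap R T a ^ (k i + l) * x i =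
      algebraMap R T (a ^ l) * (algebraMap R T a ^ k i * x i) := by
    rw [map_pow]; ring
  rw [this]
  exact (Rl R T b).mul_mem ((Rl R T b).algebraMap_mem _) (hk i)

end Rl

end Pool.Agent.Licci.U
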