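import Pool.Agent.Work.MP_a98e4e_ag.U.AG1

/-!
# Block (U3), part 2: `H^1(End) = 0` and kernel of a minimal cover free imply free
-/

namespace Pool.Agent.Licci.U

open Module IsLocalRing

section core

variable {R T S : Type*} [CommRing R] [CommRing T] [Algebra R T]
  [AddCommGroup S] [Module R S] [Module T S] [IsScalarTower R T S]

/-- A generating family of minimal length of a finitely generated submodule over a local ring:
all relations have coefficients in the maximal ideal. -/
theorem exists_min_gen [IsLocalRing R] (M : Submodule R S) (fg : M.FG) :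
    ∃ (b : ℕ) (m : Fin b → S), Submodule.span R (Set.range m) = M ∧
      ∀ z : Fin b → R, ∑ j, z j • m j = 0 → ∀ j, z j ∈ maximalIdeal R := by
  classical
  have hex : ∃ b : ℕ, ∃ m : Fin b → S, Submodule.span R (Set.range m) = M := by
    obtain ⟨n, s, hs⟩ := Submodule.fg_iff_exists_fin_generating_family.1 fg
    exact ⟨n, s, hs⟩
  obtain ⟨m, hm⟩ := Nat.find_spec hex
  have hmin : ∀ b' : ℕ, (∃ m : Fin b' → S, Submodule.span R (Set.range m) = M) →
      Nat.find hex ≤ b' := fun b' h => Nat.find_min' hex h
  generalize hb : Nat.find hex = b at m hm hmin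
  refine ⟨b, m, hm, ?_⟩
  intro z hz j
  by_contra hj
  have hu : IsUnit (z j) := by
    by_contra h
    exact hj ((mem_maximalIdeal _).2 h)
  obtain ⟨c, rfl⟩ : ∃ c, b = c + 1 := ⟨b - 1, by have := j.2; omega⟩
  have hle := hmin c ⟨fun i => m (j.succAbove i), ?_⟩
  · omega
  · refine le_antisymm ?_ ?_
    · rw [← hm]
      refine Submodule.span_mono ?_
      rintro _ ⟨i, rfl⟩
      exact ⟨_, rfl⟩
    · rw [← hm, Submodule.span_le]
      rintro _ ⟨i, rfl⟩
      have key : m j ∈ Submodule.span R (Set.range fun i => m (j.succAbove i)) := by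
        obtain ⟨u, hu⟩ := hu
        rw [Fin.sum_univ_succAbove _ j] at hz
        have h1 : m j = -(↑u⁻¹ : R) • ∑ i, z (j.succAbove i) • m (j.succAbove i) := by
          have h2 : z j • m j = -∑ i, z (j.succAbove i) • m (j.succAbove i) :=
            eq_neg_of_add_eq_zero_left hz
          rw [neg_smul, ← smul_neg, ← h2, ← hu, smul_smul, Units.inv_mul, one_smul]
        rw [h1]
        refine Submodule.smul_mem _ _ (Submodule.sum_mem _ fun i _ => ?_)
        exact Submodule.smul_mem _ _ (Submodule.subset_span ⟨i, rfl⟩)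
      rcases eq_or_ne i j with rfl | hij
      · exact key
      · obtain ⟨i', rfl⟩ := Fin.exists_succAbove_eq hij
        exact Submodule.subset_span ⟨i', rfl⟩

/-- with denominators `R`-combinations of a family span the localised submodule -/
theorem comb_mem_EL {b : ℕ} {m : Fin b → S} {M : Submodule R S} (hM : ∀ j, m j ∈ M) {g : R}
    {z : Fin b → T} (hz : ∀ j, z j ∈ Rl R T g) : ∑ j, z j • m j ∈ EL M g := by
  obtain ⟨N, hN⟩ := Rl_fin hz
  choose r hr using hN
  refine ⟨N, ?_⟩
  rw [Finset.smul_sum]
  refine M.sum_mem fun j _ => ?_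
  have : g ^ N • z j • m j = r j • m j := by
    rw [← smul_assoc, Algebra.smul_def, map_pow, hr, algebraMap_smul]
  rw [this]
  exact M.smul_mem _ (hM j)

theorem ag_core [IsLocalRing R] [IsNoetherianRing R] (C : Cov R T) {ι : Type*} [Fintype ι]
    (ε : Fin 3 → Basis ι T S) (M : Submodule R S) (fg : M.FG)
    (hT : ∀ t : T, t ∈ Rl R T (C.f 0 * C.f 1 * C.f 2))
    (hε1 : ∀ a i, ε a i ∈ EL M (C.f a))
    (hε2 : ∀ a, ∀ x ∈ M, ∀ i, (ε a).repr x i ∈ C.R1 a)
    (cap : ∀ x, x ∈ EL M (C.f 0) → x ∈ EL M (C.f 1) → x ∈ M)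
    (H1 : ∀ φ : Fin 3 → Fin 3 → (S →ₗ[T] S),
      (∀ a b, ∀ x ∈ M, φ a b x ∈ EL M (C.f a * C.f b)) →
      (∀ a b c, φ a b + φ b c = φ a c) →
      ∃ ψ : Fin 3 → (S →ₗ[T] S), (∀ a, ∀ x ∈ M, ψ a x ∈ EL M (C.f a)) ∧
        ∀ a b, φ a b = ψ b - ψ a)
    (hL : ∀ (b : ℕ) (p : (Fin b → R) →ₗ[R] M), Function.Surjective p →
      Module.Free R (LinearMap.ker p)) :
    Module.Free R M := by
  classical
  obtain ⟨b, m, hm, hmin⟩ := exists_min_gen M fg
  have hmM : ∀ j, m j ∈ M := fun j => by
    rw [← hm]; exact Submodule.subset_span ⟨j, rfl⟩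
  -- the cover
  let p : (Fin b → R) →ₗ[R] M := Fintype.linearCombination R (fun j => (⟨m j, hmM j⟩ : M))
  have hp : ∀ z : Fin b → R, ((p z : M) : S) = ∑ j, z j • m j := by
    intro z
    simp [p, Fintype.linearCombination_apply]
  have hMspan : ∀ x ∈ M, ∃ z : Fin b → R, ∑ j, z j • m j = x := by
    intro x hx
    rw [← hm] at hx
    obtain ⟨c, hc⟩ := (Submodule.mem_span_range_iff_exists_fun R).1 hx
    exact ⟨c, hc⟩
  have hsurj : Function.Surjective p := by
    rintro ⟨x, hx⟩
    obtain ⟨z, hz⟩ := hMspan x hx
    exact ⟨z, Subtype.ext (by rw [hp, hz])⟩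
  have hfree : Module.Free R (LinearMap.ker p) := hL b p hsurj
  let κ := Module.Free.ChooseBasisIndex R (LinearMap.ker p)
  let bL : Basis κ R (LinearMap.ker p) := Module.Free.chooseBasis R (LinearMap.ker p)
  -- the kernel vanishes
  have hker : IsEmpty κ := by
    by_contra hne
    rw [not_isEmpty_iff] at hne
    obtain ⟨k0⟩ := hne
    set g : R := C.f 0 * C.f 1 * C.f 2 with hg
    have hgu : IsUnit (algebraMap R T g) := by
      rw [hg, map_mul, map_mul]
      exact ((C.unit 0).mul (C.unit 1)).mul (C.unit 2)
    let πT : (Fin b → T) →ₗ[T] S := Fintype.linearCombination T m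
    have hπ : ∀ z : Fin b → T, πT z = ∑ j, z j • m j := fun z => by
      simp [πT, Fintype.linearCombination_apply]
    let lam : κ → (Fin b → T) := fun k j => algebraMap R T ((bL k : Fin b → R) j)
    -- elements of `L` over `T`
    have hLrel : ∀ r : Fin b → R, r ∈ LinearMap.ker p ↔ ∑ j, r j • m j = 0 := by
      intro r
      rw [LinearMap.mem_ker, ← hp]
      constructor
      · intro h; rw [h]; rfl
      · intro h; exact Subtype.ext h
    have hπR : ∀ r : Fin b → R, πT (fun j => algebraMap R T (r j)) = ∑ j, r j • m j := by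
      intro r
      rw [hπ]
      exact Finset.sum_congr rfl fun j _ => algebraMap_smul T (r j) (m j)
    have hlam : ∀ k, lam k ∈ LinearMap.ker πT := by
      intro k
      rw [LinearMap.mem_ker, hπR]
      exact (hLrel _).1 (bL k).2
    -- linear combinations
    have hcomb : ∀ (c : κ → R) (j : Fin b),
        (∑ k, algebraMap R T (c k) • lam k) j =
          algebraMap R T (((∑ k, c k • bL k : LinearMap.ker p) : Fin b → R) j) := by
      intro c j
      simp only [lam, Finset.sum_apply, Pi.smul_apply, smul_eq_mul, Submodule.coe_sum,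
        Submodule.coe_smul, map_sum, map_mul]
    let v : κ → LinearMap.ker πT := fun k => ⟨lam k, hlam k⟩
    have hli : LinearIndependent T v := by
      rw [Fintype.linearIndependent_iff]
      intro t ht k
      obtain ⟨N, hN⟩ := Rl_fin (fun k => hT (t k))
      choose c hc using hN
      have h1 : ∑ k, c k • bL k = 0 := by
        refine Subtype.ext (funext fun j => C.inj ?_)
        rw [← hcomb c j]
        have h2 : (∑ k, t k • lam k) j = 0 := by
          have := congrArg (fun y : LinearMap.ker πT => (y : Fin b → T) j) ht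
          simpa [v] using this
        have h3 : (∑ k, algebraMap R T (c k) • lam k) j =
            algebraMap R T g ^ N * (∑ k, t k • lam k) j := by
          simp only [Finset.sum_apply, Pi.smul_apply, smul_eq_mul, Finset.mul_sum]
          refine Finset.sum_congr rfl fun k _ => ?_
          rw [← hc k]; ring
        rw [h3, h2, mul_zero]; simp
      have h2 := Fintype.linearIndependent_iff.1 bL.linearIndependent c h1 k
      have h3 := hc k
      rw [h2, map_zero] at h3
      exact ((hgu.pow N).mul_right_eq_zero).1 h3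
    -- expansion of kernel elements
    have hexp : ∀ (h : R) (y : Fin b → T), y ∈ LinearMap.ker πT → (∀ j, y j ∈ Rl R T h) →
        ∃ (N : ℕ) (c : κ → R), algebraMap R T h ^ N • y = ∑ k, algebraMap R T (c k) • lam k := by
      intro h y hy hyR
      obtain ⟨N, hN⟩ := Rl_fin hyR
      choose r hr using hN
      have hrL : r ∈ LinearMap.ker p := by
        rw [hLrel, ← hπR]
        have : (fun j => algebraMap R T (r j)) = algebraMap R T h ^ N • y := by
          funext j
          rw [Pi.smul_apply, smul_eq_mul, hr]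
        rw [this, map_smul, LinearMap.mem_ker.1 hy, smul_zero]
      refine ⟨N, fun k => bL.repr ⟨r, hrL⟩ k, ?_⟩
      funext j
      rw [hcomb, bL.sum_repr]
      rw [Pi.smul_apply, smul_eq_mul, hr]
    have hsp : ⊤ ≤ Submodule.span T (Set.range v) := by
      rintro ⟨y, hy⟩ -
      obtain ⟨N, c, hc⟩ := hexp g y hy (fun j => hT _)
      obtain ⟨u, hu⟩ := hgu.pow N
      have h1 : (⟨y, hy⟩ : LinearMap.ker πT) =
          (↑u⁻¹ : T) • ∑ k, algebraMap R T (c k) • v k := by
        refine Subtype.ext ?_
        have : ((∑ k, algebraMap R T (c k) • v k : LinearMap.ker πT) : Fin b → T) =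
            ∑ k, algebraMap R T (c k) • lam k := by
          simp [v]
        rw [Submodule.coe_smul, this, ← hc, ← hu, smul_smul, Units.inv_mul, one_smul]
      rw [h1]
      refine Submodule.smul_mem _ _ (Submodule.sum_mem _ fun k _ => ?_)
      exact Submodule.smul_mem _ _ (Submodule.subset_span ⟨k, rfl⟩)
    let bK : Basis κ T (LinearMap.ker πT) := Basis.mk hli hsp
    have hbK : ∀ k, bK k = v k := fun k => by simp [bK]
    -- the index `j0`
    have hb0 : Nonempty (Fin b) := by
      by_contra hcon
      rw [not_nonempty_iff] at hcon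
      have : (bL k0 : Fin b → R) = 0 := funext fun j => (hcon.false j).elim
      have h1 : bL k0 = 0 := Subtype.ext this
      exact bL.ne_zero k0 h1
    obtain ⟨j0⟩ := hb0
    let w : κ → S := fun k => if k = k0 then m j0 else 0
    have hw : ∀ k, w k ∈ M := fun k => by
      by_cases h : k = k0
      · simp [w, h, hmM]
      · simp [w, h]
    let hTm : LinearMap.ker πT →ₗ[T] S := bK.constr T w
    have hTv : ∀ k, hTm (v k) = w k := fun k => by
      rw [← hbK]; simp [hTm]
    have hTEL : ∀ (h : R), IsUnit (algebraMap R T h) → ∀ (y : LinearMap.ker πT),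
        (∀ j, (y : Fin b → T) j ∈ Rl R T h) → hTm y ∈ EL M h := by
      intro h hh y hyR
      obtain ⟨N, c, hc⟩ := hexp h y y.2 hyR
      refine ⟨N, ?_⟩
      have h1 : (algebraMap R T h ^ N • y : LinearMap.ker πT) =
          ∑ k, algebraMap R T (c k) • v k := by
        refine Subtype.ext ?_
        rw [Submodule.coe_smul, hc]
        simp [v]
      have h2 : h ^ N • hTm y = hTm (algebraMap R T h ^ N • y) := by
        rw [map_smul, ← map_pow, algebraMap_smul]
      rw [h2, h1, map_sum]
      refine M.sum_mem fun k _ => ?_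
      rw [map_smul, hTv, algebraMap_smul]
      exact M.smul_mem _ (hw k)
    -- sections
    have hsec : ∀ a : Fin 3, ∃ σ : S →ₗ[T] (Fin b → T), (∀ x, πT (σ x) = x) ∧
        ∀ (h : R) (x : S), (∀ i, (ε a).repr x i ∈ Rl R T (C.f a * h)) →
          ∀ j, σ x j ∈ Rl R T (C.f a * h) := by
      intro a
      obtain ⟨N, hN⟩ := EL_fin (hε1 a)
      choose u hu using fun i => hMspan _ (hN i)
      obtain ⟨c, hc⟩ := (C.unit a).pow N
      let s : ι → (Fin b → T) := fun i j => (↑c⁻¹ : T) * algebraMap R T (u i j)
      have hs : ∀ i j, s i j ∈ Rl R T (C.f a) := fun i j =>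
        ⟨N, u i j, by simp only [s]; rw [← hc, ← mul_assoc, Units.mul_inv, one_mul]⟩
      refine ⟨(ε a).constr T s, ?_, ?_⟩
      · intro x
        have : πT ∘ₗ (ε a).constr T s = LinearMap.id := by
          refine (ε a).ext fun i => ?_
          rw [LinearMap.comp_apply, Basis.constr_basis, LinearMap.id_apply, hπ]
          have h1 : ∑ j, s i j • m j = (↑c⁻¹ : T) • ∑ j, u i j • m j := by
            rw [Finset.smul_sum]
            refine Finset.sum_congr rfl fun j _ => ?_
            simp only [s]
            rw [mul_smul, algebraMap_smul]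
          rw [h1, hu, ← algebraMap_smul T (C.f a ^ N), map_pow, ← hc, smul_smul, Units.inv_mul,
            one_smul]
        exact LinearMap.congr_fun this x
      · intro h x hx j
        rw [Basis.constr_apply_fintype, Finset.sum_apply]
        refine (Rl R T (C.f a * h)).sum_mem fun i _ => ?_
        rw [Pi.smul_apply, smul_eq_mul]
        exact (Rl R T (C.f a * h)).mul_mem (hx i) (Rl_mul_of_left h (hs i j))
    choose σ hσ1 hσ2 using hsec
    -- coordinates of localised elements
    have hcoord : ∀ (a : Fin 3) (h : R) (x : S), x ∈ EL M (C.f a * h) →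
        ∀ i, (ε a).repr x i ∈ Rl R T (C.f a * h) := by
      rintro a h x ⟨N, hN⟩ i
      have h1 := hε2 a _ hN i
      rw [← algebraMap_smul T ((C.f a * h) ^ N), map_smul, Finsupp.smul_apply, smul_eq_mul,
        map_pow] at h1
      exact Rl_of_pow (Rl_mul_of_left h h1)
    -- the local extensions
    have hproj : ∀ (a : Fin 3) (z : Fin b → T), z - σ a (πT z) ∈ LinearMap.ker πT := by
      intro a z
      rw [LinearMap.mem_ker, map_sub, hσ1, sub_self]
    let ρ : Fin 3 → ((Fin b → T) →ₗ[T] LinearMap.ker πT) := fun a =>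
      LinearMap.codRestrict _ (LinearMap.id - (σ a) ∘ₗ πT) (fun z => by
        simpa using hproj a z)
    have hρ : ∀ a z, ((ρ a z : LinearMap.ker πT) : Fin b → T) = z - σ a (πT z) := fun a z => rfl
    have hρK : ∀ a (y : LinearMap.ker πT), ρ a y = y := by
      intro a y
      refine Subtype.ext ?_
      rw [hρ, LinearMap.mem_ker.1 y.2, map_zero, sub_zero]
    let ha : Fin 3 → ((Fin b → T) →ₗ[T] S) := fun a => hTm ∘ₗ ρ a
    have haK : ∀ a (y : LinearMap.ker πT), ha a y = hTm y := fun a y => by
      simp only [ha, LinearMap.comp_apply, hρK]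
    have haEL : ∀ (a : Fin 3) (h : R), IsUnit (algebraMap R T h) → ∀ (z : Fin b → T),
        (∀ j, z j ∈ Rl R T (C.f a * h)) → ha a z ∈ EL M (C.f a * h) := by
      intro a h hh z hz
      refine hTEL _ ?_ _ ?_
      · rw [map_mul]; exact (C.unit a).mul hh
      · intro j
        rw [hρ]
        refine (Rl R T (C.f a * h)).sub_mem (hz j) ?_
        refine hσ2 a h _ (hcoord a h _ ?_) j
        rw [hπ]
        exact comb_mem_EL hmM hz
    let φ : Fin 3 → Fin 3 → (S →ₗ[T] S) := fun a b' => (ha b' - ha a) ∘ₗ σ 0
    have hφπ : ∀ a b' (z : Fin b → T), φ a b' (πT z) = ha b' z - ha a z := by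
      intro a b' z
      have h1 : (ha b' - ha a) (z - σ 0 (πT z)) = 0 := by
        have := haK b' ⟨_, hproj 0 z⟩
        have h2 := haK a ⟨_, hproj 0 z⟩
        rw [LinearMap.sub_apply]
        rw [show ha b' (z - σ 0 (πT z)) = _ from this, show ha a (z - σ 0 (πT z)) = _ from h2,
          sub_self]
      rw [map_sub, sub_eq_zero] at h1
      simp only [φ, LinearMap.comp_apply]
      rw [← h1, LinearMap.sub_apply]
    obtain ⟨ψ, hψ1, hψ2⟩ := H1 φ (by
      intro a b' x hx
      have h1 : φ a b' x = ha b' (σ a x) - ha a (σ a x) := by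
        rw [← hφπ, hσ1]
      have h2 : ∀ i, (ε a).repr x i ∈ Rl R T (C.f a * C.f b') := fun i =>
        Rl_mul_of_left _ (hε2 a x hx i)
      have h3 := hσ2 a (C.f b') x h2
      rw [h1]
      refine Submodule.sub_mem _ ?_ ?_
      · rw [mul_comm]
        refine haEL b' (C.f a) (C.unit a) _ ?_
        rw [mul_comm]; exact h3
      · exact haEL a (C.f b') (C.unit b') _ h3) (by
      intro a b' c
      simp only [φ]
      rw [← LinearMap.add_comp]
      congr 1
      abel)
    -- the global extension
    have hH : ∀ a b' (z : Fin b → T), ha a z - ψ a (πT z) = ha b' z - ψ b' (πT z) := by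
      intro a b' z
      have h1 := hφπ a b' z
      rw [hψ2 a b', LinearMap.sub_apply] at h1
      have : ha b' z = ha a z + (ψ b' (πT z) - ψ a (πT z)) := by rw [h1]; abel
      rw [this]; abel
    let H : (Fin b → T) →ₗ[T] S := ha 0 - (ψ 0) ∘ₗ πT
    have hHM : ∀ j, H (Pi.single j 1) ∈ M := by
      intro j
      have hπs : πT (Pi.single j 1) = m j := by
        rw [hπ, Finset.sum_eq_single j]
        · simp
        · intro i _ hi; simp [hi]
        · intro h; exact absurd (Finset.mem_univ j) h
      have hz : ∀ (h : R) (i : Fin b), (Pi.single j (1 : T) : Fin b → T) i ∈ Rl R T h := by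
        intro h i
        rcases eq_or_ne i j with rfl | hij
        · simp [(Rl R T h).one_mem]
        · simp [hij, (Rl R T h).zero_mem]
      have hmem : ∀ a, ha a (Pi.single j 1) - ψ a (m j) ∈ EL M (C.f a) := by
        intro a
        refine Submodule.sub_mem _ ?_ (hψ1 a _ (hmM j))
        have := haEL a 1 (by simp) (Pi.single j 1) (hz _)
        rwa [mul_one] at this
      have hH0 : H (Pi.single j 1) = ha 0 (Pi.single j 1) - ψ 0 (m j) := by
        simp only [H, LinearMap.sub_apply, LinearMap.comp_apply, hπs]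
      refine cap _ ?_ ?_
      · rw [hH0]; exact hmem 0
      · have := hH 0 1 (Pi.single j 1)
        rw [hπs] at this
        rw [hH0, this]; exact hmem 1
    have hHlam : H (lam k0) = m j0 := by
      have h1 : πT (lam k0) = 0 := LinearMap.mem_ker.1 (hlam k0)
      have h2 : ha 0 (lam k0) = w k0 := by
        have := haK 0 (v k0)
        rw [hTv] at this
        exact this
      simp only [H, LinearMap.sub_apply, LinearMap.comp_apply, h1, map_zero, sub_zero, h2]
      simp [w]
    have hHsum : H (lam k0) = ∑ j, (bL k0 : Fin b → R) j • H (Pi.single j 1) := by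
      have h1 : lam k0 = ∑ j, (algebraMap R T ((bL k0 : Fin b → R) j)) •
          (Pi.single j (1 : T) : Fin b → T) := by
        funext i
        rw [Finset.sum_apply, Finset.sum_eq_single i]
        · simp [lam]
        · intro j _ hj
          simp [hj.symm]
        · intro h; exact absurd (Finset.mem_univ i) h
      conv_lhs => rw [h1]
      rw [map_sum]
      exact Finset.sum_congr rfl fun j _ => by rw [map_smul, algebraMap_smul]
    choose c hc using fun j => hMspan _ (hHM j)
    have hfin : m j0 = ∑ i, (∑ j, (bL k0 : Fin b → R) j * c j i) • m i := by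
      rw [← hHlam, hHsum]
      have : ∀ j, (bL k0 : Fin b → R) j • H (Pi.single j 1) =
          ∑ i, ((bL k0 : Fin b → R) j * c j i) • m i := by
        intro j
        rw [← hc j, Finset.smul_sum]
        exact Finset.sum_congr rfl fun i _ => by rw [mul_smul]
      rw [Finset.sum_congr rfl fun j _ => this j, Finset.sum_comm]
      exact Finset.sum_congr rfl fun i _ => by rw [Finset.sum_smul]
    have hrel : ∑ i, ((if i = j0 then (1 : R) else 0) -
        ∑ j, (bL k0 : Fin b → R) j * c j i) • m i = 0 := by
      simp only [sub_smul]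
      rw [Finset.sum_sub_distrib, ← hfin]
      simp
    have h1 := hmin _ hrel j0
    have h2 : ∑ j, (bL k0 : Fin b → R) j * c j j0 ∈ maximalIdeal R := by
      refine Ideal.sum_mem _ fun j _ => Ideal.mul_mem_right _ _ ?_
      exact hmin _ ((hLrel _).1 (bL k0).2) j
    have h3 := Ideal.add_mem _ h1 h2
    simp only [if_true, sub_add_cancel] at h3
    exact (Ideal.ne_top_iff_one _).1 (maximalIdeal.isMaximal R).ne_top h3
  have hbot : LinearMap.ker p = ⊥ := by
    have hs : Subsingleton (LinearMap.ker p) := by
      have := bL.repr.toEquiv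
      exact this.subsingleton
    exact (Submodule.subsingleton_iff_eq_bot).1 hs
  let e : (Fin b → R) ≃ₗ[R] M := LinearEquiv.ofBijective p
    ⟨LinearMap.ker_eq_bot.1 hbot, hsurj⟩
  exact Module.Free.of_equiv e

end core

end Pool.Agent.Licci.U
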