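import Pool.Agent.Work.MP_a98e4e_ag.U.AG2

/-!
# Block (U3), part 3: the module of global sections of a bundle given by three charts
-/

namespace Pool.Agent.Licci.U

open Module IsLocalRing

section aux

variable {R : Type*} [CommRing R] {T : Type*} [CommRing T] [Algebra R T]

/-- version of `Rl_split_fin` with varying second element -/
theorem Rl_split_fin' {ι : Type*} [Finite ι] {a : R} {b : ι → R} {x : ι → T}
    (h : ∀ i, x i ∈ Rl R T (a * b i)) :
    ∃ k : ℕ, ∀ i, algebraMap R T a ^ k * x i ∈ Rl R T (b i) := by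
  cases nonempty_fintype ι
  choose k hk using fun i => Rl_split (h i)
  refine ⟨∑ i, k i, fun i => ?_⟩
  obtain ⟨l, hl⟩ := Nat.exists_eq_add_of_le
    (Finset.single_le_sum (f := k) (fun _ _ => Nat.zero_le _) (Finset.mem_univ i))
  rw [hl]
  have : algebraMap R T a ^ (k i + l) * x i =
      algebraMap R T (a ^ l) * (algebraMap R T a ^ k i * x i) := by
    rw [map_pow]; ring
  rw [this]
  exact (Rl R T (b i)).mul_mem ((Rl R T (b i)).algebraMap_mem _) (hk i)

theorem Rl_of_pow_left {a b : R} {x : T} {k : ℕ} (h : algebraMap R T a ^ k * x ∈ Rl R T (a * b)) :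
    x ∈ Rl R T (a * b) := by
  refine Rl_of_pow (k := k) ?_
  have : algebraMap R T (a * b) ^ k * x =
      algebraMap R T (b ^ k) * (algebraMap R T a ^ k * x) := by
    rw [map_pow, map_mul]; ring
  rw [this]
  exact (Rl R T _).mul_mem ((Rl R T _).algebraMap_mem _) h

variable {S : Type*} [AddCommGroup S] [Module R S] [Module T S] [IsScalarTower R T S]

theorem comb_mem_EL' {b : ℕ} {m : Fin b → S} {M : Submodule R S} {g : R}
    (hM : ∀ j, m j ∈ EL M g) {z : Fin b → T} (hz : ∀ j, z j ∈ Rl R T g) :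
    ∑ j, z j • m j ∈ EL M g := by
  obtain ⟨N, hN⟩ := EL_fin hM
  refine EL_of_pow (k := N) ?_
  have : g ^ N • ∑ j, z j • m j = ∑ j, z j • (g ^ N • m j) := by
    rw [Finset.smul_sum]
    exact Finset.sum_congr rfl fun j _ => by
      rw [← algebraMap_smul T (g ^ N), ← algebraMap_smul T (g ^ N) (m j), smul_comm]
  rw [this]
  exact comb_mem_EL hN hz

/-- change of coordinates -/
theorem repr_change {r : ℕ} (e e' : Basis (Fin r) T S) (x : S) (j : Fin r) :
    e'.repr x j = ∑ i, e.repr x i * e'.repr (e i) j := by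
  conv_lhs => rw [← e.sum_repr x]
  rw [map_sum, Finsupp.finsetSum_apply]
  exact Finset.sum_congr rfl fun i _ => by rw [map_smul, Finsupp.smul_apply, smul_eq_mul]

end aux

namespace Cov

variable {R : Type*} [CommRing R] {T : Type*} [CommRing T] [Algebra R T] (C : Cov R T)
variable {S : Type*} [AddCommGroup S] [Module R S] [Module T S] [IsScalarTower R T S] {r : ℕ}

/-- global sections -/
def Glob (ε : Fin 3 → Basis (Fin r) T S) : Submodule R S where
  carrier := {x | ∀ a, C.E1 ε a x}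
  add_mem' := by
    intro x y hx hy a i
    rw [map_add, Finsupp.add_apply]
    exact (C.R1 a).add_mem (hx a i) (hy a i)
  zero_mem' := by
    intro a i
    rw [map_zero, Finsupp.zero_apply]
    exact (C.R1 a).zero_mem
  smul_mem' := by
    intro c x hx a i
    rw [← algebraMap_smul T c x, map_smul, Finsupp.smul_apply, smul_eq_mul]
    exact (C.R1 a).mul_mem ((C.R1 a).algebraMap_mem c) (hx a i)

theorem mem_Glob {ε : Fin 3 → Basis (Fin r) T S} {x : S} :
    x ∈ C.Glob (R := R) ε ↔ ∀ a, C.E1 ε a x := Iff.rfl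

/-- coordinates of localised elements -/
theorem coord_EL (ε : Fin 3 → Basis (Fin r) T S) (a : Fin 3) (h : R) {x : S}
    (hx : x ∈ EL (C.Glob (R := R) ε) (C.f a * h)) (i : Fin r) :
    (ε a).repr x i ∈ Rl R T (C.f a * h) := by
  obtain ⟨N, hN⟩ := hx
  have h1 := hN a i
  rw [← algebraMap_smul T ((C.f a * h) ^ N), map_smul, Finsupp.smul_apply, smul_eq_mul,
    map_pow] at h1
  exact Rl_of_pow (Rl_mul_of_left h h1)

theorem coord_EL1 (ε : Fin 3 → Basis (Fin r) T S) (a : Fin 3) {x : S}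
    (hx : x ∈ EL (C.Glob (R := R) ε) (C.f a)) : C.E1 ε a x := by
  intro i
  have := C.coord_EL ε a 1 (x := x) (by rwa [mul_one]) i
  rwa [mul_one] at this

theorem basis_mem_EL (ε : Fin 3 → Basis (Fin r) T S)
    (htr : ∀ a b i j, (ε b).repr (ε a i) j ∈ C.R2 a b) (a : Fin 3) (i : Fin r) :
    ε a i ∈ EL (C.Glob (R := R) ε) (C.f a) := by
  obtain ⟨k, hk⟩ := Rl_split_fin' (ι := Fin 3 × Fin r) (a := C.f a) (b := fun p => C.f p.1)
    (x := fun p => (ε p.1).repr (ε a i) p.2) (fun p => htr a p.1 i p.2)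
  refine ⟨k, fun b j => ?_⟩
  rw [← algebraMap_smul T (C.f a ^ k), map_smul, Finsupp.smul_apply, smul_eq_mul, map_pow]
  exact hk (b, j)

theorem EL_of_coord (ε : Fin 3 → Basis (Fin r) T S)
    (htr : ∀ a b i j, (ε b).repr (ε a i) j ∈ C.R2 a b) (a : Fin 3) (h : R) {x : S}
    (hx : ∀ i, (ε a).repr x i ∈ Rl R T (C.f a * h)) :
    x ∈ EL (C.Glob (R := R) ε) (C.f a * h) := by
  rw [← (ε a).sum_repr x]
  exact comb_mem_EL' (fun i => EL_mul_of_left h (C.basis_mem_EL ε htr a i)) hx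

theorem EL_of_E1 (ε : Fin 3 → Basis (Fin r) T S)
    (htr : ∀ a b i j, (ε b).repr (ε a i) j ∈ C.R2 a b) (a : Fin 3) {x : S}
    (hx : C.E1 ε a x) : x ∈ EL (C.Glob (R := R) ε) (C.f a) := by
  have := C.EL_of_coord ε htr a 1 (x := x) (by intro i; rw [mul_one]; exact hx i)
  rwa [mul_one] at this

theorem glob_cap (ε : Fin 3 → Basis (Fin r) T S)
    (hcap : ∀ x : T, x ∈ C.R1 0 → x ∈ C.R1 1 → ∃ y : R, algebraMap R T y = x)
    (x : S) (h0 : x ∈ EL (C.Glob (R := R) ε) (C.f 0)) (h1 : x ∈ EL (C.Glob (R := R) ε) (C.f 1)) :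
    x ∈ C.Glob (R := R) ε := by
  intro a i
  -- `f_b ^ N * c ∈ R_a` for `b = 0, 1`
  have key : ∀ b : Fin 3, x ∈ EL (C.Glob (R := R) ε) (C.f b) →
      ∃ N, algebraMap R T (C.f b) ^ N * (ε a).repr x i ∈ C.R1 a := by
    rintro b ⟨N, hN⟩
    refine ⟨N, ?_⟩
    have := hN a i
    rwa [← algebraMap_smul T (C.f b ^ N), map_smul, Finsupp.smul_apply, smul_eq_mul,
      map_pow] at this
  obtain ⟨N0, k0⟩ := key 0 h0
  obtain ⟨N1, k1⟩ := key 1 h1
  obtain ⟨K0, r0, e0⟩ := k0
  obtain ⟨K1, r1, e1⟩ := k1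
  have h2 : algebraMap R T (C.f a) ^ (K0 + K1) * (ε a).repr x i ∈ C.R1 0 := by
    refine ⟨N0, C.f a ^ K1 * r0, ?_⟩
    rw [map_mul, map_pow, ← e0]; ring
  have h3 : algebraMap R T (C.f a) ^ (K0 + K1) * (ε a).repr x i ∈ C.R1 1 := by
    refine ⟨N1, C.f a ^ K0 * r1, ?_⟩
    rw [map_mul, map_pow, ← e1]; ring
  obtain ⟨y, hy⟩ := hcap _ h2 h3
  exact ⟨K0 + K1, y, hy.symm⟩

theorem glob_fg [IsNoetherianRing R] (ε : Fin 3 → Basis (Fin r) T S)
    (htr : ∀ a b i j, (ε b).repr (ε a i) j ∈ C.R2 a b)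
    (hcap : ∀ x : T, x ∈ C.R1 0 → x ∈ C.R1 1 → ∃ y : R, algebraMap R T y = x) :
    (C.Glob (R := R) ε).FG := by
  obtain ⟨k, hk⟩ := Rl_split_fin' (ι := Fin r × Fin r) (a := C.f 0) (b := fun _ => C.f 1)
    (x := fun p => (ε 0).repr (ε 1 p.1) p.2) (fun p => by
      have := htr 1 0 p.1 p.2
      rw [R2, mul_comm] at this
      exact this)
  obtain ⟨u, hu⟩ := (C.unit 0).pow k
  let F : Submodule R S := Submodule.span R (Set.range fun i => (↑u⁻¹ : T) • ε 0 i)
  have hF : F.FG := Submodule.fg_span (Set.finite_range _)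
  have : IsNoetherian R F := isNoetherian_of_fg_of_noetherian F hF
  have hle : C.Glob (R := R) ε ≤ F := by
    intro x hx
    have hc : ∀ i, ∃ y : R, algebraMap R T y = algebraMap R T (C.f 0) ^ k * (ε 0).repr x i := by
      intro i
      refine hcap _ ?_ ?_
      · exact (C.R1 0).mul_mem ((C.R1 0).pow_mem ((C.R1 0).algebraMap_mem _) _) (hx 0 i)
      · rw [repr_change (ε 1) (ε 0) x i, Finset.mul_sum]
        refine (C.R1 1).sum_mem fun j _ => ?_
        rw [mul_left_comm]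
        exact (C.R1 1).mul_mem (hx 1 j) (hk (j, i))
    choose y hy using hc
    have hx' : x = ∑ i, y i • ((↑u⁻¹ : T) • ε 0 i) := by
      conv_lhs => rw [← (ε 0).sum_repr x]
      refine Finset.sum_congr rfl fun i _ => ?_
      rw [← algebraMap_smul T (y i), hy, ← hu, smul_smul]
      congr 1
      rw [mul_assoc, mul_comm ((ε 0).repr x i), ← mul_assoc, Units.mul_inv, one_mul]
    rw [hx']
    exact F.sum_mem fun i _ => F.smul_mem _ (Submodule.subset_span ⟨i, rfl⟩)
  exact isNoetherian_submodule.1 inferInstance _ hle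

theorem glob_regular (ε : Fin 3 → Basis (Fin r) T S)
    (hcap : ∀ x : T, x ∈ C.R1 0 → x ∈ C.R1 1 → ∃ y : R, algebraMap R T y = x) :
    RingTheory.Sequence.IsWeaklyRegular (C.Glob (R := R) ε) [C.f 0, C.f 1] := by
  have hreg : ∀ (a : Fin 3) (x : S), C.f a • x = 0 → x = 0 := by
    intro a x hx
    obtain ⟨u, hu⟩ := C.unit a
    rw [← algebraMap_smul T (C.f a) x, ← hu] at hx
    have := congrArg (fun y => (↑u⁻¹ : T) • y) hx
    simpa [smul_smul] using this
  rw [RingTheory.Sequence.isWeaklyRegular_cons_iff]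
  refine ⟨?_, ?_⟩
  · intro x y hxy
    have h1 : C.f 0 • ((x : S) - y) = 0 := by
      have := congrArg (fun z : C.Glob (R := R) ε => (z : S)) hxy
      simp only [Submodule.coe_smul] at this
      rw [smul_sub, this, sub_self]
    exact Subtype.ext (sub_eq_zero.1 (hreg 0 _ h1))
  · rw [RingTheory.Sequence.isWeaklyRegular_singleton_iff]
    rw [isSMulRegular_quotient_iff_mem_of_smul_mem]
    intro x hx
    rw [Submodule.mem_smul_pointwise_iff_exists] at hx ⊢
    obtain ⟨y, -, hy⟩ := hx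
    -- `x / f 0 = y / f 1`
    obtain ⟨u, hu⟩ := C.unit 0
    obtain ⟨u1, hu1⟩ := C.unit 1
    have hy' : C.f 0 • (y : S) = C.f 1 • (x : S) := congrArg Subtype.val hy
    let z : S := (↑u⁻¹ : T) • (x : S)
    have hz0 : C.f 0 • z = x := by
      rw [← algebraMap_smul T (C.f 0) z, ← hu, smul_smul, Units.mul_inv, one_smul]
    have hz1 : C.f 1 • z = y := by
      have h2 : C.f 0 • (C.f 1 • z - (y : S)) = 0 := by
        rw [smul_sub, smul_comm, hz0, hy', sub_self]
      exact sub_eq_zero.1 (hreg 0 _ h2)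
    have hzM : z ∈ C.Glob (R := R) ε := by
      refine C.glob_cap ε hcap z ⟨1, ?_⟩ ⟨1, ?_⟩
      · rw [pow_one, hz0]; exact x.2
      · rw [pow_one, hz1]; exact y.2
    exact ⟨⟨z, hzM⟩, trivial, Subtype.ext hz0⟩

end Cov

end Pool.Agent.Licci.U
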