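import Pool.Agent.Work.MP_a98e4e_ag.U.AG3

/-!
# Block (U3), part 4: `H^1(End E) = 0` from a trace-orthogonal basis, and `H^1(E) = 0`
-/

namespace Pool.Agent.Licci.U

open Module IsLocalRing

section lin

/-- If `Ψ ∘ Φ = id` between free modules of the same finite rank, then `Φ ∘ Ψ = id`. -/
theorem comp_eq_id_of_rank {T : Type*} [CommRing T] [Nontrivial T] {κ : Type*} [Fintype κ]
    {V : Type*} [AddCommGroup V] [Module T V] [Module.Free T V] [Module.Finite T V]
    (hV : Module.finrank T V = Fintype.card κ) (Φ : (κ → T) →ₗ[T] V) (Ψ : V →ₗ[T] (κ → T))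
    (h : Ψ ∘ₗ Φ = LinearMap.id) : Φ ∘ₗ Ψ = LinearMap.id := by
  have hfr : Module.finrank T (κ → T) = Module.finrank T V := by
    rw [hV, Module.finrank_fintype_fun_eq_card]
  let e : (κ → T) ≃ₗ[T] V := LinearEquiv.ofFinrankEq _ _ hfr
  have hs : Function.Surjective (Ψ ∘ₗ e.toLinearMap) := by
    intro y
    refine ⟨e.symm (Φ y), ?_⟩
    rw [LinearMap.comp_apply, LinearEquiv.coe_coe, LinearEquiv.apply_symm_apply]
    exact LinearMap.congr_fun h y
  have hi : Function.Injective (Ψ ∘ₗ e.toLinearMap) :=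
    OrzechProperty.injective_of_surjective_endomorphism _ hs
  have hΨ : Function.Injective Ψ := by
    intro x y hxy
    have : e.symm x = e.symm y := hi (by simpa using hxy)
    exact e.symm.injective this
  ext x
  apply hΨ
  have := LinearMap.congr_fun h (Ψ x)
  simpa using this

end lin

namespace Cov

variable {R : Type*} [CommRing R] {T : Type*} [CommRing T] [Algebra R T] (C : Cov R T)
variable {S : Type*} [AddCommGroup S] [Module R S] [Module T S] [IsScalarTower R T S] {r : ℕ}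

/-- `M` is regular for every pair regular on `R` -/
theorem glob_regular' (ε : Fin 3 → Basis (Fin r) T S)
    (hT : ∀ t : T, t ∈ Rl R T (C.f 0 * C.f 1 * C.f 2)) (y1 y2 : R)
    (hy : RingTheory.Sequence.IsWeaklyRegular R [y1, y2]) :
    RingTheory.Sequence.IsWeaklyRegular (C.Glob (R := R) ε) [y1, y2] := by
  rw [RingTheory.Sequence.isWeaklyRegular_cons_iff,
    RingTheory.Sequence.isWeaklyRegular_singleton_iff,
    isSMulRegular_quotient_iff_mem_of_smul_mem] at hy
  obtain ⟨hy1, hy2⟩ := hy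
  have hy1' : ∀ x : R, y1 * x = 0 → x = 0 := fun x hx => hy1 (by simpa using hx)
  have hgu : IsUnit (algebraMap R T (C.f 0 * C.f 1 * C.f 2)) := by
    rw [map_mul, map_mul]
    exact ((C.unit 0).mul (C.unit 1)).mul (C.unit 2)
  -- `y1` is a nonzerodivisor on `T`
  have hT1 : ∀ t : T, algebraMap R T y1 * t = 0 → t = 0 := by
    intro t ht
    obtain ⟨N, c, hc⟩ := hT t
    have h1 : y1 * c = 0 := by
      apply C.inj
      rw [map_mul, map_zero, ← hc, mul_left_comm, ht, mul_zero]
    rw [hy1' c h1, map_zero] at hc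
    exact ((hgu.pow N).mul_right_eq_zero).1 hc
  have hS1 : ∀ x : S, y1 • x = 0 → x = 0 := by
    intro x hx
    apply (ε 0).repr.injective
    refine Finsupp.ext fun i => ?_
    rw [map_zero, Finsupp.zero_apply]
    refine hT1 _ ?_
    rw [← smul_eq_mul, ← Finsupp.smul_apply, ← map_smul, algebraMap_smul, hx, map_zero,
      Finsupp.zero_apply]
  rw [RingTheory.Sequence.isWeaklyRegular_cons_iff]
  refine ⟨?_, ?_⟩
  · intro x y hxy
    have h1 : y1 • ((x : S) - y) = 0 := by
      have := congrArg (fun z : C.Glob (R := R) ε => (z : S)) hxy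
      simp only [Submodule.coe_smul] at this
      rw [smul_sub, this, sub_self]
    exact Subtype.ext (sub_eq_zero.1 (hS1 _ h1))
  · rw [RingTheory.Sequence.isWeaklyRegular_singleton_iff,
      isSMulRegular_quotient_iff_mem_of_smul_mem]
    intro x hx
    rw [Submodule.mem_smul_pointwise_iff_exists] at hx ⊢
    obtain ⟨y, -, hxy⟩ := hx
    have hxy' : y1 • (y : S) = y2 • (x : S) := congrArg Subtype.val hxy
    -- divide coordinatewise
    have hdiv : ∀ a i, ∃ c : T, c ∈ C.R1 a ∧ algebraMap R T y1 * c = (ε a).repr (x : S) i := by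
      intro a i
      have hx1 := x.2 a i
      have hy1'' := y.2 a i
      have he : algebraMap R T y1 * (ε a).repr (y : S) i =
          algebraMap R T y2 * (ε a).repr (x : S) i := by
        rw [← smul_eq_mul, ← smul_eq_mul, ← Finsupp.smul_apply, ← Finsupp.smul_apply,
          ← map_smul, ← map_smul, algebraMap_smul, algebraMap_smul, hxy']
      obtain ⟨N, c, hc⟩ := hx1
      obtain ⟨K, d, hd⟩ := hy1''
      -- common denominator
      have hc' : algebraMap R T (C.f a) ^ (N + K) * (ε a).repr (x : S) i =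
          algebraMap R T (C.f a ^ K * c) := by
        rw [map_mul, map_pow, ← hc]; ring
      have hd' : algebraMap R T (C.f a) ^ (N + K) * (ε a).repr (y : S) i =
          algebraMap R T (C.f a ^ N * d) := by
        rw [map_mul, map_pow, ← hd]; ring
      have h1 : y1 * (C.f a ^ N * d) = y2 * (C.f a ^ K * c) := by
        apply C.inj
        rw [map_mul (algebraMap R T) y1, map_mul (algebraMap R T) y2, ← hc', ← hd',
          mul_left_comm, he, mul_left_comm]
      have h2 := hy2 (C.f a ^ K * c) (by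
        rw [smul_eq_mul, ← h1]
        exact Submodule.smul_mem_pointwise_smul _ y1 ⊤ trivial)
      rw [Submodule.mem_smul_pointwise_iff_exists] at h2
      obtain ⟨e, -, he2⟩ := h2
      obtain ⟨u, hu⟩ := (C.unit a).pow (N + K)
      refine ⟨↑u⁻¹ * algebraMap R T e, ⟨N + K, e, by rw [← hu, Units.mul_inv_cancel_left]⟩, ?_⟩
      rw [mul_left_comm, ← map_mul, ← smul_eq_mul (a := y1), he2, ← hc', ← hu,
        Units.inv_mul_cancel_left]
    choose c hc1 hc2 using hdiv
    let z : Fin 3 → S := fun a => ∑ i, c a i • ε a i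
    have hz : ∀ a, y1 • z a = x := by
      intro a
      conv_rhs => rw [← (ε a).sum_repr (x : S)]
      simp only [z, Finset.smul_sum]
      refine Finset.sum_congr rfl fun i _ => ?_
      rw [← algebraMap_smul T y1, smul_smul, hc2]
    have hz0 : ∀ a, z a = z 0 := by
      intro a
      have : y1 • (z a - z 0) = 0 := by rw [smul_sub, hz, hz, sub_self]
      exact sub_eq_zero.1 (hS1 _ this)
    refine ⟨⟨z 0, fun a i => ?_⟩, trivial, Subtype.ext (hz 0)⟩
    rw [← hz0 a]
    simp only [z]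
    rw [map_sum, Finsupp.finsetSum_apply]
    refine (C.R1 a).sum_mem fun j _ => ?_
    rw [map_smul, Finsupp.smul_apply, Basis.repr_self, smul_eq_mul]
    refine (C.R1 a).mul_mem (hc1 a j) ?_
    rw [Finsupp.single_apply]
    split_ifs
    · exact (C.R1 a).one_mem
    · exact (C.R1 a).zero_mem

omit [Module R S] [IsScalarTower R T S] in
/-- image of `E1`-elements under endomorphisms with entries in `R_a` -/
theorem map_E1 (ε : Fin 3 → Basis (Fin r) T S) (a : Fin 3) (G : S →ₗ[T] S)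
    (hG : ∀ j i, (ε a).repr (G (ε a j)) i ∈ C.R1 a) {x : S} (hx : C.E1 ε a x) :
    C.E1 ε a (G x) := by
  intro i
  conv => rw [← (ε a).sum_repr x]
  rw [map_sum, map_sum, Finsupp.finsetSum_apply]
  refine (C.R1 a).sum_mem fun j _ => ?_
  rw [map_smul, map_smul, Finsupp.smul_apply, smul_eq_mul]
  exact (C.R1 a).mul_mem (hx j) (hG j i)

/-- `H^1(End E) = 0` -/
theorem h1_end [Nontrivial T] (ε : Fin 3 → Basis (Fin r) T S)
    (htrans : ∀ a b i j, (ε b).repr (ε a i) j ∈ C.R2 a b)
    {κ : Type*} [Fintype κ] [DecidableEq κ] (hcard : Fintype.card κ = r ^ 2)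
    (hH1 : ∀ x : Fin 3 → Fin 3 → κ → T, (∀ a b s, x a b s ∈ C.R2 a b) →
      (∀ a b c s, x a b s + x b c s = x a c s) →
      ∃ y : Fin 3 → κ → T, (∀ a s, y a s ∈ C.R1 a) ∧ ∀ a b s, x a b s = y b s - y a s)
    (hr : IsUnit (r : R)) (Γ Γ' : κ → (S →ₗ[T] S))
    (hE : ∀ a s j i, (ε a).repr (Γ s (ε a j)) i ∈ C.R1 a)
    (hE' : ∀ a s j i, (ε a).repr (Γ' s (ε a j)) i ∈ C.R1 a)
    (htr : ∀ s t, LinearMap.trace T S (Γ s ∘ₗ Γ' t) = if s = t then (r : T) else 0)
    (φ : Fin 3 → Fin 3 → (S →ₗ[T] S))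
    (hφ : ∀ a b, ∀ x ∈ C.Glob (R := R) ε, φ a b x ∈ EL (C.Glob (R := R) ε) (C.f a * C.f b))
    (hc : ∀ a b c, φ a b + φ b c = φ a c) :
    ∃ ψ : Fin 3 → (S →ₗ[T] S), (∀ a, ∀ x ∈ C.Glob (R := R) ε,
      ψ a x ∈ EL (C.Glob (R := R) ε) (C.f a)) ∧ ∀ a b, φ a b = ψ b - ψ a := by
  have : Module.Free T S := Module.Free.of_basis (ε 0)
  have : Module.Finite T S := Module.Finite.of_basis (ε 0)
  obtain ⟨u, hu⟩ := hr
  have hur : algebraMap R T (↑u⁻¹) * (r : T) = 1 := by
    rw [← map_natCast (algebraMap R T) r, ← hu, ← map_mul, Units.inv_mul, map_one]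
  let Φ : (κ → T) →ₗ[T] (S →ₗ[T] S) := Fintype.linearCombination T Γ
  let Ψ : (S →ₗ[T] S) →ₗ[T] (κ → T) := LinearMap.pi fun t =>
    (algebraMap R T ↑u⁻¹) • ((LinearMap.trace T S) ∘ₗ (LinearMap.lcomp T S (Γ' t)))
  have hΨ : ∀ (f : S →ₗ[T] S) t, Ψ f t = algebraMap R T ↑u⁻¹ * LinearMap.trace T S (f ∘ₗ Γ' t) :=
    fun f t => rfl
  have hΨΦ : Ψ ∘ₗ Φ = LinearMap.id := by
    refine LinearMap.pi_ext' fun s => LinearMap.ext_ring ?_
    funext t
    simp only [LinearMap.comp_apply, LinearMap.id_apply, LinearMap.single_apply]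
    rw [hΨ]
    have : Φ (Pi.single s 1) = Γ s := by
      simp [Φ, Fintype.linearCombination_apply, Pi.single_apply]
    rw [this, htr, Pi.single_apply]
    by_cases h : s = t
    · subst h; simp [hur]
    · rw [if_neg h, if_neg (Ne.symm h), mul_zero]
  have hΦΨ : Φ ∘ₗ Ψ = LinearMap.id := by
    refine comp_eq_id_of_rank ?_ Φ Ψ hΨΦ
    rw [Module.finrank_linearMap, Module.finrank_eq_card_basis (ε 0), Fintype.card_fin, hcard]
    ring
  have hexp : ∀ f : S →ₗ[T] S, ∑ t, Ψ f t • Γ t = f := by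
    intro f
    have := LinearMap.congr_fun hΦΨ f
    simpa [Φ, Fintype.linearCombination_apply] using this
  -- integrality of the coefficients
  have hint : ∀ a b t, Ψ (φ a b) t ∈ C.R2 a b := by
    intro a b t
    rw [hΨ, LinearMap.trace_eq_matrix_trace T (ε a), Matrix.trace]
    refine (C.R2 a b).mul_mem ((C.R2 a b).algebraMap_mem _) ?_
    refine (C.R2 a b).sum_mem fun i _ => ?_
    rw [Matrix.diag_apply, LinearMap.toMatrix_apply, LinearMap.comp_apply]
    obtain ⟨N, hN⟩ := C.EL_of_E1 (R := R) ε htrans a (x := Γ' t (ε a i)) (hE' a t i)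
    have h1 := C.coord_EL ε a (C.f b) (hφ a b _ hN) i
    rw [← algebraMap_smul T (C.f a ^ N), map_smul, map_smul, Finsupp.smul_apply, smul_eq_mul,
      map_pow] at h1
    exact Rl_of_pow_left h1
  obtain ⟨y, hy1, hy2⟩ := hH1 (fun a b t => Ψ (φ a b) t) hint (fun a b c t => by
    rw [← Pi.add_apply, ← map_add, hc])
  refine ⟨fun a => ∑ t, y a t • Γ t, ?_, ?_⟩
  · intro a x hx
    refine C.EL_of_E1 ε htrans a ?_
    rw [LinearMap.sum_apply]
    intro i
    rw [map_sum, Finsupp.finsetSum_apply]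
    refine (C.R1 a).sum_mem fun t _ => ?_
    rw [LinearMap.smul_apply, map_smul, Finsupp.smul_apply, smul_eq_mul]
    exact (C.R1 a).mul_mem (hy1 a t) (C.map_E1 ε a (Γ t) (hE a t) (hx a) i)
  · intro a b
    rw [← hexp (φ a b), ← Finset.sum_sub_distrib]
    refine Finset.sum_congr rfl fun t _ => ?_
    rw [hy2 a b t, sub_smul]

/-- if the module of global sections is free then `H^1(E) = 0` -/
theorem h1_of_free [Nontrivial R] (ε : Fin 3 → Basis (Fin r) T S)
    (hT : ∀ t : T, t ∈ Rl R T (C.f 0 * C.f 1 * C.f 2))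
    (htrans : ∀ a b i j, (ε b).repr (ε a i) j ∈ C.R2 a b)
    (hfg : (C.Glob (R := R) ε).FG) (hfree : Module.Free R (C.Glob (R := R) ε))
    (hH1 : ∀ (n : ℕ) (x : Fin 3 → Fin 3 → Fin n → T), (∀ a b s, x a b s ∈ C.R2 a b) →
      (∀ a b c s, x a b s + x b c s = x a c s) →
      ∃ y : Fin 3 → Fin n → T, (∀ a s, y a s ∈ C.R1 a) ∧ ∀ a b s, x a b s = y b s - y a s)
    (x : Fin 3 → Fin 3 → S) (hx : ∀ a b, C.E2 ε a b (x a b))
    (hc : ∀ a b c, x a b + x b c = x a c) :
    ∃ y : Fin 3 → S, (∀ a, C.E1 ε a (y a)) ∧ ∀ a b, x a b = y b - y a := by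
  have : Module.Finite R (C.Glob (R := R) ε) := Module.Finite.iff_fg.2 hfg
  let bM := Module.finBasis R (C.Glob (R := R) ε)
  set n := Module.finrank R (C.Glob (R := R) ε) with hn
  have hgu : IsUnit (algebraMap R T (C.f 0 * C.f 1 * C.f 2)) := by
    rw [map_mul, map_mul]
    exact ((C.unit 0).mul (C.unit 1)).mul (C.unit 2)
  -- coordinates
  have hspan : ∀ h : R, IsUnit (algebraMap R T h) → ∀ z ∈ EL (C.Glob (R := R) ε) h,
      ∃ t : Fin n → T, (∀ k, t k ∈ Rl R T h) ∧ ∑ k, t k • (bM k : S) = z := by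
    rintro h hh z ⟨N, hN⟩
    obtain ⟨u, hu⟩ := hh.pow N
    refine ⟨fun k => ↑u⁻¹ * algebraMap R T (bM.repr ⟨_, hN⟩ k),
      fun k => ⟨N, bM.repr ⟨_, hN⟩ k, by rw [← hu, Units.mul_inv_cancel_left]⟩, ?_⟩
    have h1 : ∑ k, bM.repr ⟨_, hN⟩ k • (bM k : S) = h ^ N • z := by
      have := congrArg (Submodule.subtype (C.Glob (R := R) ε)) (bM.sum_repr ⟨_, hN⟩)
      rw [map_sum] at this
      exact this
    have h2 : ∑ k, (↑u⁻¹ * algebraMap R T (bM.repr ⟨_, hN⟩ k)) • (bM k : S) =
        (↑u⁻¹ : T) • ∑ k, bM.repr ⟨_, hN⟩ k • (bM k : S) := by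
      rw [Finset.smul_sum]
      exact Finset.sum_congr rfl fun k _ => by rw [mul_smul, algebraMap_smul]
    rw [h2, h1, ← algebraMap_smul T (h ^ N), map_pow, ← hu, smul_smul, Units.inv_mul, one_smul]
  have hli : ∀ t : Fin n → T, ∑ k, t k • (bM k : S) = 0 → t = 0 := by
    intro t ht
    obtain ⟨N, hN⟩ := Rl_fin (fun k => hT (t k))
    choose c hc using hN
    have h1 : ∑ k, c k • bM k = 0 := by
      refine Subtype.ext ?_
      rw [Submodule.coe_sum]
      have : ∀ k, ((c k • bM k : C.Glob (R := R) ε) : S) =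
          algebraMap R T (C.f 0 * C.f 1 * C.f 2) ^ N • (t k • (bM k : S)) := by
        intro k
        rw [Submodule.coe_smul, ← algebraMap_smul T (c k), ← hc k, mul_smul]
      rw [Finset.sum_congr rfl fun k _ => this k, ← Finset.smul_sum, ht, smul_zero]
      rfl
    funext k
    have h2 := Fintype.linearIndependent_iff.1 bM.linearIndependent c h1 k
    have h3 := hc k
    rw [h2, map_zero] at h3
    exact ((hgu.pow N).mul_right_eq_zero).1 h3
  have hxEL : ∀ a b, x a b ∈ EL (C.Glob (R := R) ε) (C.f a * C.f b) := fun a b =>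
    C.EL_of_coord ε htrans a (C.f b) (hx a b)
  choose t ht1 ht2 using fun a b => hspan (C.f a * C.f b)
    (by rw [map_mul]; exact (C.unit a).mul (C.unit b)) (x a b) (hxEL a b)
  obtain ⟨y, hy1, hy2⟩ := hH1 n t (fun a b k => ht1 a b k) (by
    intro a b c k
    have h1 : (t a b + t b c - t a c) = 0 := by
      apply hli
      have : ∀ k, (t a b + t b c - t a c) k • (bM k : S) =
          t a b k • (bM k : S) + t b c k • (bM k : S) - t a c k • (bM k : S) := by
        intro k
        rw [Pi.sub_apply, Pi.add_apply, sub_smul, add_smul]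
      rw [Finset.sum_congr rfl fun k _ => this k, Finset.sum_sub_distrib,
        Finset.sum_add_distrib, ht2, ht2, ht2, hc, sub_self]
    have := congrFun h1 k
    rw [Pi.sub_apply, Pi.add_apply, Pi.zero_apply, sub_eq_zero] at this
    exact this)
  refine ⟨fun a => ∑ k, y a k • (bM k : S), ?_, ?_⟩
  · intro a
    refine C.coord_EL1 (R := R) ε a ?_
    exact comb_mem_EL (fun k => (bM k).2) (fun k => hy1 a k)
  · intro a b
    rw [← ht2 a b, ← Finset.sum_sub_distrib]
    refine Finset.sum_congr rfl fun k _ => ?_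
    rw [hy2 a b k, sub_smul]

end Cov

end Pool.Agent.Licci.U
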