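import Pool.Agent.Work.MP_a98e4e_ag.U.Base

/-!
# Block (U), module U4: anticommuting operators

`2 m` anticommuting operators with unit squares on a free module: the ordered monomials are
invertible and trace-orthogonal.
-/

namespace Pool.Agent.Licci.U

open Module

/-- the ordered monomials of a list of elements -/
def mon {E : Type*} [Monoid E] : (N : ℕ) → (Fin N → E) → (Fin N → Bool) → E
  | 0, _, _ => 1
  | N + 1, g, b => (if b 0 then g 0 else 1) * mon N (fun i => g i.succ) (fun i => b i.succ)

section algebra

variable {T E : Type*} [CommRing T] [Ring E] [Algebra T E]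

/-- moving an element past a monomial -/
theorem mon_comm (x : E) :
    ∀ (N : ℕ) (g : Fin N → E) (b : Fin N → Bool) (s : Fin N → T),
      (∀ i, x * g i = s i • (g i * x)) →
      x * mon N g b = (∏ i, if b i then s i else 1) • (mon N g b * x)
  | 0, g, b, s, _ => by simp [mon]
  | N + 1, g, b, s, h => by
    have ih := mon_comm x N (fun i => g i.succ) (fun i => b i.succ) (fun i => s i.succ)
      (fun i => h i.succ)
    rw [mon, Fin.prod_univ_succ]
    by_cases h0 : b 0 = true
    · rw [if_pos h0, if_pos h0, ← mul_assoc, h 0, smul_mul_assoc, mul_assoc, ih, mul_smul_comm,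
        smul_smul, mul_assoc]
    · rw [if_neg h0, if_neg h0, one_mul, one_mul, ih]

/-- the monomial of the zero exponent -/
theorem mon_false : ∀ (N : ℕ) (g : Fin N → E), mon N g (fun _ => false) = 1
  | 0, g => rfl
  | N + 1, g => by
    rw [mon, if_neg (by simp), one_mul]
    exact mon_false N _

/-- the product of two monomials is a unit multiple of a monomial -/
theorem mon_mul :
    ∀ (N : ℕ) (g : Fin N → E) (c : Fin N → T), (∀ i, IsUnit (c i)) →
      (∀ i, g i * g i = c i • (1 : E)) → (∀ i j, i ≠ j → g i * g j = -(g j * g i)) →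
      ∀ b b' : Fin N → Bool, ∃ u : T, IsUnit u ∧
        mon N g b * mon N g b' = u • mon N g (fun i => xor (b i) (b' i))
  | 0, g, c, _, _, _, b, b' => ⟨1, isUnit_one, by simp [mon]⟩
  | N + 1, g, c, hc, hsq, hanti, b, b' => by
    obtain ⟨u, hu, hm⟩ := mon_mul N (fun i => g i.succ) (fun i => c i.succ) (fun i => hc i.succ)
      (fun i => hsq i.succ) (fun i j hij => hanti _ _ (fun h => hij (Fin.succ_injective _ h)))
      (fun i => b i.succ) (fun i => b' i.succ)
    -- moving `g 0` past the tail
    have hcomm := mon_comm (T := T) (g 0) N (fun i => g i.succ) (fun i => b i.succ) (fun _ => -1)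
      (fun i => by
        rw [hanti 0 i.succ (Fin.succ_ne_zero i).symm, neg_smul, one_smul])
    set M := mon N (fun i => g i.succ) (fun i => b i.succ) with hM
    set M' := mon N (fun i => g i.succ) (fun i => b' i.succ) with hM'
    set e : T := ∏ i : Fin N, if b i.succ then (-1 : T) else 1 with he
    have hee : e * e = 1 := by
      rw [he, ← Finset.prod_mul_distrib]
      refine Finset.prod_eq_one (fun i _ => ?_)
      split_ifs <;> simp
    have hcomm' : M * g 0 = e • (g 0 * M) := by
      rw [hcomm, smul_smul, hee, one_smul]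
    have heu : IsUnit e := IsUnit.of_mul_eq_one _ hee
    show ∃ u : T, IsUnit u ∧ ((if b 0 then g 0 else 1) * M) * ((if b' 0 then g 0 else 1) * M') =
      u • ((if xor (b 0) (b' 0) then g 0 else 1) *
        mon N (fun i => g i.succ) (fun i => xor (b i.succ) (b' i.succ)))
    cases h0 : b 0 <;> cases h0' : b' 0
    · refine ⟨u, hu, ?_⟩
      simp [hm]
    · refine ⟨e * u, heu.mul hu, ?_⟩
      simp only [Bool.false_eq_true, if_false, if_true, Bool.false_xor, one_mul]
      rw [← mul_assoc, hcomm', smul_mul_assoc, mul_assoc, hm, mul_smul_comm, smul_smul]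
    · refine ⟨u, hu, ?_⟩
      simp only [Bool.false_eq_true, if_false, if_true, Bool.xor_false, one_mul]
      rw [mul_assoc, hm, mul_smul_comm]
    · refine ⟨e * (c 0 * u), heu.mul ((hc 0).mul hu), ?_⟩
      simp only [if_true, Bool.xor_self, Bool.false_eq_true, if_false, one_mul]
      rw [mul_assoc, ← mul_assoc M, hcomm', smul_mul_assoc, mul_smul_comm, mul_assoc (g 0) M M',
        ← mul_assoc (g 0) (g 0), hsq 0, hm, smul_mul_assoc, one_mul, smul_smul, smul_smul,
        mul_assoc]

/-- in `2 m` anticommuting elements, every nontrivial monomial anticommutes with a generator -/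
theorem mon_anti_exists {m : ℕ} (g : Fin (2 * m) → E)
    (hanti : ∀ i j, i ≠ j → g i * g j = -(g j * g i)) (b : Fin (2 * m) → Bool)
    (hb : b ≠ fun _ => false) :
    ∃ j, g j * mon _ g b = -(mon _ g b * g j) := by
  classical
  -- general formula
  have key : ∀ j : Fin (2 * m), g j * mon _ g b =
      (∏ i : Fin (2 * m), if b i then (if i = j then (1 : ℤ) else -1) else 1) •
        (mon _ g b * g j) := by
    intro j
    refine mon_comm (T := ℤ) (g j) _ g b (fun i => if i = j then (1 : ℤ) else -1) (fun i => ?_)
    split_ifs with h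
    · rw [h, one_smul]
    · rw [hanti j i (fun h' => h h'.symm), neg_smul, one_smul]
  set s : Finset (Fin (2 * m)) := Finset.univ.filter (fun i => b i = true) with hs
  have prodeq : ∀ j : Fin (2 * m),
      (∏ i : Fin (2 * m), if b i then (if i = j then (1 : ℤ) else -1) else 1) =
        ∏ i ∈ s, (if i = j then (1 : ℤ) else -1) := by
    intro j
    rw [hs, Finset.prod_filter]
  rcases Nat.even_or_odd s.card with hev | hodd
  · -- even number of factors: take one of them
    have hne : s.Nonempty := by
      by_contra hcon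
      rw [Finset.not_nonempty_iff_eq_empty] at hcon
      apply hb
      funext i
      by_contra hi
      have : i ∈ s := by
        rw [hs, Finset.mem_filter]
        exact ⟨Finset.mem_univ _, by simpa using hi⟩
      rw [hcon] at this
      exact absurd this (Finset.notMem_empty _)
    obtain ⟨j, hj⟩ := hne
    refine ⟨j, ?_⟩
    rw [key j, prodeq j, ← Finset.mul_prod_erase s _ hj, if_pos rfl, one_mul]
    have : ∏ x ∈ s.erase j, (if x = j then (1 : ℤ) else -1) = ∏ x ∈ s.erase j, (-1 : ℤ) := by
      refine Finset.prod_congr rfl (fun x hx => ?_)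
      rw [if_neg (Finset.ne_of_mem_erase hx)]
    rw [this, Finset.prod_const, Finset.card_erase_of_mem hj]
    have hpos : 0 < s.card := Finset.card_pos.mpr ⟨j, hj⟩
    have hodd' : Odd (s.card - 1) := by
      obtain ⟨k, hk⟩ := hev
      refine ⟨k - 1, ?_⟩
      omega
    rw [hodd'.neg_one_pow, neg_smul, one_smul]
  · -- odd number of factors: take a generator which does not occur
    have hex : ∃ j, j ∉ s := by
      by_contra hcon
      push Not at hcon
      have : s = Finset.univ := Finset.eq_univ_iff_forall.mpr hcon
      rw [this, Finset.card_univ, Fintype.card_fin] at hodd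
      exact (Nat.not_odd_iff_even.mpr (even_two_mul m)) hodd
    obtain ⟨j, hj⟩ := hex
    refine ⟨j, ?_⟩
    have : ∏ x ∈ s, (if x = j then (1 : ℤ) else -1) = ∏ x ∈ s, (-1 : ℤ) := by
      refine Finset.prod_congr rfl (fun x hx => ?_)
      rw [if_neg (fun h : x = j => hj (h ▸ hx))]
    rw [key j, prodeq j, this, Finset.prod_const, hodd.neg_one_pow, neg_smul, one_smul]

end algebra

/-- an operator anticommuting with an operator of unit square has trace zero -/
theorem trace_eq_zero_of_anti {T : Type*} [CommRing T] {S : Type*} [AddCommGroup S] [Module T S]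
    (h2 : IsUnit (2 : T)) (x M : S →ₗ[T] S) (c : T) (hc : IsUnit c)
    (hx : x * x = c • (1 : S →ₗ[T] S)) (h : x * M = -(M * x)) : LinearMap.trace T S M = 0 := by
  have h1 : LinearMap.trace T S (x * (M * x)) = c * LinearMap.trace T S M := by
    rw [LinearMap.trace_mul_comm, mul_assoc, hx, mul_smul_comm, mul_one, map_smul, smul_eq_mul]
  have h3 : LinearMap.trace T S (x * (M * x)) = -(c * LinearMap.trace T S M) := by
    rw [← mul_assoc, h, neg_mul, mul_assoc, hx, mul_smul_comm, mul_one, map_neg, map_smul,
      smul_eq_mul]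
  have h4 : (2 * c) * LinearMap.trace T S M = 0 := by
    have := h1.symm.trans h3
    linear_combination this
  exact (h2.mul hc).mul_left_cancel (by rw [h4, mul_zero])

/-- U4 : `2 m` anticommuting operators with unit squares `c i`, `S` free of rank `2 ^ m` :
the monomials are invertible and trace-orthogonal. -/
theorem anti {T : Type*} [CommRing T] {S : Type*} [AddCommGroup S] [Module T S]
    {r m : ℕ} (ε : Basis (Fin r) T S) (hr : r = 2 ^ m) (h2 : IsUnit (2 : T))
    (g : Fin (2 * m) → (S →ₗ[T] S)) (c : Fin (2 * m) → T) (hc : ∀ i, IsUnit (c i))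
    (hsq : ∀ i, g i * g i = c i • 1) (hanti : ∀ i j, i ≠ j → g i * g j = - (g j * g i)) :
    ∃ g' : (Fin (2 * m) → Bool) → (S →ₗ[T] S),
      (∀ b, mon _ g b * g' b = 1) ∧ (∀ b, g' b * mon _ g b = 1) ∧
      (∀ b, ∃ u : T, IsUnit u ∧ g' b = u • mon _ g b) ∧
      (∀ b b', LinearMap.trace T S (mon _ g b * g' b') = if b = b' then (r : T) else 0) := by
  classical
  -- squares of monomials
  have hsquare : ∀ b : Fin (2 * m) → Bool, ∃ u : T, IsUnit u ∧
      mon _ g b * mon _ g b = u • (1 : S →ₗ[T] S) := by
    intro b
    obtain ⟨u, hu, h⟩ := mon_mul (T := T) _ g c hc hsq hanti b b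
    refine ⟨u, hu, ?_⟩
    rw [h]
    simp only [Bool.xor_self]
    rw [mon_false]
  choose u hu hsqu using hsquare
  have hinv : ∀ b, ∃ v : T, IsUnit v ∧ v * u b = 1 := by
    intro b
    obtain ⟨w, hw⟩ := hu b
    exact ⟨((w⁻¹ : Tˣ) : T), Units.isUnit _, by rw [← hw]; exact Units.inv_mul w⟩
  choose v hv hvu using hinv
  have h1 : ∀ b, mon _ g b * (v b • mon _ g b) = 1 := by
    intro b
    rw [mul_smul_comm, hsqu, smul_smul, hvu, one_smul]
  refine ⟨fun b => v b • mon _ g b, h1, ?_, fun b => ⟨v b, hv b, rfl⟩, ?_⟩
  · intro b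
    rw [smul_mul_assoc, hsqu, smul_smul, hvu, one_smul]
  · intro b b'
    split_ifs with hbb
    · subst hbb
      rw [h1 b]
      have : Module.Free T S := Module.Free.of_basis ε
      have : Module.Finite T S := Module.Finite.of_basis ε
      rcases subsingleton_or_nontrivial T with hT | hT
      · exact Subsingleton.elim _ _
      · have := LinearMap.trace_one T S
        rw [this, Module.finrank_eq_card_basis ε, Fintype.card_fin]
    · obtain ⟨w, _, h⟩ := mon_mul (T := T) _ g c hc hsq hanti b b'
      show LinearMap.trace T S (mon _ g b * (v b' • mon _ g b')) = 0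
      rw [mul_smul_comm, h, map_smul, map_smul]
      have hne : (fun i => xor (b i) (b' i)) ≠ fun _ => false := by
        intro hcon
        apply hbb
        funext i
        have := congrFun hcon i
        simpa using this
      obtain ⟨j, hj⟩ := mon_anti_exists g hanti _ hne
      rw [trace_eq_zero_of_anti h2 (g j) _ (c j) (hc j) (hsq j) hj, smul_zero, smul_zero]

end Pool.Agent.Licci.U
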