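import Pool.Agent.Work.MP_a98e4e_ag.U.Anti

/-!
# Block (U), module U7a: `anti` with explicit inverse monomials
-/

namespace Pool.Agent.Licci.U

open Module

/-- the explicit inverse of a monomial (file U/Anti2.lean) -/
def mon' {E : Type*} [Monoid E] : (N : ℕ) → (Fin N → E) → (Fin N → Bool) → E
  | 0, _, _ => 1
  | N + 1, g, b => mon' N (fun i => g i.succ) (fun i => b i.succ) * (if b 0 then g 0 else 1)

theorem mon_mul_mon' {E : Type*} [Monoid E] : ∀ (N : ℕ) (g g' : Fin N → E),
    (∀ i, g i * g' i = 1) → ∀ b : Fin N → Bool, mon N g b * mon' N g' b = 1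
  | 0, _, _, _, _ => one_mul 1
  | N + 1, g, g', h, b => by
    have ih := mon_mul_mon' N (fun i => g i.succ) (fun i => g' i.succ) (fun i => h i.succ)
      (fun i => b i.succ)
    rw [mon, mon', mul_assoc, ← mul_assoc (mon N _ _) (mon' N _ _), ih, one_mul]
    by_cases h0 : b 0 = true
    · rw [if_pos h0, if_pos h0, h 0]
    · rw [if_neg h0, if_neg h0, one_mul]

theorem mon'_mul_mon {E : Type*} [Monoid E] : ∀ (N : ℕ) (g g' : Fin N → E),
    (∀ i, g' i * g i = 1) → ∀ b : Fin N → Bool, mon' N g' b * mon N g b = 1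
  | 0, _, _, _, _ => one_mul 1
  | N + 1, g, g', h, b => by
    have ih := mon'_mul_mon N (fun i => g i.succ) (fun i => g' i.succ) (fun i => h i.succ)
      (fun i => b i.succ)
    rw [mon, mon', mul_assoc, ← mul_assoc (if b 0 = true then g' 0 else 1)]
    by_cases h0 : b 0 = true
    · rw [if_pos h0, if_pos h0, h 0, one_mul, ih]
    · rw [if_neg h0, if_neg h0, one_mul, one_mul, ih]

/-- `anti` with the explicit inverse -/
theorem anti' {T : Type*} [CommRing T] {S : Type*} [AddCommGroup S] [Module T S]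
    {r m : ℕ} (ε : Basis (Fin r) T S) (h2 : IsUnit (2 : T))
    (g g' : Fin (2 * m) → (S →ₗ[T] S)) (hg : ∀ i, g i * g' i = 1) (hg' : ∀ i, g' i * g i = 1)
    (c : Fin (2 * m) → T) (hc : ∀ i, IsUnit (c i))
    (hsq : ∀ i, g i * g i = c i • 1) (hanti : ∀ i j, i ≠ j → g i * g j = - (g j * g i)) :
      (∀ b, mon _ g b * mon' _ g' b = 1) ∧ (∀ b, mon' _ g' b * mon _ g b = 1) ∧
      (∀ b b', LinearMap.trace T S (mon _ g b * mon' _ g' b') =
        if b = b' then (r : T) else 0) := by
  classical
  have h1 : ∀ b, mon _ g b * mon' _ g' b = 1 := mon_mul_mon' _ g g' hg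
  have h3 : ∀ b, mon' _ g' b * mon _ g b = 1 := mon'_mul_mon _ g g' hg'
  refine ⟨h1, h3, ?_⟩
  intro b b'
  split_ifs with hbb
  · subst hbb
    rw [h1 b]
    have : Module.Free T S := Module.Free.of_basis ε
    have : Module.Finite T S := Module.Finite.of_basis ε
    rcases subsingleton_or_nontrivial T with hT | hT
    · exact Subsingleton.elim _ _
    · have := LinearMap.trace_one T S
      rw [this, Module.finrank_eq_card_basis ε, Fintype.card_fin]
  · -- the inverse monomial is a multiple of the monomial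
    obtain ⟨u, hu, hsqu⟩ := mon_mul (T := T) _ g c hc hsq hanti b' b'
    simp only [Bool.xor_self] at hsqu
    rw [mon_false] at hsqu
    obtain ⟨v, hv⟩ := hu
    have hinv : mon' _ g' b' = ((v⁻¹ : Tˣ) : T) • mon _ g b' := by
      have h4 : mon' _ g' b' * (mon _ g b' * mon _ g b') = u • mon' _ g' b' := by
        rw [hsqu, mul_smul_comm, mul_one]
      rw [← mul_assoc, h3 b', one_mul] at h4
      rw [h4, ← hv, smul_smul, Units.inv_mul, one_smul]
    obtain ⟨w, _, h⟩ := mon_mul (T := T) _ g c hc hsq hanti b b'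
    rw [hinv, mul_smul_comm, h, map_smul, map_smul]
    have hne : (fun i => xor (b i) (b' i)) ≠ fun _ => false := by
      intro hcon
      apply hbb
      funext i
      have := congrFun hcon i
      simpa using this
    obtain ⟨j, hj⟩ := mon_anti_exists g hanti _ hne
    rw [trace_eq_zero_of_anti h2 (g j) _ (c j) (hc j) (hsq j) hj, smul_zero, smul_zero]

end Pool.Agent.Licci.U
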