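import Mathlib

/-!
# Block (U), base definitions

`R` a commutative ring, `T` an `R`-algebra, `f : Fin 3 → R` with `R → T` injective and all `f i`
units in `T`.  `Rl R T a` = elements of `T` with denominator a power of `a`.
-/

namespace Pool.Agent.Licci.U

open Module

section loc

variable (R : Type*) [CommRing R] (T : Type*) [CommRing T] [Algebra R T]

/-- the elements `x` of `T` with `a ^ N * x` in the image of `R` for some `N`. -/
def Rl (a : R) : Subalgebra R T where
  carrier := {x | ∃ (N : ℕ) (r : R), algebraMap R T a ^ N * x = algebraMap R T r}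
  mul_mem' := by
    rintro x y ⟨N, r, h⟩ ⟨M, s, h'⟩
    refine ⟨N + M, r * s, ?_⟩
    rw [pow_add, map_mul, ← h, ← h']; ring
  add_mem' := by
    rintro x y ⟨N, r, h⟩ ⟨M, s, h'⟩
    refine ⟨N + M, a ^ M * r + a ^ N * s, ?_⟩
    rw [pow_add, map_add, map_mul, map_mul, map_pow, map_pow, ← h, ← h']; ring
  algebraMap_mem' := fun r => ⟨0, r, by simp⟩

theorem mem_Rl {a : R} {x : T} :
    x ∈ Rl R T a ↔ ∃ (N : ℕ) (r : R), algebraMap R T a ^ N * x = algebraMap R T r := Iff.rfl

end loc

/-- the covering data: `R → T` injective, three elements which are units in `T`. -/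
structure Cov (R : Type*) [CommRing R] (T : Type*) [CommRing T] [Algebra R T] where
  f : Fin 3 → R
  inj : Function.Injective (algebraMap R T)
  unit : ∀ i, IsUnit (algebraMap R T (f i))

namespace Cov

variable {R : Type*} [CommRing R] {T : Type*} [CommRing T] [Algebra R T] (C : Cov R T)

/-- the chart ring `R_i`. -/
def R1 (i : Fin 3) : Subalgebra R T := Rl R T (C.f i)

/-- the overlap ring `R_ij`. -/
def R2 (i j : Fin 3) : Subalgebra R T := Rl R T (C.f i * C.f j)

/-- module elements with coordinates in the chart ring -/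
def E1 {S : Type*} [AddCommGroup S] [Module T S] {r : ℕ} (ε : Fin 3 → Basis (Fin r) T S)
    (i : Fin 3) (x : S) : Prop := ∀ a, (ε i).repr x a ∈ C.R1 i

/-- module elements with coordinates in the overlap ring -/
def E2 {S : Type*} [AddCommGroup S] [Module T S] {r : ℕ} (ε : Fin 3 → Basis (Fin r) T S)
    (i j : Fin 3) (x : S) : Prop := ∀ a, (ε i).repr x a ∈ C.R2 i j

end Cov

end Pool.Agent.Licci.U
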