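import Pool.Agent.Work.MP_a98e4e_ag.U.Span2

/-!
# Block (U7c): the operators `op e f = ad e ∘ cl f` on degree 1 and the maps `tau t`
-/

namespace Pool.Agent.Licci.U

open Module

universe u

variable {B : Type} [Fintype B] [DecidableEq B]

namespace XTab

variable (X : XTab B)

/-- extension by zero from degree `k` -/
def ext (k : ℤ) (A : Type u) [CommRing A] : ({b // X.deg b = k} → A) →ₗ[A] (B → A) where
  toFun x := fun b => if hb : X.deg b = k then x ⟨b, hb⟩ else 0
  map_add' x y := by funext b; by_cases hb : X.deg b = k <;> simp [hb]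
  map_smul' a x := by funext b; by_cases hb : X.deg b = k <;> simp [hb]

/-- restriction to degree `k` -/
def res (k : ℤ) (A : Type u) [CommRing A] : (B → A) →ₗ[A] ({b // X.deg b = k} → A) where
  toFun x := fun b => x b.1
  map_add' _ _ := rfl
  map_smul' _ _ := rfl

/-- `op e e' = ad e ∘ (cl e')` on degree 1 -/
noncomputable def op (A : Type u) [CommRing A] (e e' : B → A) :
    Module.End A ({b // X.deg b = 1} → A) :=
  X.res 1 A ∘ₗ X.br A e ∘ₗ bil X.cl A e' ∘ₗ X.ext 1 A

/-- the map induced on degree 1 by `t` -/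
noncomputable def tau (A : Type u) [CommRing A] (t : (B → A) ≃ₗ[A] (B → A)) :
    Module.End A ({b // X.deg b = 1} → A) :=
  X.res 1 A ∘ₗ (t : (B → A) →ₗ[A] (B → A)) ∘ₗ X.ext 1 A

variable {X}

omit [Fintype B] [DecidableEq B] in
theorem ext_apply (k : ℤ) (A : Type u) [CommRing A] (x : {b // X.deg b = k} → A) (b : B) :
    X.ext k A x b = if hb : X.deg b = k then x ⟨b, hb⟩ else 0 := rfl

omit [Fintype B] [DecidableEq B] in
theorem res_apply (k : ℤ) (A : Type u) [CommRing A] (x : B → A) (b : {b // X.deg b = k}) :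
    X.res k A x b = x b.1 := rfl

omit [Fintype B] [DecidableEq B] in
theorem ext_sup (k : ℤ) (A : Type u) [CommRing A] (x : {b // X.deg b = k} → A) :
    Sup X.deg k (X.ext k A x) := by
  intro b hb
  rw [ext_apply, dif_neg hb]

omit [Fintype B] [DecidableEq B] in
theorem res_ext (k : ℤ) (A : Type u) [CommRing A] (x : {b // X.deg b = k} → A) :
    X.res k A (X.ext k A x) = x := by
  funext b
  rw [res_apply, ext_apply, dif_pos b.2]

omit [Fintype B] [DecidableEq B] in
theorem ext_res (k : ℤ) (A : Type u) [CommRing A] (v : B → A) :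
    X.ext k A (X.res k A v) = prj X.deg k v := by
  funext b
  by_cases hb : X.deg b = k
  · rw [ext_apply, dif_pos hb, res_apply, prj, if_pos hb]
  · rw [ext_apply, dif_neg hb, prj, if_neg hb]

omit [Fintype B] [DecidableEq B] in
theorem ext_res_of_sup (k : ℤ) (A : Type u) [CommRing A] (v : B → A) (hv : Sup X.deg k v) :
    X.ext k A (X.res k A v) = v := by
  rw [ext_res]
  funext b
  by_cases hb : X.deg b = k
  · rw [prj, if_pos hb]
  · rw [prj, if_neg hb, hv b hb]

omit [Fintype B] [DecidableEq B] in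
theorem sup_ge {deg : B → ℤ} {k : ℤ} {A : Type u} [Zero A] {v : B → A} (h : Sup deg k v) :
    Ge deg k v := fun b hb => h b (by omega)

omit [Fintype B] [DecidableEq B] in
theorem ge_sub_prj {deg : B → ℤ} {k : ℤ} {A : Type u} [CommRing A] {v : B → A}
    (h : Ge deg k v) : Ge deg (k + 1) (v - prj deg k v) := by
  intro b hb
  rw [Pi.sub_apply, prj]
  by_cases hb' : deg b = k
  · rw [if_pos hb', sub_self]
  · rw [if_neg hb', sub_zero, h b (by omega)]

omit [Fintype B] [DecidableEq B] in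
theorem res_eq_zero_of_ge {k l : ℤ} {A : Type u} [CommRing A] {v : B → A} (h : Ge X.deg l v)
    (hkl : k < l) : X.res k A v = 0 := by
  funext b
  exact h b.1 (by have := b.2; omega)

omit [DecidableEq B] in
theorem tau_one' (A : Type u) [CommRing A] : X.tau A 1 = 1 := by
  refine LinearMap.ext fun x => ?_
  change X.res 1 A (X.ext 1 A x) = x
  exact res_ext 1 A x

theorem Good.tau_one (_hX : Good.{u} X) (A : Type u) [CommRing A] : X.tau A 1 = 1 := tau_one' A

/-- restriction of `t v` to degree 1, `v` in degree `≥ 1` -/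
theorem Good.res_tau (hX : Good.{u} X) (A : Type u) [CommRing A] [Algebra ℚ A]
    (t : (B → A) ≃ₗ[A] (B → A)) (ht : X.Aut2 A t) (v : B → A) (hv : Ge X.deg 1 v) :
    X.res 1 A (t v) = X.tau A t (X.res 1 A v) := by
  change X.res 1 A (t v) = X.res 1 A (t (X.ext 1 A (X.res 1 A v)))
  rw [ext_res]
  have h1 : Ge X.deg (1 + 1) (t (v - prj X.deg 1 v)) :=
    (hX.aut_ge A t ht _ _).2 (ge_sub_prj hv)
  have h2 := res_eq_zero_of_ge (X := X) (k := 1) h1 (by norm_num)
  rw [map_sub, map_sub, sub_eq_zero] at h2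
  exact h2

theorem Good.tau_mul (hX : Good.{u} X) (A : Type u) [CommRing A] [Algebra ℚ A]
    (t t' : (B → A) ≃ₗ[A] (B → A)) (ht : X.Aut2 A t) (ht' : X.Aut2 A t') :
    X.tau A (t' * t) = X.tau A t' * X.tau A t := by
  refine LinearMap.ext fun x => ?_
  change X.res 1 A (t' (t (X.ext 1 A x))) = X.tau A t' (X.tau A t x)
  rw [hX.res_tau A t' ht' _ ((hX.aut_ge A t ht _ _).2 (sup_ge (ext_sup 1 A x)))]
  rfl

theorem Good.cliff1' (hX : Good.{u} X) (A : Type u) [CommRing A] (h2 : IsUnit (2 : A))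
    (f v : B → A) (hf : Sup X.deg 2 f) (hv : Sup X.deg 1 v) :
    X.br A f (bil X.cl A f v) = qf X.q f f • v := by
  have h := hX.cliff1 A f f v hf hf hv
  rw [← two_smul A, mul_smul] at h
  exact h2.smul_left_cancel.1 h

theorem Good.cliff2' (hX : Good.{u} X) (A : Type u) [CommRing A] (h2 : IsUnit (2 : A))
    (f v : B → A) (hf : Sup X.deg 2 f) (hv : Sup X.deg (-1) v) :
    bil X.cl A f (X.br A f v) = qf X.q f f • v := by
  have h := hX.cliff2 A f f v hf hf hv
  rw [← two_smul A, mul_smul] at h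
  exact h2.smul_left_cancel.1 h

theorem Good.op_apply (hX : Good.{u} X) (A : Type u) [CommRing A] (e f : B → A)
    (he : Sup X.deg 2 e) (hf : Sup X.deg 2 f) (x : {b // X.deg b = 1} → A) :
    X.ext 1 A (X.op A e f x) = X.br A e (bil X.cl A f (X.ext 1 A x)) := by
  change X.ext 1 A (X.res 1 A (X.br A e (bil X.cl A f (X.ext 1 A x)))) = _
  apply ext_res_of_sup
  have h1 := hX.cl_sup A f (X.ext 1 A x) hf (ext_sup 1 A x)
  have h2 := hX.br_sup A 2 (-1) e _ he h1
  exact h2

omit [Fintype B] [DecidableEq B] in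
theorem ext_inj {k : ℤ} {A : Type u} [CommRing A] {x y : {b // X.deg b = k} → A}
    (h : X.ext k A x = X.ext k A y) : x = y := by
  rw [← res_ext (X := X) k A x, h, res_ext]

/-- orthogonal `e`, `e'` with `e''` of unit square `d`: `(op e e'') (op e' e'')` -/
theorem Good.op_op (hX : Good.{u} X) (A : Type u) [CommRing A] (e e' f : B → A)
    (he : Sup X.deg 2 e) (he' : Sup X.deg 2 e') (hf : Sup X.deg 2 f)
    (h3' : qf X.q f e' = 0) (h4 : IsUnit (2 : A)) (x : {b // X.deg b = 1} → A) :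
    X.ext 1 A (X.op A e f (X.op A e' f x)) =
      -(qf X.q f f • X.br A e (bil X.cl A e' (X.ext 1 A x))) := by
  rw [hX.op_apply A e f he hf, hX.op_apply A e' f he' hf]
  have h5 := hX.cl_sup A f (X.ext 1 A x) hf (ext_sup 1 A x)
  have h6 := hX.cliff2 A f e' _ hf he' h5
  rw [h3', mul_zero, zero_smul, hX.cliff1' A h4 f _ hf (ext_sup 1 A x)] at h6
  rw [eq_neg_of_add_eq_zero_left h6]
  rw [map_neg, map_smul, map_smul]

theorem Good.op_anti (hX : Good.{u} X) (A : Type u) [CommRing A] (e e' f : B → A)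
    (he : Sup X.deg 2 e) (he' : Sup X.deg 2 e') (hf : Sup X.deg 2 f) (h1 : qf X.q e e' = 0)
    (_h1' : qf X.q e' e = 0) (_h2 : qf X.q e f = 0) (h2' : qf X.q f e = 0)
    (_h3 : qf X.q e' f = 0) (h3' : qf X.q f e' = 0) (h4 : IsUnit (2 : A)) :
    X.op A e f * X.op A e' f = - (X.op A e' f * X.op A e f) := by
  refine LinearMap.ext fun x => ?_
  apply ext_inj (X := X)
  rw [LinearMap.neg_apply, map_neg, Module.End.mul_apply, Module.End.mul_apply]
  rw [hX.op_op A e e' f he he' hf h3' h4, hX.op_op A e' e f he' he hf h2' h4]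
  have h5 := hX.cliff1 A e e' (X.ext 1 A x) he he' (ext_sup 1 A x)
  rw [h1, mul_zero, zero_smul] at h5
  rw [eq_neg_of_add_eq_zero_left h5, smul_neg]

theorem Good.op_sq (hX : Good.{u} X) (A : Type u) [CommRing A] (e f : B → A)
    (he : Sup X.deg 2 e) (hf : Sup X.deg 2 f) (_h2 : qf X.q e f = 0) (h2' : qf X.q f e = 0)
    (h4 : IsUnit (2 : A)) :
    X.op A e f * X.op A e f = (-(qf X.q e e * qf X.q f f)) • (1 : Module.End A _) := by
  refine LinearMap.ext fun x => ?_
  apply ext_inj (X := X)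
  rw [Module.End.mul_apply, hX.op_op A e e f he he hf h2' h4,
    hX.cliff1' A h4 e _ he (ext_sup 1 A x), LinearMap.smul_apply, Module.End.one_apply, map_smul,
    smul_smul, ← neg_smul, mul_comm]

/-- naturality -/
theorem Good.op_nat (hX : Good.{u} X) (A : Type u) [CommRing A] [Algebra ℚ A]
    (t : (B → A) ≃ₗ[A] (B → A)) (ht : X.Aut2 A t) (e f : B → A) (he : Sup X.deg 2 e)
    (hf : Sup X.deg 2 f) (hq : qf X.q (t f) (t f) = qf X.q f f) (hu : IsUnit (qf X.q f f)) :
    X.tau A t * X.op A e f = X.op A (t e) (t f) * X.tau A t := by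
  have h4 : IsUnit (2 : A) := by
    have := (IsUnit.mk0 (2 : ℚ) (by norm_num)).map (algebraMap ℚ A)
    rwa [map_ofNat] at this
  have hte : Sup X.deg 2 (t e) := (ht.pres e).2 he
  have htf : Sup X.deg 2 (t f) := (ht.pres f).2 hf
  refine LinearMap.ext fun x => ?_
  apply ext_inj (X := X)
  rw [Module.End.mul_apply, Module.End.mul_apply, hX.op_apply A (t e) (t f) hte htf]
  set v : B → A := X.ext 1 A x with hv
  have hvs : Sup X.deg 1 v := ext_sup 1 A x
  set v' : B → A := bil X.cl A f v with hv'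
  have hvs' : Sup X.deg (-1) v' := hX.cl_sup A f v hf hvs
  have hge' : Ge X.deg (-1) (t v') := (hX.aut_ge A t ht _ _).2 (sup_ge hvs')
  have hge : Ge X.deg 1 (t v) := (hX.aut_ge A t ht _ _).2 (sup_ge hvs)
  -- degree 1 part of `[t f, t v'] = q(f,f) t v`
  have hprj : ∀ g : B → A, Sup X.deg 2 g →
      X.br A g (prj X.deg (-1) (t v')) = prj X.deg 1 (X.br A g (t v')) := by
    intro g hg
    have e1 : Ge X.deg (2 + (-1 + 1)) (X.br A g (t v' - prj X.deg (-1) (t v'))) :=
      hX.br_ge 2 (-1 + 1) _ _ (sup_ge hg) (ge_sub_prj hge')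
    have e2 : Sup X.deg (2 + -1) (X.br A g (prj X.deg (-1) (t v'))) :=
      hX.br_sup A 2 (-1) _ _ hg (prj_sup _ _ _)
    have e3 : X.br A g (t v') = X.br A g (prj X.deg (-1) (t v')) +
        X.br A g (t v' - prj X.deg (-1) (t v')) := by
      rw [← map_add, add_sub_cancel]
    rw [e3]
    funext b
    by_cases hb : X.deg b = 1
    · rw [prj, if_pos hb, Pi.add_apply, e1 b (by omega), add_zero]
    · rw [prj, if_neg hb, e2 b (by omega)]
  have hkey : prj X.deg (-1) (t v') = bil X.cl A (t f) (prj X.deg 1 (t v)) := by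
    have e1 : X.br A (t f) (t v') = qf X.q f f • t v := by
      rw [← ht.hom, hv', hX.cliff1' A h4 f v hf hvs, map_smul]
    have e2 : X.br A (t f) (prj X.deg (-1) (t v')) = qf X.q f f • prj X.deg 1 (t v) := by
      rw [hprj (t f) htf, e1]
      funext b
      by_cases hb : X.deg b = 1
      · simp [prj, hb]
      · simp [prj, hb]
    have e3 := hX.cliff2' A h4 (t f) (prj X.deg (-1) (t v')) htf (prj_sup _ _ _)
    rw [e2, map_smul, hq] at e3
    exact (hu.smul_left_cancel.1 e3).symm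
  change X.ext 1 A (X.res 1 A (t (X.ext 1 A (X.op A e f x)))) =
    X.br A (t e) (bil X.cl A (t f) (X.ext 1 A (X.res 1 A (t (X.ext 1 A x)))))
  rw [hX.op_apply A e f he hf, ← hv, ← hv', ht.hom, ext_res, ext_res, ← hprj (t e) hte, hkey]

end XTab

end Pool.Agent.Licci.U
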