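import Pool.Agent.Work.MP_a98e4e_ag.U.XTab

/-!
# Block (U7a): the filtration by degree, automorphisms and the Euler element
-/

namespace Pool.Agent.Licci.U

open Module

universe u

variable {B : Type} [Fintype B] [DecidableEq B]

/-- the component of degree `k`. -/
def prj (deg : B → ℤ) (k : ℤ) {A : Type u} [Zero A] (x : B → A) : B → A :=
  fun b => if deg b = k then x b else 0

omit [Fintype B] [DecidableEq B] in
theorem prj_sup (deg : B → ℤ) (k : ℤ) {A : Type u} [Zero A] (x : B → A) :
    Sup deg k (prj deg k x) := by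
  intro b hb
  simp [prj, hb]

omit [Fintype B] [DecidableEq B] in
theorem prj_apply (deg : B → ℤ) {A : Type u} [Zero A] (x : B → A) (b : B) :
    prj deg (deg b) x b = x b := by
  simp [prj]

omit [Fintype B] [DecidableEq B] in
theorem prj_eq_zero_of_ge {deg : B → ℤ} {k l : ℤ} {A : Type u} [Zero A] {x : B → A}
    (h : Ge deg k x) (hl : l < k) : prj deg l x = 0 := by
  funext b
  by_cases hb : deg b = l
  · simp [prj, hb, h b (by omega)]
  · simp [prj, hb]

namespace XTab

/-- `t` is an automorphism of the bracket over `A` which maps degree 2 onto degree 2 -/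
structure Aut2 (X : XTab B) (A : Type u) [CommRing A] (t : (B → A) ≃ₗ[A] (B → A)) : Prop where
  hom : ∀ x y, t (X.br A x y) = X.br A (t x) (t y)
  pres : ∀ e, Sup X.deg 2 (t e) ↔ Sup X.deg 2 e

/-- the operator `ad (h - w)` -/
def N (X : XTab B) (A : Type u) [CommRing A] (w : B → A) : (B → A) →ₗ[A] (B → A) :=
  X.br A ((fun b => (X.h b : A)) - w)

variable {X : XTab B}

omit [DecidableEq B] in
theorem Good.sum_prj (hX : Good.{u} X) {A : Type u} [CommRing A] (x : B → A) :
    ∑ k ∈ Finset.Icc (-2 : ℤ) 2, prj X.deg k x = x := by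
  funext b
  rw [Finset.sum_apply]
  simp only [prj]
  rw [Finset.sum_ite_eq]
  rw [if_pos]
  exact Finset.mem_Icc.2 ⟨hX.deg_ge b, hX.deg_le b⟩

theorem Good.br_apply_eq (hX : Good.{u} X) {A : Type u} [CommRing A] (l : ℤ) (v e : B → A)
    (he : Sup X.deg l e) (b : B) :
    X.br A v e b = X.br A (prj X.deg (X.deg b - l) v) e b := by
  conv_lhs => rw [← hX.sum_prj v]
  rw [map_sum, LinearMap.sum_apply, Finset.sum_apply]
  by_cases hb : X.deg b - l ∈ Finset.Icc (-2 : ℤ) 2
  · rw [Finset.sum_eq_single_of_mem _ hb]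
    intro k _ hk
    exact hX.br_sup A k l _ e (prj_sup _ _ _) he b (by omega)
  · rw [Finset.sum_eq_zero]
    · have : prj X.deg (X.deg b - l) v = 0 := by
        funext b'
        have h1 := hX.deg_ge b'
        have h2 := hX.deg_le b'
        have : X.deg b' ≠ X.deg b - l := by
          intro h
          exact hb (Finset.mem_Icc.2 ⟨by omega, by omega⟩)
        simp [prj, this]
      rw [this, map_zero]
      rfl
    · intro k hk
      refine hX.br_sup A k l _ e (prj_sup _ _ _) he b ?_
      intro h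
      apply hb
      have : X.deg b - l = k := by omega
      rw [this]
      exact hk

theorem Good.br_ge (hX : Good.{u} X) {A : Type u} [CommRing A] (k l : ℤ) (x y : B → A)
    (hx : Ge X.deg k x) (hy : Ge X.deg l y) : Ge X.deg (k + l) (X.br A x y) := by
  intro b hb
  conv_lhs => rw [← hX.sum_prj y]
  rw [map_sum, Finset.sum_apply]
  refine Finset.sum_eq_zero fun j _ => ?_
  rw [hX.br_apply_eq j x _ (prj_sup _ _ _) b]
  by_cases hj : j < l
  · rw [prj_eq_zero_of_ge hy hj, map_zero]
    rfl
  · rw [prj_eq_zero_of_ge hx (by omega : X.deg b - j < k), map_zero]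
    rfl

omit [DecidableEq B] in
theorem Good.eq_zero_of_ge (hX : Good.{u} X) {A : Type u} [CommRing A] {k : ℤ} (hk : 3 ≤ k)
    {x : B → A} (hx : Ge X.deg k x) : x = 0 := by
  funext b
  exact hx b (by have := hX.deg_le b; omega)

omit [DecidableEq B] in
theorem Good.ge_two_iff (hX : Good.{u} X) {A : Type u} [CommRing A] (x : B → A) :
    Ge X.deg 2 x ↔ Sup X.deg 2 x := by
  constructor
  · intro h b hb
    exact h b (by have := hX.deg_le b; omega)
  · intro h b hb
    exact h b (by omega)

omit [Fintype B] [DecidableEq B] in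
theorem ge_mono {deg : B → ℤ} {A : Type u} [Zero A] {k l : ℤ} (hkl : k ≤ l) {x : B → A}
    (h : Ge deg l x) : Ge deg k x := fun b hb => h b (by omega)

omit [DecidableEq B] in
theorem Good.ge_all (hX : Good.{u} X) {A : Type u} [CommRing A] {k : ℤ} (hk : k ≤ -2)
    (x : B → A) : Ge X.deg k x := by
  intro b hb
  have := hX.deg_ge b
  omega

theorem Good.br_eq_zero (hX : Good.{u} X) {A : Type u} [CommRing A] (v e : B → A)
    (hv : Ge X.deg 1 v) (he : Sup X.deg 2 e) : X.br A v e = 0 :=
  hX.eq_zero_of_ge (k := 1 + 2) (by norm_num) (hX.br_ge 1 2 v e hv ((hX.ge_two_iff e).2 he))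

theorem Good.prj_eq_zero (hX : Good.{u} X) {A : Type u} [CommRing A] [Algebra ℚ A] (k : ℤ)
    (hk : k ≤ 0) (v : B → A)
    (h : ∀ e : B → A, Sup X.deg 2 e → ∀ b, X.deg b = k + 2 → X.br A v e b = 0) :
    prj X.deg k v = 0 := by
  refine hX.inj A k _ hk (prj_sup _ _ _) fun e he => ?_
  funext b
  by_cases hb : X.deg b = k + 2
  · have := h e he b hb
    rw [hX.br_apply_eq 2 v e he b] at this
    rw [show X.deg b - 2 = k by omega] at this
    exact this
  · exact hX.br_sup A k 2 _ e (prj_sup _ _ _) he b hb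

omit [Fintype B] [DecidableEq B] in
theorem apply_eq_zero_of_prj {deg : B → ℤ} {A : Type u} [Zero A] {v : B → A} {b : B}
    (h : prj deg (deg b) v = 0) : v b = 0 := by
  rw [← prj_apply deg v b, h]
  rfl

theorem Good.ge_one_iff (hX : Good.{u} X) (A : Type u) [CommRing A] [Algebra ℚ A] (v : B → A) :
    Ge X.deg 1 v ↔ ∀ e, Sup X.deg 2 e → X.br A v e = 0 := by
  constructor
  · intro hv e he
    exact hX.br_eq_zero v e hv he
  · intro h b hb
    exact apply_eq_zero_of_prj (hX.prj_eq_zero (X.deg b) (by omega) v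
      fun e he b' _ => by rw [h e he]; rfl)

theorem Good.ge_zero_iff (hX : Good.{u} X) (A : Type u) [CommRing A] [Algebra ℚ A] (v : B → A) :
    Ge X.deg 0 v ↔ ∀ e, Sup X.deg 2 e → Sup X.deg 2 (X.br A v e) := by
  constructor
  · intro hv e he
    have := hX.br_ge 0 2 v e hv ((hX.ge_two_iff e).2 he)
    rw [zero_add] at this
    exact (hX.ge_two_iff _).1 this
  · intro h b hb
    exact apply_eq_zero_of_prj (hX.prj_eq_zero (X.deg b) (by omega) v
      fun e he b' hb' => h e he b' (by omega))

theorem Good.ge_neg_one_iff (hX : Good.{u} X) (A : Type u) [CommRing A] [Algebra ℚ A]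
    (v : B → A) :
    Ge X.deg (-1) v ↔ ∀ e, Sup X.deg 2 e → Ge X.deg 1 (X.br A v e) := by
  constructor
  · intro hv e he
    have := hX.br_ge (-1) 2 v e hv ((hX.ge_two_iff e).2 he)
    exact this
  · intro h b hb
    exact apply_eq_zero_of_prj (hX.prj_eq_zero (X.deg b) (by omega) v
      fun e he b' hb' => h e he b' (by omega))

/-- automorphisms preserving degree 2 preserve the filtration -/
theorem Good.aut_ge (hX : Good.{u} X) (A : Type u) [CommRing A] [Algebra ℚ A]
    (t : (B → A) ≃ₗ[A] (B → A)) (ht : X.Aut2 A t) (k : ℤ) (v : B → A) :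
    Ge X.deg k (t v) ↔ Ge X.deg k v := by
  have hsurj : ∀ e : B → A, Sup X.deg 2 e → ∃ e', Sup X.deg 2 e' ∧ t e' = e := by
    intro e he
    refine ⟨t.symm e, ?_, t.apply_symm_apply e⟩
    rw [← ht.pres, t.apply_symm_apply]
    exact he
  have h1 : ∀ v, Ge X.deg 1 (t v) ↔ Ge X.deg 1 v := by
    intro v
    rw [hX.ge_one_iff, hX.ge_one_iff]
    constructor
    · intro h e he
      have := h (t e) ((ht.pres e).2 he)
      rw [← ht.hom] at this
      exact (map_eq_zero_iff t t.injective).1 this
    · intro h e he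
      obtain ⟨e', he', rfl⟩ := hsurj e he
      rw [← ht.hom, h e' he', map_zero]
  have h0 : ∀ v, Ge X.deg 0 (t v) ↔ Ge X.deg 0 v := by
    intro v
    rw [hX.ge_zero_iff, hX.ge_zero_iff]
    constructor
    · intro h e he
      have := h (t e) ((ht.pres e).2 he)
      rw [← ht.hom] at this
      exact (ht.pres _).1 this
    · intro h e he
      obtain ⟨e', he', rfl⟩ := hsurj e he
      rw [← ht.hom]
      exact (ht.pres _).2 (h e' he')
  have hm1 : ∀ v, Ge X.deg (-1) (t v) ↔ Ge X.deg (-1) v := by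
    intro v
    rw [hX.ge_neg_one_iff, hX.ge_neg_one_iff]
    constructor
    · intro h e he
      have := h (t e) ((ht.pres e).2 he)
      rw [← ht.hom] at this
      exact (h1 _).1 this
    · intro h e he
      obtain ⟨e', he', rfl⟩ := hsurj e he
      rw [← ht.hom]
      exact (h1 _).2 (h e' he')
  rcases lt_or_ge 2 k with hk | hk
  · constructor
    · intro h
      have := hX.eq_zero_of_ge (by omega) h
      rw [(map_eq_zero_iff t t.injective).1 this]
      intro b _
      rfl
    · intro h
      rw [hX.eq_zero_of_ge (by omega) h, map_zero]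
      intro b _
      rfl
  rcases le_or_gt k (-2) with hk' | hk'
  · exact ⟨fun _ => hX.ge_all hk' _, fun _ => hX.ge_all hk' _⟩
  have : k = 2 ∨ k = 1 ∨ k = 0 ∨ k = -1 := by omega
  rcases this with rfl | rfl | rfl | rfl
  · rw [hX.ge_two_iff, hX.ge_two_iff]
    exact ht.pres v
  · exact h1 v
  · exact h0 v
  · exact hm1 v

theorem Good.br_h_two (hX : Good.{u} X) (A : Type u) [CommRing A] (e : B → A)
    (he : Sup X.deg 2 e) : X.br A (fun b => (X.h b : A)) e = (2 : A) • e := by
  rw [hX.br_h]
  funext b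
  by_cases hb : X.deg b = 2
  · simp [hb]
  · simp [he b hb]

/-- ... and the Euler element modulo degree `≥ 1` -/
theorem Good.aut_h (hX : Good.{u} X) (A : Type u) [CommRing A] [Algebra ℚ A]
    (t : (B → A) ≃ₗ[A] (B → A)) (ht : X.Aut2 A t) :
    Ge X.deg 1 (t (fun b => (X.h b : A)) - fun b => (X.h b : A)) := by
  rw [hX.ge_one_iff]
  intro e he
  rw [map_sub, LinearMap.sub_apply, hX.br_h_two A e he]
  have h2 : Sup X.deg 2 (t.symm e) := by
    rw [← ht.pres, t.apply_symm_apply]
    exact he
  have := ht.hom (fun b => (X.h b : A)) (t.symm e)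
  rw [hX.br_h_two A _ h2, map_smul, t.apply_symm_apply] at this
  rw [← this, sub_self]

theorem Good.euler_step (hX : Good.{u} X) (A : Type u) [CommRing A] (w : B → A)
    (hw : Ge X.deg 1 w) (k : ℤ) (v : B → A) (hv : Ge X.deg k v) :
    Ge X.deg (k + 1) (X.N A w v - (k : A) • v) := by
  intro b hb
  have h1 : X.br A w v b = 0 := by
    have := hX.br_ge 1 k w v hw hv
    exact this b (by omega)
  have h2 : X.N A w v b = (X.deg b : A) * v b := by
    rw [N, map_sub, LinearMap.sub_apply, hX.br_h, Pi.sub_apply, h1, sub_zero]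
  rw [Pi.sub_apply, h2, Pi.smul_apply, smul_eq_mul]
  by_cases hb' : X.deg b = k
  · rw [hb', sub_self]
  · rw [hv b (by omega)]
    simp

theorem Good.euler_annih (hX : Good.{u} X) (A : Type u) [CommRing A] (w : B → A)
    (hw : Ge X.deg 1 w) :
    (X.N A w - 2) * ((X.N A w + 2) * (X.N A w + 1) * X.N A w * (X.N A w - 1)) =
      (0 : (B → A) →ₗ[A] (B → A)) := by
  have hre : (X.N A w - 2) * ((X.N A w + 2) * (X.N A w + 1) * X.N A w * (X.N A w - 1)) =
      (X.N A w - 2) * ((X.N A w - 1) * (X.N A w * ((X.N A w + 1) * (X.N A w + 2)))) := by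
    have h := congrArg (Polynomial.aeval (R := A) (X.N A w))
      (show (Polynomial.X - 2) * ((Polynomial.X + 2) * (Polynomial.X + 1) * Polynomial.X *
          (Polynomial.X - 1)) = (Polynomial.X - 2) * ((Polynomial.X - 1) * (Polynomial.X *
          ((Polynomial.X + 1) * (Polynomial.X + 2)))) by ring)
    simpa only [map_mul, map_sub, map_add, Polynomial.aeval_X, map_one, map_ofNat] using h
  rw [hre]
  have two : ∀ v : B → A, (2 : (B → A) →ₗ[A] (B → A)) v = (2 : A) • v := by
    intro v
    have : (2 : (B → A) →ₗ[A] (B → A)) = 1 + 1 := by norm_num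
    rw [this, LinearMap.add_apply, two_smul]
    rfl
  have e1 : ∀ v : B → A, X.N A w v - ((-2 : ℤ) : A) • v = (X.N A w + 2) v := by
    intro v
    rw [LinearMap.add_apply, two]
    push_cast
    rw [neg_smul, sub_neg_eq_add]
  have e2 : ∀ v : B → A, X.N A w v - ((-1 : ℤ) : A) • v = (X.N A w + 1) v := by
    intro v
    rw [LinearMap.add_apply, Module.End.one_apply]
    push_cast
    rw [neg_smul, sub_neg_eq_add, one_smul]
  have e3 : ∀ v : B → A, X.N A w v - ((0 : ℤ) : A) • v = X.N A w v := by
    intro v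
    push_cast
    rw [zero_smul, sub_zero]
  have e4 : ∀ v : B → A, X.N A w v - ((1 : ℤ) : A) • v = (X.N A w - 1) v := by
    intro v
    rw [LinearMap.sub_apply, Module.End.one_apply]
    push_cast
    rw [one_smul]
  have e5 : ∀ v : B → A, X.N A w v - ((2 : ℤ) : A) • v = (X.N A w - 2) v := by
    intro v
    rw [LinearMap.sub_apply, two]
    push_cast
    rfl
  refine LinearMap.ext fun v => ?_
  have s1 := hX.euler_step A w hw (-2) v (hX.ge_all le_rfl v)
  rw [e1, show (-2 : ℤ) + 1 = -1 by norm_num] at s1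
  have s2 := hX.euler_step A w hw (-1) _ s1
  rw [e2, show (-1 : ℤ) + 1 = 0 by norm_num] at s2
  have s3 := hX.euler_step A w hw 0 _ s2
  rw [e3, show (0 : ℤ) + 1 = 1 by norm_num] at s3
  have s4 := hX.euler_step A w hw 1 _ s3
  rw [e4, show (1 : ℤ) + 1 = 2 by norm_num] at s4
  have s5 := hX.euler_step A w hw 2 _ s4
  rw [e5] at s5
  have s6 := hX.eq_zero_of_ge (by norm_num) s5
  simpa only [Module.End.mul_apply, LinearMap.zero_apply] using s6

theorem Good.euler_ker (hX : Good.{u} X) (A : Type u) [CommRing A] [Algebra ℚ A] (w v : B → A)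
    (hw : Ge X.deg 1 w) (hv : X.N A w v = (2 : A) • v) : Sup X.deg 2 v := by
  have step : ∀ k : ℤ, k < 2 → Ge X.deg k v → Ge X.deg (k + 1) v := by
    intro k hk h
    have := hX.euler_step A w hw k v h
    rw [hv, ← sub_smul] at this
    intro b hb
    have h2 := this b hb
    rw [Pi.smul_apply, smul_eq_mul] at h2
    have hu : IsUnit ((2 : A) - (k : A)) := by
      have hq : ((2 : ℚ) - (k : ℚ)) ≠ 0 := by
        have : (k : ℚ) < 2 := by exact_mod_cast hk
        linarith
      have := (IsUnit.mk0 _ hq).map (algebraMap ℚ A)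
      rwa [map_sub, map_intCast, map_ofNat] at this
    exact (hu.mul_right_eq_zero).1 h2
  have h0 := hX.ge_all (A := A) le_rfl v
  have h1 := step _ (by norm_num) h0
  have h2 := step _ (by norm_num) h1
  have h3 := step _ (by norm_num) h2
  have h4 := step _ (by norm_num) h3
  exact (hX.ge_two_iff v).1 (by simpa using h4)

theorem Good.euler_two (hX : Good.{u} X) (A : Type u) [CommRing A] (w v : B → A)
    (hw : Ge X.deg 1 w) (hv : Sup X.deg 2 v) : X.N A w v = (2 : A) • v := by
  rw [N, map_sub, LinearMap.sub_apply, hX.br_h_two A v hv, hX.br_eq_zero w v hw hv, sub_zero]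

end XTab

end Pool.Agent.Licci.U
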