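import Mathlib

/-!
# Block (U), module U5: diagonalising a unimodular symmetric matrix over a local ring with `1/2`
-/

namespace Pool.Agent.Licci.U

open Matrix

namespace Orth

variable {R : Type*} [CommRing R]

/-- the block diagonal matrix `(a) ⊕ M`. -/
def ext {N : ℕ} (a : R) (M : Matrix (Fin N) (Fin N) R) : Matrix (Fin (N + 1)) (Fin (N + 1)) R :=
  Matrix.of (Fin.cons (Fin.cons a 0) (fun i => Fin.cons 0 (M i)))

@[simp] theorem ext_zero_zero {N : ℕ} (a : R) (M : Matrix (Fin N) (Fin N) R) :
    ext a M 0 0 = a := rfl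

@[simp] theorem ext_zero_succ {N : ℕ} (a : R) (M : Matrix (Fin N) (Fin N) R) (j : Fin N) :
    ext a M 0 j.succ = 0 := rfl

@[simp] theorem ext_succ_zero {N : ℕ} (a : R) (M : Matrix (Fin N) (Fin N) R) (i : Fin N) :
    ext a M i.succ 0 = 0 := rfl

@[simp] theorem ext_succ_succ {N : ℕ} (a : R) (M : Matrix (Fin N) (Fin N) R) (i j : Fin N) :
    ext a M i.succ j.succ = M i j := rfl

theorem eq_ext {N : ℕ} (B : Matrix (Fin (N + 1)) (Fin (N + 1)) R)
    (h1 : ∀ j : Fin N, B 0 j.succ = 0) (h2 : ∀ i : Fin N, B i.succ 0 = 0) :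
    B = ext (B 0 0) (B.submatrix Fin.succ Fin.succ) := by
  ext i j
  refine Fin.cases ?_ (fun i => ?_) i <;> refine Fin.cases ?_ (fun j => ?_) j
  · rfl
  · simp [h1]
  · simp [h2]
  · rfl

theorem ext_mul {N : ℕ} (a b : R) (M M' : Matrix (Fin N) (Fin N) R) :
    ext a M * ext b M' = ext (a * b) (M * M') := by
  ext i j
  rw [Matrix.mul_apply, Fin.sum_univ_succ]
  refine Fin.cases ?_ (fun i => ?_) i <;> refine Fin.cases ?_ (fun j => ?_) j <;>
    simp [Matrix.mul_apply]

theorem ext_transpose {N : ℕ} (a : R) (M : Matrix (Fin N) (Fin N) R) :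
    (ext a M).transpose = ext a M.transpose := by
  ext i j
  rw [Matrix.transpose_apply]
  refine Fin.cases ?_ (fun i => ?_) i <;> refine Fin.cases ?_ (fun j => ?_) j <;> simp

theorem ext_diagonal {N : ℕ} (a : R) (d : Fin N → R) :
    ext a (Matrix.diagonal d) = Matrix.diagonal (Fin.cons a d : Fin (N + 1) → R) := by
  ext i j
  refine Fin.cases ?_ (fun i => ?_) i <;> refine Fin.cases ?_ (fun j => ?_) j
  · simp
  · rw [Matrix.diagonal_apply_ne _ (Fin.succ_ne_zero j).symm]; rfl
  · rw [Matrix.diagonal_apply_ne _ (Fin.succ_ne_zero i)]; rfl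
  · rw [ext_succ_succ, Matrix.diagonal_apply, Matrix.diagonal_apply]
    simp

theorem ext_det {N : ℕ} (a : R) (M : Matrix (Fin N) (Fin N) R) :
    (ext a M).det = a * M.det := by
  rw [Matrix.det_succ_row_zero, Fin.sum_univ_succ]
  have : (ext a M).submatrix Fin.succ Fin.succ = M := by
    ext i j; simp
  simp [this]

/-- the conclusion of `orth`. -/
def Diag {N : ℕ} (B : Matrix (Fin N) (Fin N) R) : Prop :=
  ∃ (P : Matrix (Fin N) (Fin N) R) (d : Fin N → R), IsUnit P.det ∧ (∀ i, IsUnit (d i)) ∧
    P.transpose * B * P = Matrix.diagonal d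

theorem Diag.congr {N : ℕ} {B : Matrix (Fin N) (Fin N) R} (Q : Matrix (Fin N) (Fin N) R)
    (hQ : IsUnit Q.det) (h : Diag (Q.transpose * B * Q)) : Diag B := by
  obtain ⟨P, d, hP, hd, e⟩ := h
  refine ⟨Q * P, d, ?_, hd, ?_⟩
  · rw [Matrix.det_mul]; exact hQ.mul hP
  · rw [← e, Matrix.transpose_mul]; simp only [Matrix.mul_assoc]

theorem symm_congr {N : ℕ} {B : Matrix (Fin N) (Fin N) R} (hB : B.transpose = B)
    (Q : Matrix (Fin N) (Fin N) R) : (Q.transpose * B * Q).transpose = Q.transpose * B * Q := by
  rw [Matrix.transpose_mul, Matrix.transpose_mul, Matrix.transpose_transpose, hB, Matrix.mul_assoc]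

theorem unit_congr {N : ℕ} {B : Matrix (Fin N) (Fin N) R} (hB : IsUnit B.det)
    (Q : Matrix (Fin N) (Fin N) R) (hQ : IsUnit Q.det) : IsUnit (Q.transpose * B * Q).det := by
  rw [Matrix.det_mul, Matrix.det_mul, Matrix.det_transpose]
  exact (hQ.mul hB).mul hQ

/-- the induction step when the corner is a unit. -/
theorem step_corner {N : ℕ} (ih : ∀ B : Matrix (Fin N) (Fin N) R, B.transpose = B → IsUnit B.det → Diag B)
    (B : Matrix (Fin (N + 1)) (Fin (N + 1)) R) (hB : B.transpose = B) (hu : IsUnit B.det)
    (h0 : IsUnit (B 0 0)) : Diag B := by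
  obtain ⟨w, hw⟩ := h0.exists_left_inv
  have hsym : ∀ i j, B i j = B j i := fun i j => by
    conv_lhs => rw [← hB]
    rfl
  -- the clearing matrix
  let Q : Matrix (Fin (N + 1)) (Fin (N + 1)) R :=
    Matrix.of (Fin.cons (Fin.cons 1 (fun j => - (w * B 0 j.succ))) (fun i => Fin.cons 0 (fun j => if i = j then 1 else 0)))
  have Q00 : Q 0 0 = 1 := rfl
  have Q0s : ∀ j : Fin N, Q 0 j.succ = - (w * B 0 j.succ) := fun _ => rfl
  have Qs0 : ∀ i : Fin N, Q i.succ 0 = 0 := fun _ => rfl
  have Qss : ∀ i j : Fin N, Q i.succ j.succ = if i = j then 1 else 0 := fun _ _ => rfl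
  have hQdet : Q.det = 1 := by
    rw [Matrix.det_succ_column_zero, Fin.sum_univ_succ]
    have : Q.submatrix Fin.succ Fin.succ = 1 := by
      ext i j
      rw [Matrix.submatrix_apply, Qss, Matrix.one_apply]
    simp [Qs0, Q00, this]
  have hQu : IsUnit Q.det := by rw [hQdet]; exact isUnit_one
  refine Diag.congr Q hQu ?_
  set B' := Q.transpose * B * Q with hB'
  have hB's : B'.transpose = B' := symm_congr hB Q
  have hB'u : IsUnit B'.det := unit_congr hu Q hQu
  have hBQ0 : ∀ i, (B * Q) i 0 = B i 0 := by
    intro i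
    rw [Matrix.mul_apply, Fin.sum_univ_succ]
    simp [Q00, Qs0]
  have hcol : ∀ i : Fin N, B' i.succ 0 = 0 := by
    intro i
    rw [hB', Matrix.mul_assoc, Matrix.mul_apply, Fin.sum_univ_succ]
    simp only [Matrix.transpose_apply, hBQ0, Q0s, Qss]
    simp only [ite_mul, one_mul, zero_mul, Finset.sum_ite_eq', Finset.mem_univ, if_true]
    rw [hsym i.succ 0]
    linear_combination (-(B 0 i.succ)) * hw
  have hrow : ∀ i : Fin N, B' 0 i.succ = 0 := by
    intro i
    have : B' 0 i.succ = B'.transpose i.succ 0 := rfl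
    rw [this, hB's]
    exact hcol i
  have he := eq_ext B' hrow hcol
  have h00 : B' 0 0 = B 0 0 := by
    rw [hB', Matrix.mul_assoc, Matrix.mul_apply, Fin.sum_univ_succ]
    simp [Matrix.transpose_apply, hBQ0, Q00, Qs0]
  set C := B'.submatrix Fin.succ Fin.succ with hC
  have hCs : C.transpose = C := by
    ext i j
    have : C.transpose i j = B'.transpose i.succ j.succ := rfl
    rw [this, hB's]; rfl
  have hCu : IsUnit C.det := by
    rw [he, ext_det] at hB'u
    exact isUnit_of_mul_isUnit_right hB'u
  obtain ⟨P, d, hP, hd, e⟩ := ih C hCs hCu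
  refine ⟨ext 1 P, Fin.cons (B' 0 0) d, ?_, ?_, ?_⟩
  · rw [ext_det, one_mul]; exact hP
  · intro i
    refine Fin.cases ?_ (fun i => ?_) i
    · rw [Fin.cons_zero, h00]; exact h0
    · rw [Fin.cons_succ]; exact hd i
  · rw [he, ext_transpose, ext_mul, ext_mul, e, ext_diagonal]
    simp

/-- the induction step when some diagonal entry is a unit. -/
theorem step_diag {N : ℕ} (ih : ∀ B : Matrix (Fin N) (Fin N) R, B.transpose = B → IsUnit B.det → Diag B)
    (B : Matrix (Fin (N + 1)) (Fin (N + 1)) R) (hB : B.transpose = B) (hu : IsUnit B.det)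
    (i : Fin (N + 1)) (hi : IsUnit (B i i)) : Diag B := by
  let σ : Equiv.Perm (Fin (N + 1)) := Equiv.swap 0 i
  let Q : Matrix (Fin (N + 1)) (Fin (N + 1)) R := (1 : Matrix _ _ R).submatrix id σ
  have hQu : IsUnit Q.det := by
    have : Q.det = Equiv.Perm.sign σ * (1 : Matrix (Fin (N + 1)) (Fin (N + 1)) R).det := by
      exact Matrix.det_permute' σ 1
    rw [this, Matrix.det_one, mul_one]
    rcases Int.units_eq_one_or (Equiv.Perm.sign σ) with h | h <;> simp [h]
  have hQ : Q.transpose * B * Q = B.submatrix σ σ := by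
    ext a b
    simp only [Q, Matrix.mul_apply, Matrix.transpose_apply, Matrix.submatrix_apply, id_eq,
      Matrix.one_apply, ite_mul, one_mul, zero_mul, mul_ite, mul_one, mul_zero,
      Finset.sum_ite_eq', Finset.mem_univ, if_true]
  refine Diag.congr Q hQu ?_
  refine step_corner ih _ (symm_congr hB Q) (unit_congr hu Q hQu) ?_
  rw [hQ]
  simpa [σ] using hi

end Orth

open Orth

/-- U5 : a unimodular symmetric matrix over a local ring with `1/2` can be diagonalised, unit diagonal. -/
theorem orth {R : Type*} [CommRing R] [IsLocalRing R] (h2 : IsUnit (2 : R)) {N : ℕ}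
    (B : Matrix (Fin N) (Fin N) R) (hB : B.transpose = B) (hu : IsUnit B.det) :
    ∃ (P : Matrix (Fin N) (Fin N) R) (d : Fin N → R), IsUnit P.det ∧ (∀ i, IsUnit (d i)) ∧
      P.transpose * B * P = Matrix.diagonal d := by
  induction N with
  | zero =>
    refine ⟨1, 0, by simp, fun i => i.elim0, ?_⟩
    ext i; exact i.elim0
  | succ N ih =>
    have ih' : ∀ B : Matrix (Fin N) (Fin N) R, B.transpose = B → IsUnit B.det → Diag B :=
      fun B hB hu => ih B hB hu
    change Diag B
    by_cases hd : ∃ i, IsUnit (B i i)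
    · obtain ⟨i, hi⟩ := hd
      exact step_diag ih' B hB hu i hi
    · push Not at hd
      -- some entry is a unit
      have hex : ∃ i j, IsUnit (B i j) := by
        by_contra hne
        push Not at hne
        have hmem : ∀ i j, B i j ∈ IsLocalRing.maximalIdeal R := fun i j => hne i j
        have : B.det ∈ IsLocalRing.maximalIdeal R := by
          rw [Matrix.det_succ_row_zero]
          refine Ideal.sum_mem _ fun j _ => ?_
          exact Ideal.mul_mem_right _ _ (Ideal.mul_mem_left _ _ (hmem 0 j))
        exact this hu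
      obtain ⟨i, j, hij⟩ := hex
      have hne : i ≠ j := by
        rintro rfl
        exact hd i hij
      have hsym : B j i = B i j := by
        conv_lhs => rw [← hB]
        rfl
      let Q : Matrix (Fin (N + 1)) (Fin (N + 1)) R := Matrix.transvection j i 1
      have hQu : IsUnit Q.det := by
        rw [show Q.det = 1 from Matrix.det_transvection_of_ne j i hne.symm 1]
        exact isUnit_one
      refine Diag.congr Q hQu ?_
      refine step_diag ih' _ (symm_congr hB Q) (unit_congr hu Q hQu) i ?_
      have hval : (Q.transpose * B * Q) i i = B i i + B j j + 2 * B i j := by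
        have hcol : ∀ a, Q a i = if a = i then 1 else if a = j then 1 else 0 := by
          intro a
          simp only [Q, Matrix.transvection, Matrix.add_apply, Matrix.one_apply,
            Matrix.single_apply]
          by_cases h1 : a = i
          · subst h1
            simp [hne.symm]
          · by_cases h2 : a = j
            · subst h2; simp [h1]
            · simp [h1, h2, Ne.symm h2]
        have hsum : ∀ g : Fin (N + 1) → R, ∑ a, g a * Q a i = g i + g j := by
          intro g
          have : ∀ a, g a * Q a i = (if a = i then g a else 0) + (if a = j then g a else 0) := by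
            intro a
            rw [hcol]
            by_cases h1 : a = i
            · subst h1; simp [hne]
            · by_cases h2 : a = j
              · subst h2; simp [h1]
              · simp [h1, h2]
          simp only [this, Finset.sum_add_distrib, Finset.sum_ite_eq', Finset.mem_univ, if_true]
        rw [Matrix.mul_apply, hsum, Matrix.mul_apply, Matrix.mul_apply]
        simp only [Matrix.transpose_apply]
        have hsum' : ∀ g : Fin (N + 1) → R, ∑ a, Q a i * g a = g i + g j := by
          intro g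
          rw [← hsum]
          exact Finset.sum_congr rfl fun a _ => mul_comm _ _
        rw [hsum', hsum', hsym]
        ring
      rw [hval]
      by_contra hcon
      have hm1 : B i i ∈ IsLocalRing.maximalIdeal R := hd i
      have hm2 : B j j ∈ IsLocalRing.maximalIdeal R := hd j
      have hm3 : B i i + B j j + 2 * B i j ∈ IsLocalRing.maximalIdeal R := hcon
      have hm4 : 2 * B i j ∈ IsLocalRing.maximalIdeal R := by
        have : 2 * B i j = (B i i + B j j + 2 * B i j) - (B i i + B j j) := by ring
        rw [this]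
        exact Ideal.sub_mem _ hm3 (Ideal.add_mem _ hm1 hm2)
      exact hm4 (h2.mul hij)

end Pool.Agent.Licci.U
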