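import Pool.Agent.Work.MP_a98e4e_ag.U.Filt

/-!
# Block (U7b): fourteen vectors of degree 2 with unimodular Gram matrix
-/

namespace Pool.Agent.Licci.U

open Module

universe u

variable {B : Type} [Fintype B] [DecidableEq B]

omit [DecidableEq B] in
theorem qf_zero_right (q : B → B → ℤ) {A : Type u} [CommRing A] (x : B → A) :
    qf q x 0 = 0 := by
  simp [qf]

omit [DecidableEq B] in
theorem qf_add_right (q : B → B → ℤ) {A : Type u} [CommRing A] (x y y' : B → A) :
    qf q x (y + y') = qf q x y + qf q x y' := by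
  simp only [qf, Pi.add_apply, ← Finset.sum_add_distrib]
  refine Finset.sum_congr rfl fun i _ => Finset.sum_congr rfl fun j _ => ?_
  ring

omit [DecidableEq B] in
theorem qf_smul_right (q : B → B → ℤ) {A : Type u} [CommRing A] (a : A) (x y : B → A) :
    qf q x (a • y) = a * qf q x y := by
  simp only [qf, Pi.smul_apply, smul_eq_mul, Finset.mul_sum]
  refine Finset.sum_congr rfl fun i _ => Finset.sum_congr rfl fun j _ => ?_
  ring

omit [DecidableEq B] in
theorem qf_add_left (q : B → B → ℤ) {A : Type u} [CommRing A] (x x' y : B → A) :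
    qf q (x + x') y = qf q x y + qf q x' y := by
  simp only [qf, Pi.add_apply, ← Finset.sum_add_distrib]
  refine Finset.sum_congr rfl fun i _ => Finset.sum_congr rfl fun j _ => ?_
  ring

omit [DecidableEq B] in
theorem qf_smul_left (q : B → B → ℤ) {A : Type u} [CommRing A] (a : A) (x y : B → A) :
    qf q (a • x) y = a * qf q x y := by
  simp only [qf, Pi.smul_apply, smul_eq_mul, Finset.mul_sum]
  refine Finset.sum_congr rfl fun i _ => Finset.sum_congr rfl fun j _ => ?_
  ring

omit [DecidableEq B] in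
theorem qf_sum_right (q : B → B → ℤ) {A : Type u} [CommRing A] {ι : Type*} (s : Finset ι)
    (x : B → A) (y : ι → B → A) : qf q x (∑ l ∈ s, y l) = ∑ l ∈ s, qf q x (y l) := by
  classical
  induction s using Finset.induction_on with
  | empty => simp [qf_zero_right]
  | insert a s ha ih => rw [Finset.sum_insert ha, Finset.sum_insert ha, qf_add_right, ih]

omit [DecidableEq B] in
theorem qf_map (q : B → B → ℤ) {A A' : Type u} [CommRing A] [CommRing A'] (φ : A →+* A')
    (x y : B → A) : φ (qf q x y) = qf q (φ ∘ x) (φ ∘ y) := by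
  simp [qf]

namespace XTab

variable {X : XTab B}

omit [DecidableEq B] in
theorem indep2 (A : Type u) [CommRing A] (e : Fin 14 → B → A)
    (M : Matrix (Fin 14) (Fin 14) A) (hM : ∀ k l, M k l = qf X.q (e k) (e l))
    (hu : IsUnit M.det) (c : Fin 14 → A) (hc : ∑ l, c l • e l = 0) : c = 0 := by
  have h1 : M.mulVec c = 0 := by
    funext k
    rw [Matrix.mulVec, dotProduct]
    have : ∀ l, M k l * c l = qf X.q (e k) (c l • e l) := by
      intro l
      rw [hM, qf_smul_right, mul_comm]
    simp only [this]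
    rw [← qf_sum_right, hc, qf_zero_right]
    rfl
  have h2 : (M⁻¹ * M).mulVec c = 0 := by
    rw [← Matrix.mulVec_mulVec, h1, Matrix.mulVec_zero]
  rwa [Matrix.nonsing_inv_mul _ hu, Matrix.one_mulVec] at h2

theorem Good.indep2 (_hX : Good.{u} X) (A : Type u) [CommRing A] (e : Fin 14 → B → A)
    (M : Matrix (Fin 14) (Fin 14) A) (hM : ∀ k l, M k l = qf X.q (e k) (e l))
    (hu : IsUnit M.det) (c : Fin 14 → A) (hc : ∑ l, c l • e l = 0) : c = 0 :=
  XTab.indep2 A e M hM hu c hc

/-- 14 vectors of degree 2 with unimodular Gram matrix span degree 2 (explicit coefficients) -/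
theorem Good.span2 (hX : Good.{u} X) (A : Type u) [CommRing A] (e : Fin 14 → B → A)
    (he : ∀ l, Sup X.deg 2 (e l)) (M : Matrix (Fin 14) (Fin 14) A)
    (hM : ∀ k l, M k l = qf X.q (e k) (e l)) (hu : IsUnit M.det)
    (v : B → A) (hv : Sup X.deg 2 v) :
    v = ∑ l, (∑ k, M⁻¹ l k * qf X.q (e k) v) • e l := by
  classical
  let σ : {b // X.deg b = 2} ≃ Fin 14 := Fintype.equivFinOfCardEq hX.card2
  let Em : Matrix (Fin 14) (Fin 14) A := fun l i => e l (σ.symm i).1
  let Qm : Matrix (Fin 14) (Fin 14) A := fun i j => (X.q (σ.symm i).1 (σ.symm j).1 : A)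
  have hsum : ∀ f : B → A, (∀ b, X.deg b ≠ 2 → f b = 0) →
      ∑ b, f b = ∑ i : Fin 14, f (σ.symm i).1 := by
    intro f hf
    rw [← Equiv.sum_comp σ.symm.symm (fun i : Fin 14 => f (σ.symm i).1)]
    simp only [Equiv.symm_symm, Equiv.symm_apply_apply]
    have h1 : ∑ b ∈ Finset.univ.filter (fun b => X.deg b = 2), f b = ∑ b, f b := by
      refine Finset.sum_subset (Finset.filter_subset _ _) fun b _ hb => ?_
      exact hf b (by simpa using hb)
    rw [← h1]
    exact (Finset.sum_subtype (Finset.univ.filter (fun b => X.deg b = 2))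
      (fun b => by simp) f)
  have hfac : M = Em * Qm * Em.transpose := by
    ext k l
    rw [hM, qf]
    rw [hsum _ (fun b hb => by
      refine Finset.sum_eq_zero fun j _ => ?_
      rw [he k b hb, zero_mul, mul_zero])]
    rw [Matrix.mul_assoc, Matrix.mul_apply]
    refine Finset.sum_congr rfl fun i _ => ?_
    rw [Matrix.mul_apply, Finset.mul_sum]
    rw [hsum _ (fun b hb => by rw [he l b hb, mul_zero, mul_zero])]
    refine Finset.sum_congr rfl fun j _ => ?_
    change (X.q (σ.symm i).1 (σ.symm j).1 : A) * (e k (σ.symm i).1 * e l (σ.symm j).1) =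
      e k (σ.symm i).1 * ((X.q (σ.symm i).1 (σ.symm j).1 : A) * e l (σ.symm j).1)
    ring
  have hEu : IsUnit Em.det := by
    rw [hfac, Matrix.det_mul, Matrix.det_mul] at hu
    exact isUnit_of_mul_isUnit_left (isUnit_of_mul_isUnit_left hu)
  let vv : Fin 14 → A := fun i => v (σ.symm i).1
  let a : Fin 14 → A := Matrix.vecMul vv Em⁻¹
  have ha : v = ∑ l, a l • e l := by
    have h1 : Matrix.vecMul a Em = vv := by
      rw [Matrix.vecMul_vecMul, Matrix.nonsing_inv_mul _ hEu, Matrix.vecMul_one]
    funext b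
    rw [Finset.sum_apply]
    by_cases hb : X.deg b = 2
    · have h2 := congrFun h1 (σ ⟨b, hb⟩)
      simp only [Matrix.vecMul, dotProduct, vv, Em, Equiv.symm_apply_apply] at h2
      rw [← h2]
      refine Finset.sum_congr rfl fun l _ => ?_
      rw [Pi.smul_apply, smul_eq_mul]
    · rw [hv b hb]
      rw [Finset.sum_eq_zero]
      intro l _
      rw [Pi.smul_apply, he l b hb, smul_zero]
  have hq : (fun k => qf X.q (e k) v) = M.mulVec a := by
    funext k
    conv_lhs => rw [ha]
    rw [qf_sum_right, Matrix.mulVec, dotProduct]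
    refine Finset.sum_congr rfl fun l _ => ?_
    rw [qf_smul_right, hM, mul_comm]
  have hcoef : ∀ l, ∑ k, M⁻¹ l k * qf X.q (e k) v = a l := by
    intro l
    have h3 : M⁻¹.mulVec (fun k => qf X.q (e k) v) = a := by
      rw [hq, Matrix.mulVec_mulVec, Matrix.nonsing_inv_mul _ hu, Matrix.one_mulVec]
    exact congrFun h3 l
  simp only [hcoef]
  exact ha

end XTab

end Pool.Agent.Licci.U
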