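import Pool.Agent.Work.MP_a98e4e_ag.U.SplitC

/-!
# Block (U), module U7d: splitting in dimension three
-/

set_option linter.unusedSectionVars false

namespace Pool.Agent.Licci.U

open Module RingTheory.Sequence IsLocalRing

universe u

variable {B : Type} [Fintype B] [DecidableEq B]

/-- `(n + 2) (n + 1) n (n - 1)` -/
def pol {A : Type u} [CommRing A] {V : Type u} [AddCommGroup V] [Module A V]
    (n : V →ₗ[A] V) : V →ₗ[A] V :=
  n ∘ₗ n ∘ₗ n ∘ₗ n + (2 : A) • (n ∘ₗ n ∘ₗ n) - n ∘ₗ n - (2 : A) • n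

theorem pol_apply {A : Type u} [CommRing A] {V : Type u} [AddCommGroup V] [Module A V]
    (n : V →ₗ[A] V) (v : V) :
    pol n v = n (n (n (n v))) + (2 : A) • n (n (n v)) - n (n v) - (2 : A) • n v := rfl

theorem pol_eq {A : Type u} [CommRing A] {V : Type u} [AddCommGroup V] [Module A V]
    (n : V →ₗ[A] V) (v : V) :
    pol n v = ((n + 2) * (n + 1) * n * (n - 1) : V →ₗ[A] V) v := by
  have two : ∀ w : V, (2 : V →ₗ[A] V) w = (2 : A) • w := by
    intro w
    have : (2 : V →ₗ[A] V) = 1 + 1 := by norm_num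
    rw [this, LinearMap.add_apply, two_smul]
    rfl
  simp only [pol_apply, Module.End.mul_apply, LinearMap.add_apply, LinearMap.sub_apply, two,
    Module.End.one_apply, map_add, map_sub]
  abel

theorem pol_eigen {A : Type u} [CommRing A] {V : Type u} [AddCommGroup V] [Module A V]
    (n : V →ₗ[A] V) (v : V) (h : n v = (2 : A) • v) : pol n v = (24 : A) • v := by
  rw [pol_apply]
  simp only [h, map_smul, smul_smul, ← add_smul, ← sub_smul]
  congr 1
  norm_num

namespace UData

variable {X : XTab B} {R : Type u} [CommRing R] {T : Type u} [CommRing T]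
  [Algebra R T] {C : Cov R T} (D : UData X C)

theorem map_pol (h v : B → R) :
    (algebraMap R T ∘ pol (X.br R h) v : B → T) =
      pol (X.br T (algebraMap R T ∘ h)) (algebraMap R T ∘ v) := by
  have e : ∀ v : B → R, (algebraMap R T ∘ X.br R h v : B → T) =
      X.br T (algebraMap R T ∘ h) (algebraMap R T ∘ v) := fun v => bil_map X.c _ h v
  rw [pol_apply, pol_apply, ← e v, ← e, ← e, ← e]
  funext b
  simp only [Function.comp_apply, Pi.add_apply, Pi.sub_apply, Pi.smul_apply, smul_eq_mul,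
    map_add, map_sub, map_mul, map_ofNat]

theorem gE_pol (i : Fin 3) (h v : B → T) :
    D.gE i (pol (X.br T h) v) = pol (X.br T (D.gE i h)) (D.gE i v) := by
  rw [pol_apply, pol_apply, map_sub, map_sub, map_add, map_smul, map_smul, D.gE_hom, D.gE_hom,
    D.gE_hom, D.gE_hom]

theorem N_hs (i : Fin 3) (h : B → T) :
    X.N T (hs X T - D.gE i h) = X.br T (D.gE i h) := by
  have : (fun b => (X.h b : T)) - (hs X T - D.gE i h) = D.gE i h := by
    show hs X T - (hs X T - D.gE i h) = D.gE i h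
    abel
  rw [XTab.N, this]

/-- `π v` lies in `iota(G)`. -/
theorem pol_sup (hX : XTab.Good.{u} X) [Algebra ℚ T] (i : Fin 3) (h : B → T)
    (hh : Ge X.deg 1 (hs X T - D.gE i h)) (v : B → T) :
    Sup X.deg 2 (D.gE i (pol (X.br T h) v)) := by
  refine hX.euler_ker T _ _ hh ?_
  rw [gE_pol, N_hs, pol_eq]
  have h1 := hX.euler_annih T _ hh
  rw [N_hs] at h1
  have h2 := LinearMap.congr_fun h1 (D.gE i v)
  rw [Module.End.mul_apply, LinearMap.sub_apply, LinearMap.zero_apply, sub_eq_zero] at h2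
  rw [h2]
  have : (2 : (B → T) →ₗ[T] (B → T)) = 1 + 1 := by norm_num
  rw [this, LinearMap.add_apply, two_smul]
  rfl

theorem pol_gT (hX : XTab.Good.{u} X) [Algebra ℚ T] (h : B → T)
    (hh : Ge X.deg 1 (hs X T - D.gE 0 h)) (l : Fin 14) :
    pol (X.br T h) (D.gT l) = (24 : T) • D.gT l := by
  refine pol_eigen _ _ ?_
  apply (D.gE 0).injective
  rw [D.gE_hom, map_smul, ← N_hs]
  exact hX.euler_two T _ _ hh (D.sup_gE_gT 0 l)

theorem cf_eq (hX : XTab.Good.{u} X) (i j : Fin 3) (v : B → T) (hv : Sup X.deg 2 (D.gE i v))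
    (l : Fin 14) : D.cf i v l = D.cf j v l := by
  have h1 := D.eq_sum_cf hX i v hv
  have h2 := D.eq_sum_cf hX j v ((D.sup_iff hX i j v).1 hv)
  have h3 : (fun l => D.cf i v l - D.cf j v l) = 0 := by
    refine D.indep hX _ ?_
    have : ∑ l, (D.cf i v l - D.cf j v l) • D.gT l =
        ∑ l, D.cf i v l • D.gT l - ∑ l, D.cf j v l • D.gT l := by
      rw [← Finset.sum_sub_distrib]
      exact Finset.sum_congr rfl fun l _ => by rw [sub_smul]
    rw [this, ← h1, ← h2, sub_self]
  exact sub_eq_zero.1 (congrFun h3 l)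

/-- coefficients of `π v` in `R` -/
theorem exists_coeff [IsLocalRing R] [IsNoetherianRing R] [Algebra ℚ T]
    (hm : ∀ i, C.f i ∈ maximalIdeal R) (hreg : IsWeaklyRegular R [C.f 0, C.f 1, C.f 2])
    (hX : XTab.Good.{u} X) (h : B → R)
    (hh : ∀ i, Ge X.deg 1 (hs X T - D.gE i (algebraMap R T ∘ h))) (v : B → R) :
    ∃ ρ : Fin 14 → R, pol (X.br R h) v = ∑ l, ρ l • D.γ l := by
  set V : B → T := pol (X.br T (algebraMap R T ∘ h)) (algebraMap R T ∘ v) with hV
  have hsup : ∀ i, Sup X.deg 2 (D.gE i V) := fun i => D.pol_sup hX i _ (hh i) _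
  have hVp : ∀ A : Subalgebra R T, Pts A V := by
    intro A
    rw [hV, ← map_pol]
    exact Pts.algebraMap _
  have hex : ∀ l, ∃ r : R, algebraMap R T r = D.cf 0 V l := by
    intro l
    refine C.inter hm hreg (by decide : (0 : Fin 3) ≠ 1)
      (D.cf_mem 0 _ le_rfl V (D.pts_gE 0 V _ le_rfl (hVp _)) l) ?_
    rw [D.cf_eq hX 0 1 V (hsup 0)]
    exact D.cf_mem 1 _ le_rfl V (D.pts_gE 1 V _ le_rfl (hVp _)) l
  choose ρ hρ using hex
  refine ⟨ρ, ?_⟩
  funext b
  apply C.inj
  have h1 := congrFun (D.eq_sum_cf hX 0 V (hsup 0)) b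
  have h2 := congrFun (map_pol (T := T) (X := X) h v) b
  rw [Function.comp_apply] at h2
  rw [h2, ← hV, h1, Finset.sum_apply, Finset.sum_apply, map_sum]
  refine Finset.sum_congr rfl fun l _ => ?_
  rw [Pi.smul_apply, Pi.smul_apply, smul_eq_mul, smul_eq_mul, map_mul, hρ]
  rfl

theorem indepR (hX : XTab.Good.{u} X) (c c' : Fin 14 → R)
    (hc : ∑ l, c l • D.γ l = ∑ l, c' l • D.γ l) : c = c' := by
  have h1 : (fun l => algebraMap R T (c l - c' l)) = 0 := by
    refine D.indep hX _ ?_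
    funext b
    have h2 := congrArg (algebraMap R T) (congrFun hc b)
    rw [Finset.sum_apply, Finset.sum_apply, map_sum, map_sum] at h2
    rw [Finset.sum_apply]
    have h3 : ∀ l, (algebraMap R T (c l - c' l) • D.gT l) b =
        algebraMap R T ((c l • D.γ l) b) - algebraMap R T ((c' l • D.γ l) b) := by
      intro l
      rw [Pi.smul_apply, Pi.smul_apply, Pi.smul_apply, smul_eq_mul, smul_eq_mul, smul_eq_mul,
        map_mul, map_mul, map_sub, sub_mul]
      rfl
    rw [Finset.sum_congr rfl fun l _ => h3 l, Finset.sum_sub_distrib, h2, sub_self]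
    rfl
  funext l
  have h2 := congrFun h1 l
  rw [Pi.zero_apply, ← map_zero (algebraMap R T)] at h2
  exact sub_eq_zero.1 (C.inj h2)

end UData

/-- U7: splitting in dimension 3. -/
theorem split {R : Type u} [CommRing R] [IsLocalRing R] [IsNoetherianRing R] [Algebra ℚ R]
    {T : Type u} [CommRing T] [Algebra R T] (C : Cov R T)
    (hm : ∀ i, C.f i ∈ maximalIdeal R) (hreg : IsWeaklyRegular R [C.f 0, C.f 1, C.f 2])
    (hT : ∀ x : T, ∃ N : ℕ, ∃ r : R,
      algebraMap R T (C.f 0 * C.f 1 * C.f 2) ^ N * x = algebraMap R T r)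
    (y1 y2 : R) (hy : IsWeaklyRegular R [y1, y2]) (hy1 : y1 ∈ maximalIdeal R)
    (hy2 : y2 ∈ maximalIdeal R)
    (hfree : ∀ (M : Type u) [AddCommGroup M] [Module R M] [Module.Finite R M],
      IsWeaklyRegular M [y1, y2] → ∀ (b : ℕ) (π : (Fin b → R) →ₗ[R] M), Function.Surjective π →
        Module.Free R (LinearMap.ker π))
    (X : XTab B) (hX : XTab.Good.{u} X) (D : UData X C) (c : Fin 14 → R)
    (hc : ∀ b, ∑ l, c l * D.γ l b ∈ maximalIdeal R) (l : Fin 14) :
    c l ∈ maximalIdeal R := by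
  let _ : Algebra ℚ T := ((algebraMap R T).comp (algebraMap ℚ R)).toAlgebra
  obtain ⟨h, hh⟩ := D.exists_euler hm hreg hX (D.h1E hm hreg hT y1 y2 hy hy1 hy2 hfree hX)
  have hcoeff := D.exists_coeff hm hreg hX h hh
  choose ρ hρ using fun b : B => hcoeff (Pi.single b 1)
  have hpolγ : ∀ l, pol (X.br R h) (D.γ l) = (24 : R) • D.γ l := by
    intro l
    funext b
    apply C.inj
    have h1 := congrFun (UData.map_pol (T := T) (X := X) h (D.γ l)) b
    have h2 := congrFun (D.pol_gT hX _ (hh 0) l) b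
    rw [Function.comp_apply] at h1
    rw [h1]
    refine h2.trans ?_
    rw [Pi.smul_apply, Pi.smul_apply, smul_eq_mul, smul_eq_mul, map_mul, map_ofNat]
    rfl
  set v : B → R := ∑ l, c l • D.γ l with hv
  have hvm : ∀ b, v b ∈ maximalIdeal R := by
    intro b
    have := hc b
    rw [hv, Finset.sum_apply]
    exact this
  have e1 : pol (X.br R h) v = ∑ l, (24 * c l) • D.γ l := by
    rw [hv, map_sum]
    refine Finset.sum_congr rfl fun l _ => ?_
    rw [map_smul, hpolγ, smul_smul, mul_comm]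
  have e2 : pol (X.br R h) v = ∑ l, (∑ b, v b * ρ b l) • D.γ l := by
    have hs : v = ∑ b, v b • (Pi.single b 1 : B → R) := by
      funext a
      rw [Finset.sum_apply]
      simp [Pi.single_apply]
    conv_lhs => rw [hs, map_sum]
    have : ∀ b, pol (X.br R h) (v b • (Pi.single b 1 : B → R)) =
        ∑ l, (v b * ρ b l) • D.γ l := by
      intro b
      rw [map_smul, hρ, Finset.smul_sum]
      exact Finset.sum_congr rfl fun l _ => by rw [smul_smul]
    rw [Finset.sum_congr rfl fun b _ => this b, Finset.sum_comm]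
    exact Finset.sum_congr rfl fun l _ => by rw [Finset.sum_smul]
  have e3 := congrFun (D.indepR hX _ _ (e1.symm.trans e2)) l
  have e4 : 24 * c l ∈ maximalIdeal R := by
    have e5 : (24 * c l : R) = ∑ b, v b * ρ b l := e3
    rw [e5]
    exact Ideal.sum_mem _ fun b _ => Ideal.mul_mem_right _ _ (hvm b)
  have u24 : IsUnit (24 : R) := by
    have h1 : IsUnit ((24 : ℚ)) := IsUnit.mk0 _ (by norm_num)
    have h2 := h1.map (algebraMap ℚ R)
    rwa [map_ofNat] at h2
  exact ((maximalIdeal R).unit_mul_mem_iff_mem u24).1 e4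

end Pool.Agent.Licci.U
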