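import Pool.Agent.Work.MP_a98e4e_ag.U.Eta
import Pool.Agent.Work.MP_a98e4e_ag.U.Anti2
import Pool.Agent.Work.MP_a98e4e_ag.U.Loc

/-!
# Block (U), module U7d, part A: frames
-/

set_option linter.unusedSectionVars false

namespace Pool.Agent.Licci.U

open Module

universe u

variable {B : Type} [Fintype B] [DecidableEq B]

/-- vectors with entries in a subalgebra -/
def Pts {R T : Type u} [CommRing R] [CommRing T] [Algebra R T] (A : Subalgebra R T) {ι : Type}
    (x : ι → T) : Prop := ∀ a, x a ∈ A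

section pts

variable {R T : Type u} [CommRing R] [CommRing T] [Algebra R T] {A : Subalgebra R T} {ι : Type}

theorem Pts.add {x y : ι → T} (hx : Pts A x) (hy : Pts A y) : Pts A (x + y) :=
  fun a => A.add_mem (hx a) (hy a)

theorem Pts.sub {x y : ι → T} (hx : Pts A x) (hy : Pts A y) : Pts A (x - y) :=
  fun a => A.sub_mem (hx a) (hy a)

theorem Pts.smul {x : ι → T} {c : T} (hc : c ∈ A) (hx : Pts A x) : Pts A (c • x) :=
  fun a => A.mul_mem hc (hx a)

theorem Pts.sum {κ : Type} {s : Finset κ} {x : κ → ι → T} (hx : ∀ k ∈ s, Pts A (x k)) :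
    Pts A (∑ k ∈ s, x k) := fun a => by
  rw [Finset.sum_apply]
  exact A.sum_mem fun k hk => hx k hk a

theorem Pts.bil [Fintype ι] (c : ι → ι → ι → ℤ) {x y : ι → T} (hx : Pts A x) (hy : Pts A y) :
    Pts A (bil c T x y) := fun k => by
  rw [bil_apply]
  exact A.sum_mem fun i _ => A.sum_mem fun j _ =>
    A.mul_mem (A.intCast_mem _) (A.mul_mem (hx i) (hy j))

theorem Pts.qf [Fintype ι] (q : ι → ι → ℤ) {x y : ι → T} (hx : Pts A x) (hy : Pts A y) :
    qf q x y ∈ A :=
  A.sum_mem fun i _ => A.sum_mem fun j _ => A.mul_mem (A.intCast_mem _) (A.mul_mem (hx i) (hy j))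

theorem Pts.algebraMap (x : ι → R) : Pts A (algebraMap R T ∘ x) := fun a => A.algebraMap_mem _

theorem Pts.mulVec [Fintype ι] {G : Matrix ι ι T} (hG : ∀ a b, G a b ∈ A) {x : ι → T}
    (hx : Pts A x) : Pts A (G.mulVec x) := fun a =>
  A.sum_mem fun b _ => A.mul_mem (hG a b) (hx b)

end pts

section qf

variable {A : Type u} [CommRing A] (q : B → B → ℤ)

theorem qf_sum_left {κ : Type} (s : Finset κ) (x : κ → B → A) (y : B → A) :
    qf q (∑ k ∈ s, x k) y = ∑ k ∈ s, qf q (x k) y := by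
  classical
  induction s using Finset.induction_on with
  | empty => simp [qf]
  | insert a s ha ih => rw [Finset.sum_insert ha, Finset.sum_insert ha, qf_add_left, ih]

end qf

theorem Sup.add {deg : B → ℤ} {k : ℤ} {A : Type u} [CommRing A] {x y : B → A} (hx : Sup deg k x)
    (hy : Sup deg k y) : Sup deg k (x + y) := fun b hb => by
  rw [Pi.add_apply, hx b hb, hy b hb, add_zero]

theorem Sup.smul {deg : B → ℤ} {k : ℤ} {A : Type u} [CommRing A] {x : B → A} (c : A)
    (hx : Sup deg k x) : Sup deg k (c • x) := fun b hb => by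
  rw [Pi.smul_apply, hx b hb, smul_zero]

theorem Sup.sum {deg : B → ℤ} {k : ℤ} {A : Type u} [CommRing A] {κ : Type} {s : Finset κ}
    {x : κ → B → A} (hx : ∀ i ∈ s, Sup deg k (x i)) : Sup deg k (∑ i ∈ s, x i) := fun b hb => by
  rw [Finset.sum_apply]
  exact Finset.sum_eq_zero fun i hi => hx i hi b hb

theorem Ge.add {deg : B → ℤ} {k : ℤ} {A : Type u} [CommRing A] {x y : B → A} (hx : Ge deg k x)
    (hy : Ge deg k y) : Ge deg k (x + y) := fun b hb => by
  rw [Pi.add_apply, hx b hb, hy b hb, add_zero]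

theorem Ge.sub {deg : B → ℤ} {k : ℤ} {A : Type u} [CommRing A] {x y : B → A} (hx : Ge deg k x)
    (hy : Ge deg k y) : Ge deg k (x - y) := fun b hb => by
  rw [Pi.sub_apply, hx b hb, hy b hb, sub_zero]

theorem Sup.ge {deg : B → ℤ} {k l : ℤ} (hkl : l ≤ k) {A : Type u} [CommRing A] {x : B → A}
    (hx : Sup deg k x) : Ge deg l x := fun b hb => hx b (by omega)

theorem Ge.sup {deg : B → ℤ} {k : ℤ} (hdeg : ∀ b, deg b ≤ k) {A : Type u} [CommRing A]
    {x : B → A} (hx : Ge deg k x) : Sup deg k x := fun b hb => hx b (by have := hdeg b; omega)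

namespace UData

variable {X : XTab B} {R : Type u} [CommRing R] {T : Type u} [CommRing T]
  [Algebra R T] {C : Cov R T} (D : UData X C)

/-- the frame `G i` as a linear equivalence -/
noncomputable def gE (i : Fin 3) : (B → T) ≃ₗ[T] (B → T) :=
  LinearEquiv.ofLinearMap (Matrix.toLin' (D.G i)) (Matrix.toLin' (D.G' i))
    (by rw [← Matrix.toLin'_mul, D.GG', Matrix.toLin'_one])
    (by rw [← Matrix.toLin'_mul, D.G'G, Matrix.toLin'_one])

theorem gE_apply (i : Fin 3) (x : B → T) : D.gE i x = (D.G i).mulVec x := by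
  simp [gE]

theorem gE_symm_apply (i : Fin 3) (x : B → T) : (D.gE i).symm x = (D.G' i).mulVec x := by
  simp [gE]

/-- transition -/
noncomputable def tt (i j : Fin 3) : (B → T) ≃ₗ[T] (B → T) := (D.gE j).symm.trans (D.gE i)

theorem tt_apply (i j : Fin 3) (x : B → T) : D.tt i j x = D.gE i ((D.gE j).symm x) := rfl

theorem tt_gE (i j : Fin 3) (x : B → T) : D.tt i j (D.gE j x) = D.gE i x := by
  rw [tt_apply, LinearEquiv.symm_apply_apply]

theorem tt_mul (i j k : Fin 3) : D.tt i j * D.tt j k = D.tt i k := by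
  ext x b
  simp [tt_apply, LinearEquiv.mul_apply]

theorem tt_self (i : Fin 3) : D.tt i i = 1 := by
  ext x b
  simp [tt_apply]

/-- the global vectors in `T ^ B` -/
def gT (l : Fin 14) : B → T := algebraMap R T ∘ D.γ l

theorem sup_gE_gT (i : Fin 3) (l : Fin 14) : Sup X.deg 2 (D.gE i (D.gT l)) := by
  rw [gE_apply]; exact D.hγ i l

/-- the Gram matrix over `T` -/
noncomputable def MT : Matrix (Fin 14) (Fin 14) T := D.M.map (algebraMap R T)

theorem MT_det : IsUnit D.MT.det := by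
  have h := D.hMu.map (algebraMap R T)
  rwa [RingHom.map_det] at h

theorem MT_apply (i : Fin 3) (k l : Fin 14) :
    D.MT k l = qf X.q (D.gE i (D.gT k)) (D.gE i (D.gT l)) := by
  rw [gE_apply, gE_apply]; exact D.hM i k l

theorem MT_inv (k l : Fin 14) : ∃ r : R, D.MT⁻¹ k l = algebraMap R T r := by
  refine ⟨D.M⁻¹ k l, ?_⟩
  have h : D.MT⁻¹ = (D.M⁻¹).map (algebraMap R T) := by
    apply Matrix.inv_eq_left_inv
    show (D.M⁻¹).map (algebraMap R T) * D.M.map (algebraMap R T) = 1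
    rw [← Matrix.map_mul, Matrix.nonsing_inv_mul _ D.hMu]
    simp
  rw [h]; rfl

/-- the coefficients of a vector of `iota(G)` -/
noncomputable def cf (i : Fin 3) (v : B → T) (l : Fin 14) : T :=
  ∑ k, D.MT⁻¹ l k * qf X.q (D.gE i (D.gT k)) (D.gE i v)

theorem eq_sum_cf (hX : XTab.Good.{u} X) (i : Fin 3) (v : B → T) (hv : Sup X.deg 2 (D.gE i v)) :
    v = ∑ l, D.cf i v l • D.gT l := by
  apply (D.gE i).injective
  rw [map_sum]
  have h := hX.span2 T (fun l => D.gE i (D.gT l)) (D.sup_gE_gT i) D.MT (D.MT_apply i) D.MT_det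
    (D.gE i v) hv
  refine h.trans (Finset.sum_congr rfl fun l _ => ?_)
  rw [map_smul]; rfl

theorem cf_mem (i : Fin 3) (A : Subalgebra R T) (hA : C.R1 i ≤ A) (v : B → T)
    (hv : Pts A (D.gE i v)) (l : Fin 14) : D.cf i v l ∈ A := by
  refine A.sum_mem fun k _ => A.mul_mem ?_ (Pts.qf _ ?_ hv)
  · obtain ⟨r, hr⟩ := D.MT_inv l k
    rw [hr]; exact A.algebraMap_mem r
  · rw [gE_apply]
    exact fun a => hA (Pts.mulVec (D.hG i) (Pts.algebraMap (A := C.R1 i) (D.γ k)) a)

theorem indep (hX : XTab.Good.{u} X) (c : Fin 14 → T) (hc : ∑ l, c l • D.gT l = 0) : c = 0 := by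
  refine hX.indep2 T (fun l => D.gE 0 (D.gT l)) D.MT (D.MT_apply 0) D.MT_det c ?_
  have := congrArg (D.gE 0) hc
  rw [map_sum, map_zero] at this
  rw [← this]
  exact Finset.sum_congr rfl fun l _ => by rw [map_smul]

theorem sup_iff (hX : XTab.Good.{u} X) (i j : Fin 3) (v : B → T) : Sup X.deg 2 (D.gE i v) ↔ Sup X.deg 2 (D.gE j v) := by
  have key : ∀ i j, Sup X.deg 2 (D.gE i v) → Sup X.deg 2 (D.gE j v) := by
    intro i j h
    rw [D.eq_sum_cf hX i v h, map_sum]
    exact Sup.sum fun l _ => by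
      rw [map_smul]; exact (D.sup_gE_gT j l).smul _
  exact ⟨key i j, key j i⟩

theorem gE_hom (i : Fin 3) (x y : B → T) :
    D.gE i (X.br T x y) = X.br T (D.gE i x) (D.gE i y) := by
  rw [gE_apply, gE_apply, gE_apply]; exact D.hom i x y

theorem gE_symm_hom (i : Fin 3) (x y : B → T) :
    (D.gE i).symm (X.br T x y) = X.br T ((D.gE i).symm x) ((D.gE i).symm y) := by
  apply (D.gE i).injective
  rw [gE_hom, LinearEquiv.apply_symm_apply, LinearEquiv.apply_symm_apply,
    LinearEquiv.apply_symm_apply]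

theorem aut2 (hX : XTab.Good.{u} X) (i j : Fin 3) : X.Aut2 T (D.tt i j) where
  hom x y := by rw [tt_apply, gE_symm_hom, gE_hom]; rfl
  pres e := by
    rw [tt_apply, D.sup_iff hX i j, LinearEquiv.apply_symm_apply]

theorem pts_gE (i : Fin 3) (v : B → T) (A : Subalgebra R T) (hA : C.R1 i ≤ A) (hv : Pts A v) :
    Pts A (D.gE i v) := by
  rw [gE_apply]; exact Pts.mulVec (fun a b => hA (D.hG i a b)) hv

theorem pts_gE_symm (i : Fin 3) (v : B → T) (A : Subalgebra R T) (hA : C.R1 i ≤ A)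
    (hv : Pts A v) : Pts A ((D.gE i).symm v) := by
  rw [gE_symm_apply]; exact Pts.mulVec (fun a b => hA (D.hG' i a b)) hv

end UData

end Pool.Agent.Licci.U
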