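import Pool.Agent.Work.MP_a98e4e_ag.U.SplitA

/-!
# Block (U), module U7d, part B: the bundle `gr_1`, its bases and the Clifford monomials
-/

set_option linter.unusedSectionVars false

namespace Pool.Agent.Licci.U

open Module

universe u

variable {B : Type} [Fintype B] [DecidableEq B]

namespace UData

variable {X : XTab B} {R : Type u} [CommRing R] {T : Type u} [CommRing T]
  [Algebra R T] {C : Cov R T} (D : UData X C)

/-- index set of degree one -/
noncomputable def e64 (hX : XTab.Good.{u} X) : {b // X.deg b = 1} ≃ Fin 64 :=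
  Fintype.equivFinOfCardEq hX.card1

/-- the transition on degree 1 -/
noncomputable def tauE (hX : XTab.Good.{u} X) [Algebra ℚ T] (i j : Fin 3) :
    ({b // X.deg b = 1} → T) ≃ₗ[T] ({b // X.deg b = 1} → T) :=
  LinearEquiv.ofLinearMap (X.tau T (D.tt i j)) (X.tau T (D.tt j i))
    (by
      have h := hX.tau_mul T (D.tt j i) (D.tt i j) (D.aut2 hX j i) (D.aut2 hX i j)
      rw [tt_mul, tt_self, hX.tau_one] at h
      exact h.symm)
    (by
      have h := hX.tau_mul T (D.tt i j) (D.tt j i) (D.aut2 hX i j) (D.aut2 hX j i)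
      rw [tt_mul, tt_self, hX.tau_one] at h
      exact h.symm)

theorem tauE_apply (hX : XTab.Good.{u} X) [Algebra ℚ T] (i j : Fin 3)
    (x : {b // X.deg b = 1} → T) : D.tauE hX i j x = X.tau T (D.tt i j) x := rfl

theorem tauE_symm (hX : XTab.Good.{u} X) [Algebra ℚ T] (i j : Fin 3)
    (x : {b // X.deg b = 1} → T) : (D.tauE hX i j).symm x = X.tau T (D.tt j i) x := rfl

theorem tau_tau (hX : XTab.Good.{u} X) [Algebra ℚ T] (i j k : Fin 3)
    (x : {b // X.deg b = 1} → T) :
    X.tau T (D.tt i j) (X.tau T (D.tt j k) x) = X.tau T (D.tt i k) x := by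
  have h := hX.tau_mul T (D.tt j k) (D.tt i j) (D.aut2 hX j k) (D.aut2 hX i j)
  rw [tt_mul] at h
  rw [h]; rfl

/-- the bases -/
noncomputable def eps (hX : XTab.Good.{u} X) [Algebra ℚ T] (i : Fin 3) :
    Basis (Fin 64) T ({b // X.deg b = 1} → T) :=
  ((Pi.basisFun T {b // X.deg b = 1}).reindex (e64 hX)).map (D.tauE hX 0 i)

theorem eps_apply (hX : XTab.Good.{u} X) [Algebra ℚ T] (i : Fin 3) (a : Fin 64) :
    D.eps hX i a = X.tau T (D.tt 0 i) (Pi.single ((e64 hX).symm a) 1) := by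
  rw [eps, Basis.map_apply, Basis.reindex_apply, Pi.basisFun_apply, tauE_apply]

theorem eps_repr (hX : XTab.Good.{u} X) [Algebra ℚ T] (i : Fin 3)
    (x : {b // X.deg b = 1} → T) (a : Fin 64) :
    (D.eps hX i).repr x a = X.tau T (D.tt i 0) x ((e64 hX).symm a) := by
  rw [eps, Basis.map_repr, LinearEquiv.trans_apply, tauE_symm, Basis.repr_reindex,
    Finsupp.mapDomain_equiv_apply, Pi.basisFun_repr]

theorem E1_iff (hX : XTab.Good.{u} X) [Algebra ℚ T] (i : Fin 3) (x : {b // X.deg b = 1} → T) :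
    C.E1 (D.eps hX) i x ↔ Pts (C.R1 i) (X.tau T (D.tt i 0) x) := by
  constructor
  · intro h b
    have := h (e64 hX b)
    rwa [eps_repr, Equiv.symm_apply_apply] at this
  · intro h a
    rw [eps_repr]; exact h _

theorem E2_iff (hX : XTab.Good.{u} X) [Algebra ℚ T] (i j : Fin 3) (x : {b // X.deg b = 1} → T) :
    C.E2 (D.eps hX) i j x ↔ Pts (C.R2 i j) (X.tau T (D.tt i 0) x) := by
  constructor
  · intro h b
    have := h (e64 hX b)
    rwa [eps_repr, Equiv.symm_apply_apply] at this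
  · intro h a
    rw [eps_repr]; exact h _

/-- preservation of points under `tau` -/
theorem pts_tau (i j : Fin 3) {A : Subalgebra R T} (hA : C.R1 i ≤ A) (hA' : C.R1 j ≤ A)
    {x : {b // X.deg b = 1} → T} (hx : Pts A x) : Pts A (X.tau T (D.tt i j) x) := by
  have h1 : Pts A (X.ext 1 T x) := by
    intro b
    show (if hb : X.deg b = 1 then x ⟨b, hb⟩ else 0) ∈ A
    split_ifs with hb
    · exact hx _
    · exact A.zero_mem
  have h2 := D.pts_gE i _ A hA (D.pts_gE_symm j _ A hA' h1)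
  exact fun b => h2 b.1

theorem pts_single {ι : Type} [DecidableEq ι] (A : Subalgebra R T) (a : ι) :
    Pts A (Pi.single a (1 : T)) := by
  intro b
  by_cases h : b = a
  · subst h; rw [Pi.single_eq_same]; exact A.one_mem
  · rw [Pi.single_eq_of_ne h]; exact A.zero_mem

theorem heps (hX : XTab.Good.{u} X) [Algebra ℚ T] (i j : Fin 3) (a b : Fin 64) :
    (D.eps hX i).repr (D.eps hX j a) b ∈ C.R2 i j := by
  rw [eps_repr, eps_apply, tau_tau _ hX]
  exact D.pts_tau i j (C.R1_le_R2 i j) (C.R1_le_R2' i j) (pts_single _ _) _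

/-! ### Clifford operators -/

/-- orthogonal frame data: `P` invertible over `R` with `P^T M P` diagonal -/
structure Ortho where
  P : Matrix (Fin 14) (Fin 14) R
  d : Fin 14 → R
  hd : ∀ i, IsUnit (d i)
  hP : P.transpose * D.M * P = Matrix.diagonal d

variable {D}

/-- the orthogonal vectors in the frame `i` -/
noncomputable def Ortho.e (O : D.Ortho) (i : Fin 3) (k : Fin 14) : B → T :=
  D.gE i (∑ l, algebraMap R T (O.P l k) • D.gT l)

theorem Ortho.e_sup (O : D.Ortho) (i : Fin 3) (k : Fin 14) : Sup X.deg 2 (O.e i k) := by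
  rw [Ortho.e, map_sum]
  exact Sup.sum fun l _ => by rw [map_smul]; exact (D.sup_gE_gT i l).smul _

theorem Ortho.e_tt (O : D.Ortho) (i j : Fin 3) (k : Fin 14) : D.tt i j (O.e j k) = O.e i k :=
  D.tt_gE i j _

theorem Ortho.e_pts (O : D.Ortho) (i : Fin 3) (k : Fin 14) : Pts (C.R1 i) (O.e i k) := by
  refine D.pts_gE i _ _ le_rfl (Pts.sum fun l _ => Pts.smul ((C.R1 i).algebraMap_mem _) ?_)
  exact Pts.algebraMap _

theorem Ortho.qf_e (O : D.Ortho) (i : Fin 3) (k l : Fin 14) :
    qf X.q (O.e i k) (O.e i l) = if k = l then algebraMap R T (O.d k) else 0 := by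
  have h1 : qf X.q (O.e i k) (O.e i l) =
      ∑ a, ∑ b, algebraMap R T (O.P a k) * (algebraMap R T (O.P b l) * D.MT a b) := by
    rw [Ortho.e, Ortho.e, map_sum, map_sum, qf_sum_left]
    refine Finset.sum_congr rfl fun a _ => ?_
    rw [qf_sum_right]
    refine Finset.sum_congr rfl fun b _ => ?_
    rw [map_smul, map_smul, qf_smul_left, qf_smul_right, ← D.MT_apply]
  have h2 : (O.P.transpose * D.M * O.P) k l = Matrix.diagonal O.d k l := by rw [O.hP]
  rw [h1, Matrix.diagonal_apply] at *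
  have h3 := congrArg (algebraMap R T) h2
  rw [Matrix.mul_apply] at h3
  have h4 : (if k = l then algebraMap R T (O.d k) else 0) =
      algebraMap R T (if k = l then O.d k else 0) := by split_ifs <;> simp
  rw [h4, ← h3, map_sum, Finset.sum_comm]
  refine Finset.sum_congr rfl fun b _ => ?_
  rw [map_mul, Matrix.mul_apply, map_sum, Finset.sum_mul]
  refine Finset.sum_congr rfl fun a _ => ?_
  rw [map_mul, Matrix.transpose_apply]
  show _ = algebraMap R T (O.P a k) * algebraMap R T (D.M a b) * algebraMap R T (O.P b l)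
  show algebraMap R T (O.P a k) * (algebraMap R T (O.P b l) * algebraMap R T (D.M a b)) = _
  ring

/-- the Clifford operators in the frame `i` -/
noncomputable def Ortho.eta (O : D.Ortho) (i : Fin 3) (k : Fin (2 * 6)) :
    Module.End T ({b // X.deg b = 1} → T) :=
  X.op T (O.e i (Fin.castLE (by norm_num) k)) (O.e i 12)

/-- the scalar square -/
noncomputable def Ortho.sc (O : D.Ortho) (k : Fin (2 * 6)) : R :=
  -(O.d (Fin.castLE (by norm_num) k) * O.d 12)

theorem Ortho.sc_unit (O : D.Ortho) (k : Fin (2 * 6)) : IsUnit (O.sc k) :=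
  ((O.hd _).mul (O.hd _)).neg

theorem Ortho.ne12 (k : Fin (2 * 6)) : (Fin.castLE (by norm_num) k : Fin 14) ≠ 12 := by
  intro h
  have h' := congrArg Fin.val h
  have := k.2
  simp at h'
  omega

theorem Ortho.eta_sq (O : D.Ortho) (hX : XTab.Good.{u} X) (h2 : IsUnit (2 : T)) (i : Fin 3)
    (k : Fin (2 * 6)) :
    O.eta i k * O.eta i k = algebraMap R T (O.sc k) • (1 : Module.End T _) := by
  rw [Ortho.eta, hX.op_sq T _ _ (O.e_sup i _) (O.e_sup i _)
    (by rw [O.qf_e, if_neg (Ortho.ne12 k)]) (by rw [O.qf_e, if_neg (Ortho.ne12 k).symm]) h2,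
    O.qf_e, O.qf_e, if_pos rfl, if_pos rfl, Ortho.sc, map_neg, map_mul]

theorem Ortho.eta_anti (O : D.Ortho) (hX : XTab.Good.{u} X) (h2 : IsUnit (2 : T)) (i : Fin 3)
    (k l : Fin (2 * 6)) (hkl : k ≠ l) :
    O.eta i k * O.eta i l = -(O.eta i l * O.eta i k) := by
  have hne : (Fin.castLE (by norm_num) k : Fin 14) ≠ Fin.castLE (by norm_num) l := by
    intro h; exact hkl (Fin.castLE_injective _ h)
  exact hX.op_anti T _ _ _ (O.e_sup i _) (O.e_sup i _) (O.e_sup i _)
    (by rw [O.qf_e, if_neg hne]) (by rw [O.qf_e, if_neg hne.symm])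
    (by rw [O.qf_e, if_neg (Ortho.ne12 k)]) (by rw [O.qf_e, if_neg (Ortho.ne12 k).symm])
    (by rw [O.qf_e, if_neg (Ortho.ne12 l)]) (by rw [O.qf_e, if_neg (Ortho.ne12 l).symm]) h2

theorem Ortho.eta_nat (O : D.Ortho) (hX : XTab.Good.{u} X) [Algebra ℚ T] (i j : Fin 3)
    (k : Fin (2 * 6)) :
    X.tau T (D.tt i j) * O.eta j k = O.eta i k * X.tau T (D.tt i j) := by
  rw [Ortho.eta, Ortho.eta, hX.op_nat T (D.tt i j) (D.aut2 hX i j) _ _ (O.e_sup j _) (O.e_sup j _)
    (by rw [O.e_tt, O.qf_e, O.qf_e]) (by rw [O.qf_e, if_pos rfl]; exact (O.hd 12).map _),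
    O.e_tt, O.e_tt]

/-- the inverse operators -/
noncomputable def Ortho.eta' (O : D.Ortho) (i : Fin 3) (k : Fin (2 * 6)) :
    Module.End T ({b // X.deg b = 1} → T) :=
  algebraMap R T ↑((O.sc_unit k).unit⁻¹) • O.eta i k

theorem Ortho.eta_eta' (O : D.Ortho) (hX : XTab.Good.{u} X) (h2 : IsUnit (2 : T)) (i : Fin 3)
    (k : Fin (2 * 6)) : O.eta i k * O.eta' i k = 1 := by
  rw [Ortho.eta', mul_smul_comm, O.eta_sq hX h2, smul_smul, ← map_mul]
  have : (↑((O.sc_unit k).unit⁻¹) : R) * O.sc k = 1 := IsUnit.val_inv_mul _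
  rw [this, map_one, one_smul]

theorem Ortho.eta'_eta (O : D.Ortho) (hX : XTab.Good.{u} X) (h2 : IsUnit (2 : T)) (i : Fin 3)
    (k : Fin (2 * 6)) : O.eta' i k * O.eta i k = 1 := by
  rw [Ortho.eta', smul_mul_assoc, O.eta_sq hX h2, smul_smul, ← map_mul]
  have : (↑((O.sc_unit k).unit⁻¹) : R) * O.sc k = 1 := IsUnit.val_inv_mul _
  rw [this, map_one, one_smul]

theorem Ortho.eta'_nat (O : D.Ortho) (hX : XTab.Good.{u} X) [Algebra ℚ T] (i j : Fin 3)
    (k : Fin (2 * 6)) :
    X.tau T (D.tt i j) * O.eta' j k = O.eta' i k * X.tau T (D.tt i j) := by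
  rw [Ortho.eta', Ortho.eta', mul_smul_comm, O.eta_nat hX, smul_mul_assoc]

/-- naturality of monomials -/
theorem mon_nat {E : Type*} [Monoid E] (t : E) :
    ∀ (N : ℕ) (g h : Fin N → E) (b : Fin N → Bool), (∀ i, t * g i = h i * t) →
      t * mon N g b = mon N h b * t
  | 0, g, h, b, _ => by simp [mon]
  | N + 1, g, h, b, H => by
    rw [mon, mon]
    have ih := mon_nat t N (fun i => g i.succ) (fun i => h i.succ) (fun i => b i.succ)
      (fun i => H i.succ)
    split_ifs with hb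
    · rw [← mul_assoc, H 0, mul_assoc, ih, mul_assoc]
    · rw [one_mul, one_mul, ih]

theorem mon'_nat {E : Type*} [Monoid E] (t : E) :
    ∀ (N : ℕ) (g h : Fin N → E) (b : Fin N → Bool), (∀ i, t * g i = h i * t) →
      t * mon' N g b = mon' N h b * t
  | 0, g, h, b, _ => by simp [mon']
  | N + 1, g, h, b, H => by
    rw [mon', mon']
    have ih := mon'_nat t N (fun i => g i.succ) (fun i => h i.succ) (fun i => b i.succ)
      (fun i => H i.succ)
    split_ifs with hb
    · rw [← mul_assoc, ih, mul_assoc, H 0, mul_assoc]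
    · rw [mul_one, mul_one, ih]

/-- operators preserving points -/
def PresP (A : Subalgebra R T) {ι : Type} (φ : Module.End T (ι → T)) : Prop :=
  ∀ x, Pts A x → Pts A (φ x)

theorem PresP.mul {A : Subalgebra R T} {ι : Type} {φ ψ : Module.End T (ι → T)}
    (h1 : PresP A φ) (h2 : PresP A ψ) : PresP A (φ * ψ) := fun x hx => h1 _ (h2 _ hx)

theorem PresP.one {A : Subalgebra R T} {ι : Type} : PresP A (1 : Module.End T (ι → T)) :=
  fun _ hx => hx

theorem PresP.mon {A : Subalgebra R T} {ι : Type} :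
    ∀ (N : ℕ) (g : Fin N → Module.End T (ι → T)) (b : Fin N → Bool),
      (∀ i, PresP A (g i)) → PresP A (U.mon N g b)
  | 0, g, b, _ => PresP.one
  | N + 1, g, b, H => by
    rw [U.mon]
    refine PresP.mul ?_ (PresP.mon N _ _ fun i => H i.succ)
    split_ifs
    · exact H 0
    · exact PresP.one

theorem PresP.mon' {A : Subalgebra R T} {ι : Type} :
    ∀ (N : ℕ) (g : Fin N → Module.End T (ι → T)) (b : Fin N → Bool),
      (∀ i, PresP A (g i)) → PresP A (U.mon' N g b)
  | 0, g, b, _ => PresP.one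
  | N + 1, g, b, H => by
    rw [U.mon']
    refine PresP.mul (PresP.mon' N _ _ fun i => H i.succ) ?_
    split_ifs
    · exact H 0
    · exact PresP.one

theorem Ortho.eta_presP (O : D.Ortho) (i : Fin 3) (k : Fin (2 * 6)) :
    PresP (C.R1 i) (O.eta i k) := by
  intro x hx
  have h1 : Pts (C.R1 i) (X.ext 1 T x) := by
    intro b
    show (if hb : X.deg b = 1 then x ⟨b, hb⟩ else 0) ∈ C.R1 i
    split_ifs with hb
    · exact hx _
    · exact (C.R1 i).zero_mem
  have h2 := Pts.bil X.cl (O.e_pts i 12) h1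
  have h3 := Pts.bil X.c (O.e_pts i (Fin.castLE (by norm_num) k)) h2
  exact fun b => h3 b.1

theorem Ortho.eta'_presP (O : D.Ortho) (i : Fin 3) (k : Fin (2 * 6)) :
    PresP (C.R1 i) (O.eta' i k) := by
  intro x hx
  rw [Ortho.eta', LinearMap.smul_apply]
  exact Pts.smul ((C.R1 i).algebraMap_mem _) (O.eta_presP i k x hx)

theorem Ortho.hE (O : D.Ortho) (hX : XTab.Good.{u} X) [Algebra ℚ T] (i : Fin 3)
    (s : Fin (2 * 6) → Bool) (a b : Fin 64) :
    (D.eps hX i).repr (mon _ (O.eta 0) s (D.eps hX i a)) b ∈ C.R1 i := by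
  rw [eps_repr]
  have h := mon_nat (X.tau T (D.tt i 0)) _ (O.eta 0) (O.eta i) s (fun k => O.eta_nat hX i 0 k)
  have h' := LinearMap.congr_fun h (D.eps hX i a)
  rw [Module.End.mul_apply, Module.End.mul_apply] at h'
  rw [h', eps_apply, D.tau_tau hX, tt_self, hX.tau_one]
  exact PresP.mon _ _ s (O.eta_presP i) _ (pts_single _ _) _

theorem Ortho.hE' (O : D.Ortho) (hX : XTab.Good.{u} X) [Algebra ℚ T] (i : Fin 3)
    (s : Fin (2 * 6) → Bool) (a b : Fin 64) :
    (D.eps hX i).repr (mon' _ (O.eta' 0) s (D.eps hX i a)) b ∈ C.R1 i := by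
  rw [eps_repr]
  have h := mon'_nat (X.tau T (D.tt i 0)) _ (O.eta' 0) (O.eta' i) s
    (fun k => O.eta'_nat hX i 0 k)
  have h' := LinearMap.congr_fun h (D.eps hX i a)
  rw [Module.End.mul_apply, Module.End.mul_apply] at h'
  rw [h', eps_apply, D.tau_tau hX, tt_self, hX.tau_one]
  exact PresP.mon' _ _ s (O.eta'_presP i) _ (pts_single _ _) _

end UData

end Pool.Agent.Licci.U
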