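import Pool.Agent.Work.MP_a98e4e_ag.U.SplitB
import Pool.Agent.Work.MP_a98e4e_ag.U.AG
import Pool.Agent.Work.MP_a98e4e_ag.U.Orth

/-!
# Block (U), module U7d, part C: the global Euler element
-/

set_option linter.unusedSectionVars false

namespace Pool.Agent.Licci.U

open Module RingTheory.Sequence IsLocalRing

universe u

variable {B : Type} [Fintype B] [DecidableEq B]

namespace UData

variable {X : XTab B} {R : Type u} [CommRing R] {T : Type u} [CommRing T]
  [Algebra R T] {C : Cov R T} (D : UData X C)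

/-- `H^1 (gr_1) = 0`. -/
def H1E (D : UData X C) (hX : XTab.Good.{u} X) [Algebra ℚ T] : Prop :=
  ∀ x : Fin 3 → Fin 3 → ({b // X.deg b = 1} → T), (∀ i j, C.E2 (D.eps hX) i j (x i j)) →
    (∀ i j k, x i j + x j k = x i k) →
      ∃ y : Fin 3 → ({b // X.deg b = 1} → T), (∀ i, C.E1 (D.eps hX) i (y i)) ∧
        ∀ i j, x i j = y j - y i

theorem h1E [IsLocalRing R] [IsNoetherianRing R] [Algebra ℚ R] [Algebra ℚ T]
    (hm : ∀ i, C.f i ∈ maximalIdeal R) (hreg : IsWeaklyRegular R [C.f 0, C.f 1, C.f 2])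
    (hT : ∀ x : T, ∃ N : ℕ, ∃ r : R,
      algebraMap R T (C.f 0 * C.f 1 * C.f 2) ^ N * x = algebraMap R T r)
    (y1 y2 : R) (hy : IsWeaklyRegular R [y1, y2]) (hy1 : y1 ∈ maximalIdeal R)
    (hy2 : y2 ∈ maximalIdeal R)
    (hfree : ∀ (M : Type u) [AddCommGroup M] [Module R M] [Module.Finite R M],
      IsWeaklyRegular M [y1, y2] → ∀ (b : ℕ) (π : (Fin b → R) →ₗ[R] M), Function.Surjective π →
        Module.Free R (LinearMap.ker π))
    (hX : XTab.Good.{u} X) : D.H1E hX := by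
  have unitR : ∀ n : ℕ, n ≠ 0 → IsUnit (n : R) := by
    intro n hn
    have h1 : IsUnit ((n : ℚ)) := IsUnit.mk0 _ (by exact_mod_cast hn)
    have h2 := h1.map (algebraMap ℚ R)
    rwa [map_natCast] at h2
  have h2 : IsUnit (2 : R) := by exact_mod_cast unitR 2 (by norm_num)
  have h2T : IsUnit (2 : T) := by
    have := h2.map (algebraMap R T)
    rwa [map_ofNat] at this
  obtain ⟨P, d, hP, hd, hPd⟩ := orth h2 D.M D.hMs D.hMu
  let O : D.Ortho := ⟨P, d, hd, hPd⟩
  have h0 : ∀ i, O.eta 0 i * O.eta' 0 i = 1 := fun i => O.eta_eta' hX h2T 0 i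
  have h0' : ∀ i, O.eta' 0 i * O.eta 0 i = 1 := fun i => O.eta'_eta hX h2T 0 i
  obtain ⟨g1, g2, g3⟩ := anti' (D.eps hX 0) h2T (O.eta 0) (O.eta' 0) h0 h0'
    (fun k => algebraMap R T (O.sc k)) (fun k => (O.sc_unit k).map _)
    (fun k => O.eta_sq hX h2T 0 k) (fun k l hkl => O.eta_anti hX h2T 0 k l hkl)
  refine ag C hm hreg hT y1 y2 hy hy1 hy2 hfree (D.eps hX) (D.heps hX)
    (ι := Fin (2 * 6) → Bool) (by simp) ((unitR 64 (by norm_num)).map _)
    (unitR 64 (by norm_num)) (fun s => mon _ (O.eta 0) s) (fun s => mon' _ (O.eta' 0) s)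
    (fun s => g1 s) (fun s => g2 s) (O.hE hX) (O.hE' hX) (fun s t => g3 s t)

/-- the standard Euler element -/
def hs (X : XTab B) (T : Type u) [CommRing T] : B → T := fun b => (X.h b : T)

/-- local Euler elements -/
noncomputable def hl (i : Fin 3) : B → T := (D.gE i).symm (hs X T)

theorem gE_hl (i j : Fin 3) : D.gE i (D.hl j) = D.tt i j (hs X T) := rfl

theorem gE_hl_self (i : Fin 3) : D.gE i (D.hl i) = hs X T := by
  rw [hl, LinearEquiv.apply_symm_apply]

theorem ge_iff (hX : XTab.Good.{u} X) [Algebra ℚ T] (i j : Fin 3) (k : ℤ) (v : B → T) :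
    Ge X.deg k (D.gE i v) ↔ Ge X.deg k (D.gE j v) := by
  rw [← D.tt_gE i j v]
  exact hX.aut_ge T (D.tt i j) (D.aut2 hX i j) k _

theorem ge_diff (hX : XTab.Good.{u} X) [Algebra ℚ T] (k i j : Fin 3) :
    Ge X.deg 1 (D.gE k (D.hl j - D.hl i)) := by
  rw [D.ge_iff hX k i, map_sub, gE_hl_self, gE_hl]
  exact hX.aut_h T (D.tt i j) (D.aut2 hX i j)

theorem pts_hs (A : Subalgebra R T) : Pts A (hs X T) := fun b => A.intCast_mem _

theorem pts_hl (i : Fin 3) {A : Subalgebra R T} (hA : C.R1 i ≤ A) : Pts A (D.hl i) :=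
  D.pts_gE_symm i _ A hA (pts_hs A)

theorem res_gE (hX : XTab.Good.{u} X) [Algebra ℚ T] (i j : Fin 3) (v : B → T)
    (hv : Ge X.deg 1 (D.gE j v)) :
    X.tau T (D.tt i j) (X.res 1 T (D.gE j v)) = X.res 1 T (D.gE i v) := by
  rw [← hX.res_tau T (D.tt i j) (D.aut2 hX i j) _ hv, tt_gE]

theorem res_ext (x : {b // X.deg b = 1} → T) : X.res 1 T (X.ext 1 T x) = x := by
  funext b
  show (if hb : X.deg b.1 = 1 then x ⟨b.1, hb⟩ else 0) = x b
  rw [dif_pos b.2]

theorem ext_sup (x : {b // X.deg b = 1} → T) : Sup X.deg 1 (X.ext 1 T x) := by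
  intro b hb
  show (if hb : X.deg b = 1 then x ⟨b, hb⟩ else 0) = 0
  rw [dif_neg hb]

theorem pts_ext {A : Subalgebra R T} {x : {b // X.deg b = 1} → T} (hx : Pts A x) :
    Pts A (X.ext 1 T x) := by
  intro b
  show (if hb : X.deg b = 1 then x ⟨b, hb⟩ else 0) ∈ A
  split_ifs with hb
  · exact hx _
  · exact A.zero_mem

theorem sup_two_of (hX : XTab.Good.{u} X) {v : B → T} (hv : Ge X.deg 1 v)
    (h : X.res 1 T v = 0) : Sup X.deg 2 v := by
  intro b hb
  rcases lt_trichotomy (X.deg b) 1 with h1 | h1 | h1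
  · exact hv b h1
  · exact congrFun h ⟨b, h1⟩
  · have := hX.deg_le b
    omega

/-- the global Euler element -/
theorem exists_euler [IsLocalRing R] [IsNoetherianRing R] [Algebra ℚ T]
    (hm : ∀ i, C.f i ∈ maximalIdeal R) (hreg : IsWeaklyRegular R [C.f 0, C.f 1, C.f 2])
    (hX : XTab.Good.{u} X) (hH : D.H1E hX) :
    ∃ h : B → R, ∀ i, Ge X.deg 1 (hs X T - D.gE i (algebraMap R T ∘ h)) := by
  -- degree one
  obtain ⟨y, hy, hyx⟩ := hH (fun i j => X.res 1 T (D.gE 0 (D.hl j - D.hl i)))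
    (by
      intro i j
      rw [D.E2_iff hX, D.res_gE hX i 0 _ (D.ge_diff hX 0 i j)]
      have : Pts (C.R2 i j) (D.gE i (D.hl j - D.hl i)) :=
        D.pts_gE i _ _ (C.R1_le_R2 i j)
          ((D.pts_hl j (C.R1_le_R2' i j)).sub (D.pts_hl i (C.R1_le_R2 i j)))
      exact fun b => this b.1)
    (by
      intro i j k
      rw [← map_add, ← map_add]
      congr 2
      abel)
  have hyp : ∀ i, Pts (C.R1 i) (X.tau T (D.tt i 0) (y i)) := fun i => (D.E1_iff hX i _).1 (hy i)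
  set w : Fin 3 → B → T := fun i => (D.gE i).symm (X.ext 1 T (X.tau T (D.tt i 0) (y i))) with hw
  have hgw : ∀ i, D.gE i (w i) = X.ext 1 T (X.tau T (D.tt i 0) (y i)) := fun i => by
    rw [hw, LinearEquiv.apply_symm_apply]
  have hw1 : ∀ i j, Ge X.deg 1 (D.gE j (w i)) := by
    intro i j
    rw [D.ge_iff hX j i, hgw]
    exact (ext_sup _).ge le_rfl
  have hwp : ∀ i, Pts (C.R1 i) (w i) := fun i => D.pts_gE_symm i _ _ le_rfl (pts_ext (hyp i))
  have hres : ∀ i, X.res 1 T (D.gE 0 (w i)) = y i := by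
    intro i
    rw [← D.res_gE hX 0 i _ (hw1 i i), hgw, res_ext, D.tau_tau hX, tt_self, hX.tau_one]
    rfl
  -- degree two
  set z : Fin 3 → Fin 3 → B → T := fun i j => (D.hl j - w j) - (D.hl i - w i) with hz
  have hz2 : ∀ i j k, Sup X.deg 2 (D.gE k (z i j)) := by
    intro i j k
    rw [D.sup_iff hX k 0]
    have e' : z i j = (D.hl j - D.hl i) - (w j - w i) := by
      simp only [hz]
      abel
    have e : D.gE 0 (z i j) = D.gE 0 (D.hl j - D.hl i) - (D.gE 0 (w j) - D.gE 0 (w i)) := by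
      rw [e', map_sub (D.gE 0) (D.hl j - D.hl i), map_sub (D.gE 0) (w j)]
    rw [e]
    refine sup_two_of hX ((D.ge_diff hX 0 i j).sub ((hw1 j 0).sub (hw1 i 0))) ?_
    rw [map_sub (X.res 1 T), map_sub (X.res 1 T) (D.gE 0 (w j)), hres, hres, hyx i j, sub_self]
  have hzp : ∀ i j, Pts (C.R2 i j) (z i j) := by
    intro i j
    refine ((D.pts_hl j (C.R1_le_R2' i j)).sub ?_).sub ((D.pts_hl i (C.R1_le_R2 i j)).sub ?_)
    · exact fun b => C.R1_le_R2' i j (hwp j b)
    · exact fun b => C.R1_le_R2 i j (hwp i b)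
  have hzc : ∀ i j k, z i j + z j k = z i k := by
    intro i j k
    simp only [hz]
    abel
  set ζ : Fin 3 → Fin 3 → Fin 14 → T := fun i j l => D.cf i (z i j) l with hζ
  have hζz : ∀ i j, z i j = ∑ l, ζ i j l • D.gT l := fun i j => D.eq_sum_cf hX i _ (hz2 i j i)
  have hζp : ∀ i j l, ζ i j l ∈ C.R2 i j := fun i j l =>
    D.cf_mem i _ (C.R1_le_R2 i j) _ (D.pts_gE i _ _ (C.R1_le_R2 i j) (hzp i j)) l
  have hζc : ∀ i j k l, ζ i j l + ζ j k l = ζ i k l := by
    intro i j k l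
    have h : (fun l => ζ i j l + ζ j k l - ζ i k l) = 0 := by
      refine D.indep hX _ ?_
      have : ∑ l, (ζ i j l + ζ j k l - ζ i k l) • D.gT l =
          (∑ l, ζ i j l • D.gT l + ∑ l, ζ j k l • D.gT l) - ∑ l, ζ i k l • D.gT l := by
        rw [← Finset.sum_add_distrib, ← Finset.sum_sub_distrib]
        exact Finset.sum_congr rfl fun l _ => by rw [sub_smul, add_smul]
      rw [this, ← hζz, ← hζz, ← hζz, hzc, sub_self]
    exact sub_eq_zero.1 (congrFun h l)
  obtain ⟨a, ha, haz⟩ := C.cech hm hreg (fun i j l => ζ i j l) hζp hζc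
  -- the global section
  set H : Fin 3 → B → T := fun i => (D.hl i - w i) - ∑ l, a i l • D.gT l with hH'
  have hHeq : ∀ i j, H i = H j := by
    intro i j
    have h1 : z i j = ∑ l, a j l • D.gT l - ∑ l, a i l • D.gT l := by
      rw [hζz, ← Finset.sum_sub_distrib]
      exact Finset.sum_congr rfl fun l _ => by rw [haz i j l, sub_smul]
    have h2 : H j - H i = z i j - (∑ l, a j l • D.gT l - ∑ l, a i l • D.gT l) := by
      simp only [hH', hz]
      abel
    rw [h1, sub_self] at h2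
    exact (sub_eq_zero.1 h2).symm
  have hHp : ∀ i, Pts (C.R1 i) (H i) := by
    intro i
    refine ((D.pts_hl i le_rfl).sub (hwp i)).sub (Pts.sum fun l _ => Pts.smul (ha i l) ?_)
    exact Pts.algebraMap _
  have hex : ∀ b, ∃ r : R, algebraMap R T r = H 0 b := by
    intro b
    refine C.inter hm hreg (by decide : (0 : Fin 3) ≠ 1) (hHp 0 b) ?_
    rw [hHeq 0 1]
    exact hHp 1 b
  choose h hh using hex
  refine ⟨h, fun i => ?_⟩
  have e1 : (algebraMap R T ∘ h : B → T) = H i := by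
    rw [hHeq i 0]
    funext b
    exact hh b
  have e2 : hs X T - D.gE i (H i) = D.gE i (w i) + D.gE i (∑ l, a i l • D.gT l) := by
    simp only [hH', map_sub, gE_hl_self]
    abel
  rw [e1, e2]
  refine (hw1 i i).add ?_
  rw [map_sum]
  refine Sup.ge (k := 2) (by norm_num) (Sup.sum fun l _ => ?_)
  rw [map_smul]
  exact (D.sup_gE_gT i l).smul _

end UData

end Pool.Agent.Licci.U
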