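import Pool.Agent.Work.MP_a98e4e_ag.L.XT
import Pool.Agent.Work.MP_a98e4e_ag.L.ChkDef

/-!
# Block (U6c): kernel checks for the Clifford relations of the table
-/

namespace Pool.Agent.Licci.T6c

open Pool.Agent.Licci

/-- the correction term of the Clifford relation -/
def co (i j k : ℕ) : List (ℕ × ℤ) := bif Nat.beq j (Nat.add i 7) then [(k, 1)] else []

/-- `[e_i,[e_j^♭, e_k]] + [e_j,[e_i^♭, e_k]] = q_ij e_k` -/
def ch1 (i j k : ℕ) : Bool := zr (lm i (sp (flN j) k) ++ (lm j (sp (flN i) k) ++ co i j k))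

/-- `[e_i^♭,[e_j, e_k]] + [e_j^♭,[e_i, e_k]] = q_ij e_k` -/
def ch2 (i j k : ℕ) : Bool := zr (lm (flN i) (sp j k) ++ (lm (flN j) (sp i k) ++ co i j k))

/-- all pairs `1 ≤ i ≤ j ≤ 14` -/
def prs (p : ℕ → ℕ → Bool) : Bool :=
  (List.range 15).all (fun j => (List.range (j + 1)).all (fun i => bif Nat.beq i 0 then true else p i j))

theorem prs_spec {p : ℕ → ℕ → Bool} (h : prs p = true) {i j : ℕ} (hi : 1 ≤ i) (hij : i ≤ j)
    (hj : j ≤ 14) : p i j = true := by
  have h1 := all_range (all_range h (i := j) (by omega)) (i := i) (by omega)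
  have h2 : Nat.beq i 0 = false := by
    rw [Bool.eq_false_iff]
    intro h
    rw [Nat.beq_eq] at h
    omega
  rw [h2] at h1
  exact h1

set_option maxRecDepth 100000

theorem chk1 : (List.range 248).all (fun k => bif isz (xdN k - 1) then
    prs (fun i j => ch1 i j k) else true) = true := by decide +kernel

theorem chk2 : (List.range 248).all (fun k => bif isz (xdN k + 1) then
    prs (fun i j => ch2 i j k) else true) = true := by decide +kernel

theorem chk3 : (List.range 248).all (fun k => bif isz (xdN k - 2) then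
    Nat.ble 1 k && Nat.ble k 14 else true) = true := by decide +kernel

theorem chk4 : (List.range 248).all (fun k => bif isz (xdN k - 1) then
    (List.range 15).all (fun i => bif Nat.beq i 0 then true else
      (sp (flN i) k).all (fun p => isz (xdN p.1 + 1))) else true) = true := by decide +kernel

theorem cl1 {i j k : ℕ} (hi : 1 ≤ i) (hij : i ≤ j) (hj : j ≤ 14) (hk : k < 248)
    (hd : xdN k = 1) : ch1 i j k = true := by
  have h1 := all_range chk1 hk
  have h2 : isz (xdN k - 1) = true := by rw [isz_iff]; omega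
  simp only [h2, cond_true] at h1
  exact prs_spec h1 hi hij hj

theorem cl2 {i j k : ℕ} (hi : 1 ≤ i) (hij : i ≤ j) (hj : j ≤ 14) (hk : k < 248)
    (hd : xdN k = -1) : ch2 i j k = true := by
  have h1 := all_range chk2 hk
  have h2 : isz (xdN k + 1) = true := by rw [isz_iff]; omega
  simp only [h2, cond_true] at h1
  exact prs_spec h1 hi hij hj

theorem deg_two {k : ℕ} (hk : k < 248) (hd : xdN k = 2) : 1 ≤ k ∧ k ≤ 14 := by
  have h1 := all_range chk3 hk
  have h2 : isz (xdN k - 2) = true := by rw [isz_iff]; omega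
  simp only [h2, cond_true, Bool.and_eq_true, Nat.ble_eq] at h1
  exact h1

theorem deg_neg_one {i k : ℕ} (hi : 1 ≤ i) (hi' : i ≤ 14) (hk : k < 248) (hd : xdN k = 1)
    {l : ℕ} (hl : scN (flN i) k l ≠ 0) : xdN l = -1 := by
  have h1 := all_range chk4 hk
  have h2 : isz (xdN k - 1) = true := by rw [isz_iff]; omega
  simp only [h2, cond_true] at h1
  have h3 := all_range h1 (i := i) (by omega)
  have h4 : Nat.beq i 0 = false := by
    rw [Bool.eq_false_iff]
    intro h
    rw [Nat.beq_eq] at h
    omega
  rw [h4, cond_false, List.all_eq_true] at h3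
  by_contra hc
  apply hl
  apply cf_eq_zero_of_notMem
  intro p hp hpl
  have h5 := h3 p hp
  rw [isz_iff, hpl] at h5
  omega

end Pool.Agent.Licci.T6c
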