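import Pool.Agent.Work.MP_a98e4e_ag.U.XTab

/-!
# Block (U): base change of `Cov` and `UData` along a pair of ring maps `R → R'`, `T → T'`
-/

namespace Pool.Agent.Licci.U

open Module

universe u

variable {B : Type} [Fintype B] [DecidableEq B]

omit [DecidableEq B] in
theorem qf_map (q : B → B → ℤ) {A A' : Type u} [CommRing A] [CommRing A'] (φ : A →+* A')
    (x y : B → A) : φ (qf q x y) = qf q (φ ∘ x) (φ ∘ y) := by
  simp [qf]

omit [Fintype B] [DecidableEq B] in
theorem Sup_map (deg : B → ℤ) (k : ℤ) {A A' : Type u} [CommRing A] [CommRing A'] (φ : A →+* A')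
    {x : B → A} (hx : Sup deg k x) : Sup deg k (φ ∘ x) := by
  intro b hb
  simp [hx b hb]

omit [DecidableEq B] in
theorem mulVec_map {A A' : Type u} [CommRing A] [CommRing A'] (φ : A →+* A')
    (G : Matrix B B A) (x : B → A) : φ ∘ (G.mulVec x) = (G.map φ).mulVec (φ ∘ x) := by
  funext i
  exact RingHom.map_mulVec φ G x i

/-- homomorphism property is inherited by base change. -/
theorem hom_map (X : XTab B) {A A' : Type u} [CommRing A] [CommRing A'] (φ : A →+* A')
    (G : Matrix B B A)
    (h : ∀ x y, G.mulVec (X.br A x y) = X.br A (G.mulVec x) (G.mulVec y)) (x y : B → A') :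
    (G.map φ).mulVec (X.br A' x y) = X.br A' ((G.map φ).mulVec x) ((G.map φ).mulVec y) := by
  let P : (B → A') →ₗ[A'] (B → A') := (G.map φ).mulVecLin
  have key : (X.br A').compr₂ P = (X.br A').compl₁₂ P P := by
    refine LinearMap.ext_basis (Pi.basisFun A' B) (Pi.basisFun A' B) fun i j => ?_
    have e : ∀ i : B, (Pi.basisFun A' B) i = φ ∘ (Pi.single i (1 : A) : B → A) := by
      intro i
      funext b
      by_cases hb : b = i
      · subst hb
        simp
      · simp [Pi.single_eq_of_ne hb]
    simp only [LinearMap.compr₂_apply, LinearMap.compl₁₂_apply]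
    change (G.map φ).mulVec (X.br A' _ _) = X.br A' ((G.map φ).mulVec _) ((G.map φ).mulVec _)
    rw [e i, e j, ← bil_map, ← mulVec_map, ← mulVec_map, ← mulVec_map, ← bil_map, h]
  have := congrArg (fun L => L x y) key
  exact this

namespace Cov

variable {R : Type u} [CommRing R] {T : Type u} [CommRing T] [Algebra R T] (C : Cov R T)
variable {R' : Type u} [CommRing R'] {T' : Type u} [CommRing T'] [Algebra R' T']

/-- base change of the covering data -/
def map (φ : R →+* R') (inj : Function.Injective (algebraMap R' T'))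
    (unit : ∀ i, IsUnit (algebraMap R' T' (φ (C.f i)))) : Cov R' T' where
  f := fun i => φ (C.f i)
  inj := inj
  unit := unit

end Cov

section

variable {R : Type u} [CommRing R] {T : Type u} [CommRing T] [Algebra R T]
variable {R' : Type u} [CommRing R'] {T' : Type u} [CommRing T'] [Algebra R' T']

theorem Rl_map (φ : R →+* R') (ψ : T →+* T')
    (hψ : ∀ r, ψ (algebraMap R T r) = algebraMap R' T' (φ r)) (a : R) {x : T}
    (hx : x ∈ Rl R T a) : ψ x ∈ Rl R' T' (φ a) := by
  obtain ⟨N, r, h⟩ := (mem_Rl R T).1 hx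
  refine (mem_Rl R' T').2 ⟨N, φ r, ?_⟩
  rw [← hψ, ← hψ, ← h, map_mul, map_pow]

/-- base change of the frames -/
def UData.map {X : XTab B} {C : Cov R T} (D : UData X C) (φ : R →+* R') (ψ : T →+* T')
    (hψ : ∀ r, ψ (algebraMap R T r) = algebraMap R' T' (φ r))
    (inj : Function.Injective (algebraMap R' T'))
    (unit : ∀ i, IsUnit (algebraMap R' T' (φ (C.f i)))) : UData X (C.map φ inj unit) where
  G := fun i => (D.G i).map ψ
  G' := fun i => (D.G' i).map ψ
  GG' := by
    intro i
    have h := congrArg ψ.mapMatrix (D.GG' i)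
    rw [map_mul, map_one] at h
    exact h
  G'G := by
    intro i
    have h := congrArg ψ.mapMatrix (D.G'G i)
    rw [map_mul, map_one] at h
    exact h
  hG := fun i a b => Rl_map φ ψ hψ (C.f i) (D.hG i a b)
  hG' := fun i a b => Rl_map φ ψ hψ (C.f i) (D.hG' i a b)
  hom := fun i x y => hom_map X ψ (D.G i) (D.hom i) x y
  γ := fun l => φ ∘ D.γ l
  hγ := by
    intro i l
    have h := Sup_map X.deg 2 ψ (D.hγ i l)
    rw [mulVec_map] at h
    have e : (ψ ∘ (algebraMap R T ∘ D.γ l) : B → T') = algebraMap R' T' ∘ (φ ∘ D.γ l) := by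
      funext b
      exact hψ _
    rw [e] at h
    exact h
  M := D.M.map φ
  hMs := by
    rw [← Matrix.transpose_map, D.hMs]
  hMu := by
    have h := D.hMu.map φ
    rw [RingHom.map_det] at h
    exact h
  hM := by
    intro i k l
    have h := congrArg ψ (D.hM i k l)
    rw [qf_map, mulVec_map, mulVec_map, hψ] at h
    have e : ∀ l, (ψ ∘ (algebraMap R T ∘ D.γ l) : B → T') = algebraMap R' T' ∘ (φ ∘ D.γ l) := by
      intro l
      funext b
      exact hψ _
    rw [e, e] at h
    exact h

end

end Pool.Agent.Licci.U
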